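import Mathlib

/-!
# Basic tools: clamping, the circle, locally Lipschitz maps
-/

set_option autoImplicit false

open Set Filter Topology Metric

namespace Pool.Agent.K6.H31.WC

/-- the model space -/
abbrev XM (m : ℕ) := ℂ × ℝ × (Fin m → ℝ)

/-! ### Clamping -/

/-- clamping to `[0, 1]` -/
noncomputable def cl (t : ℝ) : ℝ := max 0 (min 1 t)

theorem cl_nonneg (t : ℝ) : 0 ≤ cl t := le_max_left _ _

theorem cl_le_one (t : ℝ) : cl t ≤ 1 := max_le zero_le_one (min_le_left _ _)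

theorem cl_of_nonpos {t : ℝ} (h : t ≤ 0) : cl t = 0 := by
  unfold cl
  rw [min_eq_right (by linarith), max_eq_left h]

theorem cl_of_one_le {t : ℝ} (h : 1 ≤ t) : cl t = 1 := by
  unfold cl
  rw [min_eq_left h, max_eq_right zero_le_one]

theorem cl_of_mem {t : ℝ} (h0 : 0 ≤ t) (h1 : t ≤ 1) : cl t = t := by
  unfold cl
  rw [min_eq_right h1, max_eq_right h0]

theorem cl_zero : cl 0 = 0 := cl_of_nonpos le_rfl

theorem cl_continuous : Continuous cl := by
  unfold cl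
  fun_prop

theorem cl_mono : Monotone cl := fun _ _ h => max_le_max le_rfl (min_le_min le_rfl h)

theorem abs_cl_sub (s t : ℝ) : |cl s - cl t| ≤ |s - t| := by
  have h1 : |cl s - cl t| ≤ |min 1 s - min 1 t| := by
    unfold cl
    have := abs_max_sub_max_le_max (0 : ℝ) (min 1 s) 0 (min 1 t)
    simpa using this
  have h2 : |min 1 s - min 1 t| ≤ |s - t| := by
    have := abs_min_sub_min_le_max (1 : ℝ) s 1 t
    simpa using this
  exact h1.trans h2

/-! ### The circle -/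

/-- `e ^ (2 π i t)` -/
noncomputable def ee (t : ℝ) : ℂ := Complex.exp ((2 * Real.pi * t : ℝ) * Complex.I)

theorem norm_ee (t : ℝ) : ‖ee t‖ = 1 := Complex.norm_exp_ofReal_mul_I _

theorem ee_ne_zero (t : ℝ) : ee t ≠ 0 := Complex.exp_ne_zero _

theorem ee_add (s t : ℝ) : ee (s + t) = ee s * ee t := by
  unfold ee
  rw [← Complex.exp_add]
  congr 1
  push_cast
  ring

theorem ee_zero : ee 0 = 1 := by
  unfold ee
  simp

theorem ee_neg_mul (t : ℝ) : ee (-t) * ee t = 1 := by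
  rw [← ee_add, neg_add_cancel, ee_zero]

theorem ee_mul_neg (t : ℝ) : ee t * ee (-t) = 1 := by
  rw [← ee_add, add_neg_cancel, ee_zero]

theorem ee_int (n : ℤ) : ee n = 1 := by
  unfold ee
  rw [Complex.exp_eq_one_iff]
  exact ⟨n, by push_cast; ring⟩

theorem ee_nat (n : ℕ) : ee n = 1 := by
  have := ee_int n
  exact_mod_cast this

theorem ee_continuous : Continuous ee := by
  unfold ee
  fun_prop

theorem norm_ee_sub (s t : ℝ) : ‖ee s - ee t‖ = 2 * |Real.sin (Real.pi * (s - t))| := by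
  have h1 : ee s - ee t = (ee (s - t) - 1) * ee t := by
    rw [sub_mul, one_mul, ← ee_add, sub_add_cancel]
  have h2 : ee (s - t) = Complex.exp (Complex.I * ((2 * Real.pi * (s - t) : ℝ) : ℂ)) := by
    unfold ee
    rw [mul_comm]
  rw [h1, norm_mul, norm_ee, mul_one, h2, Complex.norm_exp_I_mul_ofReal_sub_one, norm_mul]
  have h3 : 2 * Real.pi * (s - t) / 2 = Real.pi * (s - t) := by ring
  rw [h3]
  simp

theorem norm_ee_sub_le (s t : ℝ) : ‖ee s - ee t‖ ≤ 2 * Real.pi * |s - t| := by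
  rw [norm_ee_sub]
  have h1 : |Real.sin (Real.pi * (s - t))| ≤ |Real.pi * (s - t)| := Real.abs_sin_le_abs
  rw [abs_mul, abs_of_pos Real.pi_pos] at h1
  linarith

theorem le_norm_ee_sub {s t : ℝ} (h : |s - t| ≤ 1 / 2) : 4 * |s - t| ≤ ‖ee s - ee t‖ := by
  rw [norm_ee_sub]
  have h1 : |Real.pi * (s - t)| ≤ Real.pi / 2 := by
    rw [abs_mul, abs_of_pos Real.pi_pos]
    nlinarith [Real.pi_pos]
  have h2 := Real.mul_abs_le_abs_sin h1
  rw [abs_mul, abs_of_pos Real.pi_pos] at h2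
  have h3 : 2 / Real.pi * (Real.pi * |s - t|) = 2 * |s - t| := by
    field_simp
  linarith

/-! ### Locally Lipschitz maps -/

/-- `f` is Lipschitz with the constant `C` near `x`. -/
def LL {X Y : Type*} [SeminormedAddCommGroup X] [SeminormedAddCommGroup Y] (f : X → Y) (C : ℝ)
    (x : X) : Prop := ∀ᶠ p : X × X in 𝓝 (x, x), ‖f p.1 - f p.2‖ ≤ C * ‖p.1 - p.2‖

section

variable {X Y Z : Type*} [SeminormedAddCommGroup X] [SeminormedAddCommGroup Y]
  [SeminormedAddCommGroup Z]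

theorem ev_fst {x : X} {P : X → Prop} (h : ∀ᶠ y in 𝓝 x, P y) : ∀ᶠ p : X × X in 𝓝 (x, x), P p.1 :=
  (continuous_fst.tendsto (x, x)).eventually h

theorem ev_snd {x : X} {P : X → Prop} (h : ∀ᶠ y in 𝓝 x, P y) : ∀ᶠ p : X × X in 𝓝 (x, x), P p.2 :=
  (continuous_snd.tendsto (x, x)).eventually h

theorem ev_both {x : X} {P : X → Prop} (h : ∀ᶠ y in 𝓝 x, P y) :
    ∀ᶠ p : X × X in 𝓝 (x, x), P p.1 ∧ P p.2 := (ev_fst h).and (ev_snd h)

theorem LL.mono {f : X → Y} {C C' : ℝ} {x : X} (h : LL f C x) (hC : C ≤ C') : LL f C' x := by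
  filter_upwards [h] with p hp
  exact hp.trans (mul_le_mul_of_nonneg_right hC (norm_nonneg _))

theorem LL.congr {f g : X → Y} {C : ℝ} {x : X} (h : LL f C x) (hfg : f =ᶠ[𝓝 x] g) : LL g C x := by
  filter_upwards [h, ev_both hfg] with p hp hp2
  rw [← hp2.1, ← hp2.2]
  exact hp

theorem LL.of_lip {f : X → Y} {C : ℝ} {x : X} (h : ∀ y z, ‖f y - f z‖ ≤ C * ‖y - z‖) : LL f C x :=
  Eventually.of_forall fun p => h p.1 p.2

theorem LL.continuousAt {f : X → Y} {C : ℝ} {x : X} (h : LL f C x) : ContinuousAt f x := by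
  have h1 : ∀ᶠ y in 𝓝 x, ‖f y - f x‖ ≤ C * ‖y - x‖ := by
    have h2 : Tendsto (fun y => (y, x)) (𝓝 x) (𝓝 (x, x)) :=
      (continuous_id.prodMk continuous_const).tendsto x
    exact h2.eventually h
  rw [ContinuousAt, tendsto_iff_norm_sub_tendsto_zero]
  refine squeeze_zero' (Eventually.of_forall fun _ => norm_nonneg _) h1 ?_
  have h3 : Tendsto (fun y => ‖y - x‖) (𝓝 x) (𝓝 0) := tendsto_iff_norm_sub_tendsto_zero.1 tendsto_id
  simpa using h3.const_mul C

theorem LL.comp {f : X → Y} {g : Y → Z} {C D : ℝ} {x : X} (hD : 0 ≤ D) (hg : LL g D (f x))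
    (hf : LL f C x) : LL (fun y => g (f y)) (D * C) x := by
  have h1 : Tendsto (fun p : X × X => (f p.1, f p.2)) (𝓝 (x, x)) (𝓝 (f x, f x)) := by
    rw [nhds_prod_eq, nhds_prod_eq]
    exact hf.continuousAt.tendsto.prodMap hf.continuousAt.tendsto
  filter_upwards [hf, h1.eventually hg] with p hp hp2
  calc ‖g (f p.1) - g (f p.2)‖ ≤ D * ‖f p.1 - f p.2‖ := hp2
    _ ≤ D * (C * ‖p.1 - p.2‖) := mul_le_mul_of_nonneg_left hp hD
    _ = D * C * ‖p.1 - p.2‖ := by ring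

theorem LL.exists_ball {f : X → Y} {C : ℝ} {x : X} (h : LL f C x) {U : Set X} (hU : U ∈ 𝓝 x) :
    ∃ r > 0, ball x r ⊆ U ∧ ∀ y ∈ ball x r, ∀ z ∈ ball x r, ‖f y - f z‖ ≤ C * ‖y - z‖ := by
  obtain ⟨r, hr, h1⟩ := Metric.eventually_nhds_iff_ball.1 h
  obtain ⟨s, hs, h2⟩ := Metric.mem_nhds_iff.1 hU
  refine ⟨min r s, lt_min hr hs, (ball_subset_ball (min_le_right _ _)).trans h2, fun y hy z hz => ?_⟩
  refine h1 (y, z) ?_
  rw [mem_ball, Prod.dist_eq]
  exact max_lt ((mem_ball.1 hy).trans_le (min_le_left _ _))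
    ((mem_ball.1 hz).trans_le (min_le_left _ _))

end

end Pool.Agent.K6.H31.WC
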