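import Pool.Agent.K6.H31.WC.Basic

/-!
# The maps of the body

`Fb k = Tb k ∘ Bb k ∘ Ab k`, where `Ab k` scales the points with `|x| ≤ (5/4) 4^{-k}` by `1/4`, `Bb k` scales
the points near `-e₁` by `4^{-k}` and `Tb k` rotates the shell `|x| ≈ 4^{-k}` by the angle `π`.
-/

set_option autoImplicit false

open Set Filter Topology Metric

namespace Pool.Agent.K6.H31.WC

variable {m : ℕ}

/-! ### Ray maps -/

theorem ray_inj {μ : XM m → ℝ} (hpos : ∀ x, 0 < μ x) (hmono : ∀ x, ∀ t : ℝ, 1 ≤ t → μ x ≤ μ (t • x)) :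
    Function.Injective fun x => μ x • x := by
  have key : ∀ x y : XM m, μ x • x = μ y • y → μ y ≤ μ x → x = y := by
    intro x y h hle
    have hy := hpos y
    have h1 : y = (μ x / μ y) • x := by
      rw [div_eq_inv_mul, mul_smul, h, smul_smul, inv_mul_cancel₀ hy.ne', one_smul]
    have ht : 1 ≤ μ x / μ y := (one_le_div hy).2 hle
    have h2 := hmono x _ ht
    rw [← h1] at h2
    have h3 : μ x / μ y = 1 := by
      rw [le_antisymm h2 hle]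
      exact div_self hy.ne'
    rw [h3, one_smul] at h1
    exact h1.symm
  intro x y h
  rcases le_total (μ y) (μ x) with h1 | h1
  · exact key x y h h1
  · exact (key y x h.symm h1).symm

theorem ray_surj {μ : XM m → ℝ} (hpos : ∀ x, 0 < μ x) (hle : ∀ x, μ x ≤ 1)
    (hmono : ∀ x, ∀ t : ℝ, 1 ≤ t → μ x ≤ μ (t • x))
    (hc : ∀ x, ContinuousOn (fun t : ℝ => μ (t • x)) (Ici 1)) :
    Function.Surjective fun x => μ x • x := by
  intro z
  have h0 := hpos z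
  have h1 : (1 : ℝ) ≤ (μ z)⁻¹ := (one_le_inv₀ h0).2 (hle z)
  have hcont : ContinuousOn (fun t : ℝ => t * μ (t • z)) (Icc 1 (μ z)⁻¹) :=
    continuousOn_id.mul ((hc z).mono Icc_subset_Ici_self)
  have h2 := intermediate_value_Icc h1 hcont
  have h3 : (1 : ℝ) ∈ Icc (1 * μ ((1 : ℝ) • z)) ((μ z)⁻¹ * μ ((μ z)⁻¹ • z)) := by
    constructor
    · rw [one_mul, one_smul]
      exact hle z
    · have h4 := hmono z _ h1
      calc (1 : ℝ) = (μ z)⁻¹ * μ z := (inv_mul_cancel₀ h0.ne').symm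
        _ ≤ _ := mul_le_mul_of_nonneg_left h4 (by positivity)
  obtain ⟨t, ht, hte⟩ := h2 h3
  refine ⟨t • z, ?_⟩
  show μ (t • z) • t • z = z
  rw [smul_smul, mul_comm]
  have : t * μ (t • z) = 1 := hte
  rw [this, one_smul]

/-! ### The map `Ab` -/

/-- the radial profile -/
noncomputable def phi (t : ℝ) : ℝ := max (1 / 4) (min 1 (t - 1))

theorem phi_pos (t : ℝ) : 0 < phi t := lt_of_lt_of_le (by norm_num) (le_max_left _ _)

theorem phi_le (t : ℝ) : phi t ≤ 1 := max_le (by norm_num) (min_le_left _ _)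

theorem phi_mono : Monotone phi := fun _ _ h =>
  max_le_max le_rfl (min_le_min le_rfl (by linarith))

theorem phi_small {t : ℝ} (h : t ≤ 5 / 4) : phi t = 1 / 4 := by
  unfold phi
  rw [min_eq_right (by linarith), max_eq_left (by linarith)]

theorem phi_big {t : ℝ} (h : 2 ≤ t) : phi t = 1 := by
  unfold phi
  rw [min_eq_left (by linarith), max_eq_right (by norm_num)]

theorem abs_phi_sub (s t : ℝ) : |phi s - phi t| ≤ |s - t| := by
  have h1 : |phi s - phi t| ≤ |min 1 (s - 1) - min 1 (t - 1)| := by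
    unfold phi
    have := abs_max_sub_max_le_max (1 / 4 : ℝ) (min 1 (s - 1)) (1 / 4) (min 1 (t - 1))
    simpa using this
  have h2 : |min 1 (s - 1) - min 1 (t - 1)| ≤ |s - t| := by
    have := abs_min_sub_min_le_max (1 : ℝ) (s - 1) 1 (t - 1)
    simpa using this
  exact h1.trans h2

theorem phi_continuous : Continuous phi := by
  unfold phi
  fun_prop

/-- the scaling near the origin -/
noncomputable def Ab (k : ℕ) (x : XM m) : XM m := phi (4 ^ k * ‖x‖) • x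

theorem Ab_bij (k : ℕ) : Function.Bijective (Ab (m := m) k) := by
  have hm : ∀ x : XM m, ∀ t : ℝ, 1 ≤ t → phi (4 ^ k * ‖x‖) ≤ phi (4 ^ k * ‖t • x‖) := by
    intro x t ht
    apply phi_mono
    rw [norm_smul, Real.norm_eq_abs, abs_of_nonneg (by linarith)]
    apply mul_le_mul_of_nonneg_left _ (by positivity)
    nlinarith [norm_nonneg x]
  refine ⟨ray_inj (μ := fun x => phi (4 ^ k * ‖x‖)) (fun x => phi_pos _) hm,
    ray_surj (μ := fun x => phi (4 ^ k * ‖x‖)) (fun x => phi_pos _) (fun x => phi_le _) hm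
      fun x => ?_⟩
  have h1 := phi_continuous
  exact (by fun_prop : Continuous fun t : ℝ => phi (4 ^ k * ‖t • x‖)).continuousOn

/-- a symmetric reduction -/
theorem lip_of_le {f : XM m → XM m} {C : ℝ}
    (h : ∀ x y : XM m, ‖y‖ ≤ ‖x‖ → ‖f x - f y‖ ≤ C * ‖x - y‖) (x y : XM m) :
    ‖f x - f y‖ ≤ C * ‖x - y‖ := by
  rcases le_total ‖y‖ ‖x‖ with h1 | h1
  · exact h x y h1
  · rw [norm_sub_rev, norm_sub_rev x y]
    exact h y x h1

theorem Ab_lip (k : ℕ) (x y : XM m) : ‖Ab k x - Ab k y‖ ≤ 3 * ‖x - y‖ := by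
  apply lip_of_le
  intro x y hxy
  unfold Ab
  have h4 : (0 : ℝ) < 4 ^ k := by positivity
  have e : phi (4 ^ k * ‖x‖) • x - phi (4 ^ k * ‖y‖) • y = phi (4 ^ k * ‖x‖) • (x - y) +
      (phi (4 ^ k * ‖x‖) - phi (4 ^ k * ‖y‖)) • y := by
    rw [smul_sub, sub_smul]
    abel
  rw [e]
  refine (norm_add_le _ _).trans ?_
  rw [norm_smul, norm_smul, Real.norm_eq_abs, Real.norm_eq_abs, abs_of_pos (phi_pos _)]
  have h1 : phi (4 ^ k * ‖x‖) * ‖x - y‖ ≤ 1 * ‖x - y‖ :=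
    mul_le_mul_of_nonneg_right (phi_le _) (norm_nonneg _)
  have h2 : |phi (4 ^ k * ‖x‖) - phi (4 ^ k * ‖y‖)| * ‖y‖ ≤ 2 * ‖x - y‖ := by
    rcases le_or_gt 2 (4 ^ k * ‖y‖) with h | h
    · rw [phi_big h, phi_big (h.trans (mul_le_mul_of_nonneg_left hxy h4.le)), sub_self, abs_zero,
        zero_mul]
      positivity
    · have h3 := abs_phi_sub (4 ^ k * ‖x‖) (4 ^ k * ‖y‖)
      rw [← mul_sub, abs_mul, abs_of_pos h4] at h3
      have h5 := abs_norm_sub_norm_le x y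
      calc |phi (4 ^ k * ‖x‖) - phi (4 ^ k * ‖y‖)| * ‖y‖ ≤ 4 ^ k * |‖x‖ - ‖y‖| * ‖y‖ :=
            mul_le_mul_of_nonneg_right h3 (norm_nonneg _)
        _ = |‖x‖ - ‖y‖| * (4 ^ k * ‖y‖) := by ring
        _ ≤ ‖x - y‖ * 2 := mul_le_mul h5 h.le (by positivity) (norm_nonneg _)
        _ = 2 * ‖x - y‖ := by ring
  linarith

/-! ### The map `Bb` -/

/-- the angular cutoff -/
noncomputable def chi (x : XM m) : ℝ := cl (-2 * x.1.re / ‖x‖)

/-- the cutoff -/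
noncomputable def ec (x : XM m) : ℝ := chi x * (1 - cl (8 * ‖x‖ - 9))

/-- the limit map is `x - Ec x` -/
noncomputable def Ec (x : XM m) : XM m := ec x • x

theorem ec_nonneg (x : XM m) : 0 ≤ ec x :=
  mul_nonneg (cl_nonneg _) (by linarith [cl_le_one (8 * ‖x‖ - 9)])

theorem ec_le_one (x : XM m) : ec x ≤ 1 := by
  unfold ec chi
  have h1 := cl_nonneg (-2 * x.1.re / ‖x‖)
  have h2 := cl_le_one (-2 * x.1.re / ‖x‖)
  have h3 := cl_nonneg (8 * ‖x‖ - 9)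
  have h4 := cl_le_one (8 * ‖x‖ - 9)
  nlinarith

theorem ec_big {x : XM m} (h : 5 / 4 ≤ ‖x‖) : ec x = 0 := by
  unfold ec
  rw [cl_of_one_le (by linarith), sub_self, mul_zero]

theorem abs_re_le_norm (x : XM m) : |x.1.re| ≤ ‖x‖ :=
  (Complex.abs_re_le_norm _).trans (norm_fst_le x)

theorem chi_sub {x y : XM m} (hx : x ≠ 0) (hy : y ≠ 0) : |chi x - chi y| * ‖y‖ ≤ 4 * ‖x - y‖ := by
  have hx0 : 0 < ‖x‖ := norm_pos_iff.2 hx
  have hy0 : 0 < ‖y‖ := norm_pos_iff.2 hy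
  have h1 : |chi x - chi y| ≤ |-2 * x.1.re / ‖x‖ - -2 * y.1.re / ‖y‖| := abs_cl_sub _ _
  have h2 : |-2 * x.1.re / ‖x‖ - -2 * y.1.re / ‖y‖| * ‖y‖ =
      2 * |x.1.re * (‖y‖ - ‖x‖) / ‖x‖ + (x.1.re - y.1.re)| := by
    rw [← abs_of_pos hy0, ← abs_mul, abs_of_pos hy0]
    have e : (-2 * x.1.re / ‖x‖ - -2 * y.1.re / ‖y‖) * ‖y‖ =
        -(2 * (x.1.re * (‖y‖ - ‖x‖) / ‖x‖ + (x.1.re - y.1.re))) := by
      field_simp
      ring
    rw [e, abs_neg, abs_mul, abs_of_pos (two_pos : (0 : ℝ) < 2)]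
  have h3 : |x.1.re * (‖y‖ - ‖x‖) / ‖x‖| ≤ ‖x - y‖ := by
    rw [abs_div, abs_mul, abs_of_pos hx0, div_le_iff₀ hx0]
    have h4 := abs_norm_sub_norm_le y x
    rw [norm_sub_rev y x] at h4
    have h5 := abs_re_le_norm x
    calc |x.1.re| * |‖y‖ - ‖x‖| ≤ ‖x‖ * ‖x - y‖ := mul_le_mul h5 h4 (abs_nonneg _) hx0.le
      _ = ‖x - y‖ * ‖x‖ := mul_comm _ _
  have h4 : |x.1.re - y.1.re| ≤ ‖x - y‖ := by
    have := abs_re_le_norm (x - y)
    simpa using this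
  calc |chi x - chi y| * ‖y‖ ≤ |-2 * x.1.re / ‖x‖ - -2 * y.1.re / ‖y‖| * ‖y‖ :=
        mul_le_mul_of_nonneg_right h1 hy0.le
    _ = 2 * |x.1.re * (‖y‖ - ‖x‖) / ‖x‖ + (x.1.re - y.1.re)| := h2
    _ ≤ 2 * (|x.1.re * (‖y‖ - ‖x‖) / ‖x‖| + |x.1.re - y.1.re|) := by
        have := abs_add_le (x.1.re * (‖y‖ - ‖x‖) / ‖x‖) (x.1.re - y.1.re)
        linarith
    _ ≤ 4 * ‖x - y‖ := by linarith

theorem Ec_lip (x y : XM m) : ‖Ec x - Ec y‖ ≤ 15 * ‖x - y‖ := by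
  apply lip_of_le
  intro x y hxy
  by_cases hy : y = 0
  · subst hy
    unfold Ec
    rw [smul_zero, sub_zero, sub_zero, norm_smul, Real.norm_eq_abs, abs_of_nonneg (ec_nonneg _)]
    nlinarith [ec_le_one x, norm_nonneg x]
  have hy0 : 0 < ‖y‖ := norm_pos_iff.2 hy
  have hx : x ≠ 0 := norm_pos_iff.1 (hy0.trans_le hxy)
  unfold Ec
  have e : ec x • x - ec y • y = ec x • (x - y) + (ec x - ec y) • y := by
    rw [smul_sub, sub_smul]
    abel
  rw [e]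
  refine (norm_add_le _ _).trans ?_
  rw [norm_smul, norm_smul, Real.norm_eq_abs, Real.norm_eq_abs, abs_of_nonneg (ec_nonneg _)]
  have h1 : ec x * ‖x - y‖ ≤ 1 * ‖x - y‖ := mul_le_mul_of_nonneg_right (ec_le_one _) (norm_nonneg _)
  have h2 : |ec x - ec y| * ‖y‖ ≤ 14 * ‖x - y‖ := by
    have e2 : ec x - ec y = (chi x - chi y) * (1 - cl (8 * ‖x‖ - 9)) -
        chi y * (cl (8 * ‖x‖ - 9) - cl (8 * ‖y‖ - 9)) := by
      unfold ec
      ring
    have h3 := chi_sub hx hy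
    have hc0 := cl_nonneg (8 * ‖x‖ - 9)
    have hc1 := cl_le_one (8 * ‖x‖ - 9)
    have hd0 : 0 ≤ chi y := cl_nonneg _
    have hd1 : chi y ≤ 1 := cl_le_one _
    have h4 : |(chi x - chi y) * (1 - cl (8 * ‖x‖ - 9))| * ‖y‖ ≤ 4 * ‖x - y‖ := by
      rw [abs_mul, abs_of_nonneg (by linarith : 0 ≤ 1 - cl (8 * ‖x‖ - 9))]
      calc |chi x - chi y| * (1 - cl (8 * ‖x‖ - 9)) * ‖y‖ =
            (|chi x - chi y| * ‖y‖) * (1 - cl (8 * ‖x‖ - 9)) := by ring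
        _ ≤ (|chi x - chi y| * ‖y‖) * 1 := by
            apply mul_le_mul_of_nonneg_left _ (by positivity)
            linarith
        _ ≤ 4 * ‖x - y‖ := by linarith
    have h5 : |chi y * (cl (8 * ‖x‖ - 9) - cl (8 * ‖y‖ - 9))| * ‖y‖ ≤ 10 * ‖x - y‖ := by
      rw [abs_mul, abs_of_nonneg hd0]
      rcases le_or_gt (5 / 4) ‖y‖ with h | h
      · rw [cl_of_one_le (by linarith), cl_of_one_le (by linarith), sub_self, abs_zero, mul_zero,
          zero_mul]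
        positivity
      · have h6 := abs_cl_sub (8 * ‖x‖ - 9) (8 * ‖y‖ - 9)
        have e3 : 8 * ‖x‖ - 9 - (8 * ‖y‖ - 9) = 8 * (‖x‖ - ‖y‖) := by ring
        rw [e3, abs_mul, abs_of_pos (by norm_num : (0 : ℝ) < 8)] at h6
        have h7 := abs_norm_sub_norm_le x y
        calc chi y * |cl (8 * ‖x‖ - 9) - cl (8 * ‖y‖ - 9)| * ‖y‖ ≤ 1 * (8 * ‖x - y‖) * (5 / 4) := by
              apply mul_le_mul _ h.le (norm_nonneg _) (by positivity)
              apply mul_le_mul hd1 _ (abs_nonneg _) zero_le_one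
              linarith
          _ = 10 * ‖x - y‖ := by ring
    rw [e2]
    calc |(chi x - chi y) * (1 - cl (8 * ‖x‖ - 9)) - chi y * (cl (8 * ‖x‖ - 9) - cl (8 * ‖y‖ - 9))| * ‖y‖
        ≤ (|(chi x - chi y) * (1 - cl (8 * ‖x‖ - 9))| +
          |chi y * (cl (8 * ‖x‖ - 9) - cl (8 * ‖y‖ - 9))|) * ‖y‖ :=
          mul_le_mul_of_nonneg_right (abs_sub _ _) hy0.le
      _ ≤ 14 * ‖x - y‖ := by linarith
  linarith

/-- the scaling near `-e₁` -/
noncomputable def Bb (k : ℕ) (x : XM m) : XM m := (1 - (1 - (1 / 4 : ℝ) ^ k) * ec x) • x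

/-- the limit map -/
noncomputable def Binf (x : XM m) : XM m := x - Ec x

theorem Bb_eq (k : ℕ) (x : XM m) : Bb k x = x - (1 - (1 / 4 : ℝ) ^ k) • Ec x := by
  unfold Bb Ec
  rw [sub_smul, one_smul, smul_smul]

theorem qk_bounds (k : ℕ) : 0 < (1 / 4 : ℝ) ^ k ∧ (1 / 4 : ℝ) ^ k ≤ 1 :=
  ⟨by positivity, pow_le_one₀ (by norm_num) (by norm_num)⟩

theorem Bb_lip (k : ℕ) (x y : XM m) : ‖Bb k x - Bb k y‖ ≤ 16 * ‖x - y‖ := by
  rw [Bb_eq, Bb_eq]
  have e : x - (1 - (1 / 4 : ℝ) ^ k) • Ec x - (y - (1 - (1 / 4 : ℝ) ^ k) • Ec y) =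
      (x - y) - (1 - (1 / 4 : ℝ) ^ k) • (Ec x - Ec y) := by
    rw [smul_sub]
    abel
  rw [e]
  refine (norm_sub_le _ _).trans ?_
  obtain ⟨h0, h1⟩ := qk_bounds k
  rw [norm_smul, Real.norm_eq_abs, abs_of_nonneg (by linarith)]
  have h2 := Ec_lip x y
  nlinarith [norm_nonneg (Ec x - Ec y)]

theorem Binf_lip (x y : XM m) : ‖Binf x - Binf y‖ ≤ 16 * ‖x - y‖ := by
  unfold Binf
  have e : x - Ec x - (y - Ec y) = (x - y) - (Ec x - Ec y) := by abel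
  rw [e]
  refine (norm_sub_le _ _).trans ?_
  linarith [Ec_lip x y]

theorem mu_pos (k : ℕ) (x : XM m) : 0 < 1 - (1 - (1 / 4 : ℝ) ^ k) * ec x := by
  obtain ⟨h0, h1⟩ := qk_bounds k
  nlinarith [ec_nonneg x, ec_le_one x]

theorem mu_le (k : ℕ) (x : XM m) : 1 - (1 - (1 / 4 : ℝ) ^ k) * ec x ≤ 1 := by
  obtain ⟨h0, h1⟩ := qk_bounds k
  nlinarith [ec_nonneg x, ec_le_one x]

theorem chi_smul {t : ℝ} (ht : 0 < t) (x : XM m) : chi (t • x) = chi x := by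
  unfold chi
  have e1 : (t • x).1.re = t * x.1.re := by
    show (t • x.1).re = _
    simp
  rw [e1, norm_smul, Real.norm_eq_abs, abs_of_pos ht]
  congr 1
  rw [show -2 * (t * x.1.re) = t * (-2 * x.1.re) by ring, mul_div_mul_left _ _ ht.ne']

theorem Bb_bij (k : ℕ) : Function.Bijective (Bb (m := m) k) := by
  obtain ⟨h0, h1⟩ := qk_bounds k
  have hm : ∀ x : XM m, ∀ t : ℝ, 1 ≤ t →
      1 - (1 - (1 / 4 : ℝ) ^ k) * ec x ≤ 1 - (1 - (1 / 4 : ℝ) ^ k) * ec (t • x) := by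
    intro x t ht
    have h2 : ec (t • x) ≤ ec x := by
      unfold ec
      rw [chi_smul (by linarith), norm_smul, Real.norm_eq_abs, abs_of_nonneg (by linarith)]
      apply mul_le_mul_of_nonneg_left _ (cl_nonneg _)
      have h3 : cl (8 * ‖x‖ - 9) ≤ cl (8 * (t * ‖x‖) - 9) := by
        apply cl_mono
        nlinarith [norm_nonneg x]
      linarith
    nlinarith
  refine ⟨ray_inj (μ := fun x => 1 - (1 - (1 / 4 : ℝ) ^ k) * ec x) (mu_pos k) hm,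
    ray_surj (μ := fun x => 1 - (1 - (1 / 4 : ℝ) ^ k) * ec x) (mu_pos k) (mu_le k) hm fun x => ?_⟩
  have h2 : ContinuousOn (fun t : ℝ => 1 - (1 - (1 / 4 : ℝ) ^ k) *
      (chi x * (1 - cl (8 * ‖t • x‖ - 9)))) (Ici 1) := by
    have := cl_continuous
    exact (by fun_prop : Continuous fun t : ℝ => 1 - (1 - (1 / 4 : ℝ) ^ k) *
      (chi x * (1 - cl (8 * ‖t • x‖ - 9)))).continuousOn
  refine h2.congr fun t ht => ?_
  have ht1 : (1 : ℝ) ≤ t := ht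
  show 1 - (1 - (1 / 4 : ℝ) ^ k) * (chi (t • x) * (1 - cl (8 * ‖t • x‖ - 9))) = _
  rw [chi_smul (by linarith)]

/-! ### The map `Tb` -/

/-- the tent -/
noncomputable def beta (t : ℝ) : ℝ := cl (min (3 * (t - 1 / 2)) (2 * (2 - t)))

theorem beta_big {t : ℝ} (h : 2 ≤ t) : beta t = 0 :=
  cl_of_nonpos ((min_le_right _ _).trans (by linarith))

theorem beta_small {t : ℝ} (h : t ≤ 1 / 2) : beta t = 0 :=
  cl_of_nonpos ((min_le_left _ _).trans (by linarith))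

theorem beta_one {t : ℝ} (h1 : 5 / 6 ≤ t) (h2 : t ≤ 3 / 2) : beta t = 1 :=
  cl_of_one_le (le_min (by linarith) (by linarith))

theorem abs_beta_sub (s t : ℝ) : |beta s - beta t| ≤ 3 * |s - t| := by
  refine (abs_cl_sub _ _).trans ?_
  have h := abs_min_sub_min_le_max (3 * (s - 1 / 2)) (2 * (2 - s)) (3 * (t - 1 / 2)) (2 * (2 - t))
  refine h.trans (max_le ?_ ?_)
  · have e : 3 * (s - 1 / 2) - 3 * (t - 1 / 2) = 3 * (s - t) := by ring
    rw [e, abs_mul, abs_of_pos (by norm_num : (0 : ℝ) < 3)]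
  · have e : 2 * (2 - s) - 2 * (2 - t) = -2 * (s - t) := by ring
    rw [e, abs_mul]
    norm_num
    nlinarith [abs_nonneg (s - t)]

/-- the rotation of the shell -/
noncomputable def Tb (r : ℝ) (k : ℕ) (x : XM m) : XM m :=
  (x.1 * ee (r * beta (4 ^ k * ‖x‖)), x.2)

theorem norm_Tb (r : ℝ) (k : ℕ) (x : XM m) : ‖Tb r k x‖ = ‖x‖ := by
  rw [Prod.norm_def, Prod.norm_def]
  congr 1
  show ‖x.1 * ee _‖ = _
  rw [norm_mul, norm_ee, mul_one]

theorem Tb_Tb (r : ℝ) (k : ℕ) (x : XM m) : Tb (-r) k (Tb r k x) = x := by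
  refine Prod.ext ?_ rfl
  show (x.1 * ee (r * beta (4 ^ k * ‖x‖))) * ee (-r * beta (4 ^ k * ‖Tb r k x‖)) = x.1
  rw [norm_Tb, neg_mul, mul_assoc, ee_mul_neg, mul_one]

theorem Tb_bij (r : ℝ) (k : ℕ) : Function.Bijective (Tb (m := m) r k) :=
  Function.bijective_iff_has_inverse.2 ⟨Tb (-r) k, Tb_Tb r k, fun x => by
    have := Tb_Tb (-r) k x
    rwa [neg_neg] at this⟩

theorem Tb_of_big {r : ℝ} {k : ℕ} {x : XM m} (h : 2 ≤ 4 ^ k * ‖x‖) : Tb r k x = x := by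
  refine Prod.ext ?_ rfl
  show x.1 * ee (r * beta (4 ^ k * ‖x‖)) = x.1
  rw [beta_big h, mul_zero, ee_zero, mul_one]

theorem Tb_of_small {r : ℝ} {k : ℕ} {x : XM m} (h : 4 ^ k * ‖x‖ ≤ 1 / 2) : Tb r k x = x := by
  refine Prod.ext ?_ rfl
  show x.1 * ee (r * beta (4 ^ k * ‖x‖)) = x.1
  rw [beta_small h, mul_zero, ee_zero, mul_one]

theorem Tb_lip (k : ℕ) (x y : XM m) : ‖Tb (1 / 2) k x - Tb (1 / 2) k y‖ ≤ 25 * ‖x - y‖ := by
  apply lip_of_le
  intro x y hxy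
  have h4 : (0 : ℝ) < 4 ^ k := by positivity
  have h1 : ‖x.1 - y.1‖ ≤ ‖x - y‖ := norm_fst_le (x - y)
  have h2 : ‖x.2 - y.2‖ ≤ ‖x - y‖ := norm_snd_le (x - y)
  have h0 : 0 ≤ ‖x - y‖ := norm_nonneg _
  refine max_le ?_ ?_
  · show ‖x.1 * ee (1 / 2 * beta (4 ^ k * ‖x‖)) - y.1 * ee (1 / 2 * beta (4 ^ k * ‖y‖))‖ ≤ _
    have e : x.1 * ee (1 / 2 * beta (4 ^ k * ‖x‖)) - y.1 * ee (1 / 2 * beta (4 ^ k * ‖y‖)) =
        (x.1 - y.1) * ee (1 / 2 * beta (4 ^ k * ‖x‖)) +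
          y.1 * (ee (1 / 2 * beta (4 ^ k * ‖x‖)) - ee (1 / 2 * beta (4 ^ k * ‖y‖))) := by ring
    rw [e]
    refine (norm_add_le _ _).trans ?_
    rw [norm_mul, norm_mul, norm_ee, mul_one]
    have h3 : ‖y.1‖ * ‖ee (1 / 2 * beta (4 ^ k * ‖x‖)) - ee (1 / 2 * beta (4 ^ k * ‖y‖))‖ ≤
        24 * ‖x - y‖ := by
      rcases le_or_gt 2 (4 ^ k * ‖y‖) with h | h
      · rw [beta_big h, beta_big (h.trans (mul_le_mul_of_nonneg_left hxy h4.le)), sub_self,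
          norm_zero, mul_zero]
        positivity
      · have h5 := norm_ee_sub_le (1 / 2 * beta (4 ^ k * ‖x‖)) (1 / 2 * beta (4 ^ k * ‖y‖))
        have h6 := abs_beta_sub (4 ^ k * ‖x‖) (4 ^ k * ‖y‖)
        rw [← mul_sub, abs_mul, abs_of_pos h4] at h6
        rw [← mul_sub, abs_mul, abs_of_pos (by norm_num : (0 : ℝ) < 1 / 2)] at h5
        have h7 := abs_norm_sub_norm_le x y
        have hπ := Real.pi_le_four
        have hπ0 := Real.pi_pos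
        have hy1 : ‖y.1‖ ≤ ‖y‖ := norm_fst_le y
        have h8 : ‖ee (1 / 2 * beta (4 ^ k * ‖x‖)) - ee (1 / 2 * beta (4 ^ k * ‖y‖))‖ ≤
            12 * (4 ^ k * ‖x - y‖) := by
          refine h5.trans ?_
          have h9 : |beta (4 ^ k * ‖x‖) - beta (4 ^ k * ‖y‖)| ≤ 3 * (4 ^ k * ‖x - y‖) :=
            h6.trans (by
              apply mul_le_mul_of_nonneg_left _ (by norm_num)
              exact mul_le_mul_of_nonneg_left h7 h4.le)
          have h10 : 0 ≤ 4 ^ k * ‖x - y‖ := by positivity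
          nlinarith
        calc ‖y.1‖ * ‖ee (1 / 2 * beta (4 ^ k * ‖x‖)) - ee (1 / 2 * beta (4 ^ k * ‖y‖))‖
            ≤ ‖y‖ * (12 * (4 ^ k * ‖x - y‖)) := mul_le_mul hy1 h8 (norm_nonneg _) (norm_nonneg _)
          _ = 12 * ‖x - y‖ * (4 ^ k * ‖y‖) := by ring
          _ ≤ 12 * ‖x - y‖ * 2 := mul_le_mul_of_nonneg_left h.le (by positivity)
          _ = 24 * ‖x - y‖ := by ring
    linarith
  · show ‖x.2 - y.2‖ ≤ _
    linarith

/-! ### The composition -/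

/-- the map of the body -/
noncomputable def Fb (k : ℕ) (x : XM m) : XM m := Tb (1 / 2) k (Bb k (Ab k x))

theorem Fb_bij (k : ℕ) : Function.Bijective (Fb (m := m) k) :=
  (Tb_bij _ k).comp ((Bb_bij k).comp (Ab_bij k))

theorem Fb_lip (k : ℕ) (x y : XM m) : ‖Fb k x - Fb k y‖ ≤ 1200 * ‖x - y‖ := by
  have h1 := Tb_lip k (Bb k (Ab k x)) (Bb k (Ab k y))
  have h2 := Bb_lip k (Ab k x) (Ab k y)
  have h3 := Ab_lip k x y
  unfold Fb
  linarith

theorem Fb_continuous (k : ℕ) : Continuous (Fb (m := m) k) :=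
  continuous_iff_continuousAt.2 fun _ => (LL.of_lip (Fb_lip k)).continuousAt

theorem Ab_of_big {k : ℕ} {x : XM m} (h : 2 ≤ 4 ^ k * ‖x‖) : Ab k x = x := by
  unfold Ab
  rw [phi_big h, one_smul]

theorem Bb_of_big {k : ℕ} {x : XM m} (h : 5 / 4 ≤ ‖x‖) : Bb k x = x := by
  unfold Bb
  rw [ec_big h, mul_zero, sub_zero, one_smul]

theorem Fb_of_big {k : ℕ} {x : XM m} (h : 2 ≤ ‖x‖) : Fb k x = x := by
  have h1 : 2 ≤ 4 ^ k * ‖x‖ := by
    have h4 : (1 : ℝ) ≤ 4 ^ k := one_le_pow₀ (by norm_num)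
    nlinarith
  unfold Fb
  rw [Ab_of_big h1, Bb_of_big (by linarith), Tb_of_big h1]

theorem norm_Fb_le (k : ℕ) (x : XM m) : ‖Fb k x‖ ≤ ‖x‖ := by
  unfold Fb
  rw [norm_Tb]
  unfold Bb
  rw [norm_smul, Real.norm_eq_abs, abs_of_pos (mu_pos _ _)]
  have h1 : ‖Ab k x‖ ≤ ‖x‖ := by
    unfold Ab
    rw [norm_smul, Real.norm_eq_abs, abs_of_pos (phi_pos _)]
    exact mul_le_of_le_one_left (norm_nonneg _) (phi_le _)
  exact (mul_le_of_le_one_left (norm_nonneg _) (mu_le _ _)).trans h1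

theorem Fb_isClosedMap (k : ℕ) : IsClosedMap (Fb (m := m) k) := by
  intro C hC
  have h1 : Fb k '' C = Fb k '' (C ∩ closedBall 0 2) ∪ (C ∩ {x | 2 ≤ ‖x‖}) := by
    ext y
    constructor
    · rintro ⟨x, hx, rfl⟩
      rcases le_total ‖x‖ 2 with h | h
      · exact Or.inl ⟨x, ⟨hx, mem_closedBall_zero_iff.2 h⟩, rfl⟩
      · right
        rw [Fb_of_big h]
        exact ⟨hx, h⟩
    · rintro (⟨x, hx, rfl⟩ | ⟨hy, hy2⟩)
      · exact ⟨x, hx.1, rfl⟩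
      · exact ⟨y, hy, Fb_of_big hy2⟩
  rw [h1]
  apply IsClosed.union
  · exact (((isCompact_closedBall (0 : XM m) 2).inter_left hC).image (Fb_continuous k)).isClosed
  · exact hC.inter (isClosed_le continuous_const continuous_norm)

/-- the map of the body as a homeomorphism -/
noncomputable def FbH (k : ℕ) : XM m ≃ₜ XM m :=
  (Equiv.ofBijective (Fb k) (Fb_bij k)).toHomeomorphOfContinuousClosed (Fb_continuous k)
    (Fb_isClosedMap k)

theorem FbH_apply (k : ℕ) (x : XM m) : FbH k x = Fb k x := rfl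

/-! ### Signs of the height -/

theorem Fb_height (k : ℕ) (x : XM m) : ∃ c : ℝ, 0 < c ∧ (Fb k x).2.1 = c * x.2.1 := by
  refine ⟨(1 - (1 - (1 / 4 : ℝ) ^ k) * ec (Ab k x)) * phi (4 ^ k * ‖x‖),
    mul_pos (mu_pos _ _) (phi_pos _), ?_⟩
  show ((1 - (1 - (1 / 4 : ℝ) ^ k) * ec (Ab k x)) • (phi (4 ^ k * ‖x‖) • x)).2.1 = _
  rw [smul_smul]
  rfl

/-! ### Convergence -/

theorem Ab_sub (k : ℕ) (x : XM m) : ‖Ab k x - x‖ ≤ 2 * (1 / 4 : ℝ) ^ k := by
  obtain ⟨h0, h1⟩ := qk_bounds k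
  have h4 : (0 : ℝ) < 4 ^ k := by positivity
  rcases le_or_gt 2 (4 ^ k * ‖x‖) with h | h
  · rw [Ab_of_big h, sub_self, norm_zero]
    positivity
  · have e : Ab k x - x = -((1 - phi (4 ^ k * ‖x‖)) • x) := by
      unfold Ab
      rw [sub_smul, one_smul]
      abel
    rw [e, norm_neg, norm_smul, Real.norm_eq_abs,
      abs_of_nonneg (by linarith [phi_le (4 ^ k * ‖x‖)])]
    have h5 : ‖x‖ ≤ 2 * (1 / 4 : ℝ) ^ k := by
      rw [one_div, inv_pow, ← div_eq_mul_inv, le_div_iff₀ h4, mul_comm]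
      exact h.le
    have h6 : 1 - phi (4 ^ k * ‖x‖) ≤ 1 := by linarith [phi_pos (4 ^ k * ‖x‖)]
    exact (mul_le_of_le_one_left (norm_nonneg _) h6).trans h5

theorem Tb_sub (k : ℕ) (x : XM m) : ‖Tb (1 / 2) k x - x‖ ≤ 4 * (1 / 4 : ℝ) ^ k := by
  obtain ⟨h0, h1⟩ := qk_bounds k
  have h4 : (0 : ℝ) < 4 ^ k := by positivity
  rcases le_or_gt 2 (4 ^ k * ‖x‖) with h | h
  · rw [Tb_of_big h, sub_self, norm_zero]
    positivity
  · have h5 : ‖x‖ ≤ 2 * (1 / 4 : ℝ) ^ k := by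
      rw [one_div, inv_pow, ← div_eq_mul_inv, le_div_iff₀ h4, mul_comm]
      exact h.le
    refine (norm_sub_le _ _).trans ?_
    rw [norm_Tb]
    linarith

theorem Fb_sub (k : ℕ) (x : XM m) : ‖Fb k x - Binf x‖ ≤ (36 + ‖x‖) * (1 / 4 : ℝ) ^ k := by
  obtain ⟨h0, h1⟩ := qk_bounds k
  have e : Fb k x - Binf x = (Tb (1 / 2) k (Bb k (Ab k x)) - Bb k (Ab k x)) +
      (Bb k (Ab k x) - Bb k x) + (Bb k x - Binf x) := by
    unfold Fb
    abel
  rw [e]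
  refine (norm_add₃_le).trans ?_
  have h2 := Tb_sub k (Bb k (Ab k x))
  have h3 := Bb_lip k (Ab k x) x
  have h4 := Ab_sub k x
  have h5 : ‖Bb k x - Binf x‖ ≤ ‖x‖ * (1 / 4 : ℝ) ^ k := by
    have e2 : Bb k x - Binf x = (1 / 4 : ℝ) ^ k • Ec x := by
      rw [Bb_eq]
      unfold Binf
      rw [sub_smul, one_smul]
      abel
    rw [e2, norm_smul, Real.norm_eq_abs, abs_of_pos h0, mul_comm]
    apply mul_le_mul_of_nonneg_right _ h0.le
    unfold Ec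
    rw [norm_smul, Real.norm_eq_abs, abs_of_nonneg (ec_nonneg _)]
    exact mul_le_of_le_one_left (norm_nonneg _) (ec_le_one _)
  linarith

theorem Fb_tendsto (x : XM m) : Tendsto (fun k => Fb k x) atTop (𝓝 (Binf x)) := by
  rw [tendsto_iff_norm_sub_tendsto_zero]
  refine squeeze_zero (fun _ => norm_nonneg _) (fun k => Fb_sub k x) ?_
  have := (tendsto_pow_atTop_nhds_zero_of_lt_one (by norm_num : (0 : ℝ) ≤ 1 / 4)
    (by norm_num)).const_mul (36 + ‖x‖)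
  simpa using this

end Pool.Agent.K6.H31.WC
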