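import Pool.Agent.K6.H31.WC.Short
import Pool.Agent.K6.H31.WS.Space

/-!
# Coordinates, the circles through the room `0`
-/

set_option autoImplicit false

open Set Filter Topology MeasureTheory Metric
open scoped ContDiff ENNReal NNReal

namespace Pool.Agent.K6.H31.WC

open Pool.Agent.K6.H31.WS

variable {m : ℕ}

/-- exchange of the imaginary part of the first and of the second coordinate -/
noncomputable def swapLin (m : ℕ) : XM m ≃ₗ[ℝ] XM m where
  toFun x := (⟨x.1.re, x.2.1⟩, x.1.im, x.2.2)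
  invFun x := (⟨x.1.re, x.2.1⟩, x.1.im, x.2.2)
  map_add' x y := by
    refine Prod.ext (Complex.ext rfl rfl) (Prod.ext rfl rfl)
  map_smul' c x := by
    refine Prod.ext (Complex.ext ?_ ?_) (Prod.ext ?_ rfl)
    · simp
    · simp
    · simp
  left_inv x := by
    refine Prod.ext (Complex.ext rfl rfl) (Prod.ext rfl rfl)
  right_inv x := by
    refine Prod.ext (Complex.ext rfl rfl) (Prod.ext rfl rfl)

/-- coordinates -/
noncomputable def io (m : ℕ) : EE m ≃L[ℝ] XM m :=
  (iota m).trans (swapLin m).toContinuousLinearEquiv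

theorem io_apply (x : EE m) : io m x = (⟨(iota m x).1.re, (iota m x).2.1⟩, (iota m x).1.im,
    (iota m x).2.2) := rfl

/-- the centre of the circles -/
noncomputable def c0 (m : ℕ) : EE m := (iota m).symm (⟨-(31 / 32), -(1 / 64)⟩, 0, 0)

/-- the rotation about the centre -/
noncomputable def circ (m : ℕ) (θ : ℝ) (x : EE m) : EE m := c0 m + rot m θ (x - c0 m)

theorem circ_sub (θ : ℝ) (x : EE m) : circ m θ x - c0 m = rot m θ (x - c0 m) := by
  unfold circ
  abel

theorem circ_circ (θ θ' : ℝ) (x : EE m) : circ m θ (circ m θ' x) = circ m (θ + θ') x := by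
  conv_lhs => rw [circ, circ_sub, rot_rot]
  rfl

theorem circ_zero (x : EE m) : circ m 0 x = x := by
  unfold circ
  rw [rot_zero]
  abel

theorem circ_two_pi (θ : ℝ) (x : EE m) : circ m (θ + 2 * Real.pi) x = circ m θ x := by
  unfold circ
  rw [rot_two_pi]

theorem circ_continuous : Continuous fun p : ℝ × EE m => circ m p.1 p.2 := by
  unfold circ
  exact continuous_const.add (rot_continuous.comp
    (continuous_fst.prodMk (continuous_snd.sub continuous_const)))

theorem circ_measurePreserving (θ : ℝ) :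
    MeasurePreserving (circ m θ) (volume : Measure (EE m)) volume := by
  have h1 : MeasurePreserving (fun x : EE m => x - c0 m) volume volume :=
    measurePreserving_sub_right volume (c0 m)
  have h2 : MeasurePreserving (fun x : EE m => c0 m + x) volume volume :=
    measurePreserving_add_left volume (c0 m)
  exact h2.comp ((rot_measurePreserving θ).comp h1)

/-- the derivative in the angle -/
noncomputable def circ' (m : ℕ) (θ : ℝ) (x : EE m) : EE m := rot' m θ (x - c0 m)

theorem hasDerivAt_circ (θ : ℝ) (x : EE m) :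
    HasDerivAt (fun θ => circ m θ x) (circ' m θ x) θ :=
  (hasDerivAt_rot θ (x - c0 m)).const_add _

theorem norm_circ' (θ : ℝ) (x : EE m) : ‖circ' m θ x‖ ≤ ‖x - c0 m‖ := norm_rot' θ _

theorem circ'_continuous : Continuous fun p : ℝ × EE m => circ' m p.1 p.2 := by
  unfold circ'
  exact rot'_continuous.comp (continuous_fst.prodMk (continuous_snd.sub continuous_const))

/-- the position relative to the centre -/
noncomputable def Pc (x : EE m) : ℂ := (iota m (x - c0 m)).1

theorem Pc_circ (θ : ℝ) (x : EE m) : Pc (circ m θ x) = Complex.exp (θ * Complex.I) * Pc x := by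
  unfold Pc
  rw [circ_sub, iota_rot]

theorem iota_c0 : iota m (c0 m) = (⟨-(31 / 32), -(1 / 64)⟩, 0, 0) := by
  unfold c0
  rw [ContinuousLinearEquiv.apply_symm_apply]

theorem io_eq (x : EE m) : io m x = (⟨-(31 / 32) + (Pc x).re, (iota m (x - c0 m)).2.1⟩,
    -(1 / 64) + (Pc x).im, (iota m (x - c0 m)).2.2) := by
  have h1 : iota m x = (⟨-(31 / 32), -(1 / 64)⟩, 0, 0) + iota m (x - c0 m) := by
    rw [← iota_c0, ← map_add, add_sub_cancel]
  rw [io_apply, h1]
  unfold Pc
  refine Prod.ext (Complex.ext rfl ?_) (Prod.ext rfl ?_)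
  · show 0 + (iota m (x - c0 m)).2.1 = (iota m (x - c0 m)).2.1
    rw [zero_add]
  · show 0 + (iota m (x - c0 m)).2.2 = (iota m (x - c0 m)).2.2
    rw [zero_add]

/-- a compact set of circles -/
def K0 (m : ℕ) : Set (EE m) := {x | 5 / 256 ≤ ‖Pc x‖ ∧ ‖Pc x‖ ≤ 7 / 256 ∧
  |(iota m (x - c0 m)).2.1| ≤ 1 / 256 ∧ ‖(iota m (x - c0 m)).2.2‖ ≤ 1 / 256}

theorem circ_mem_K0 {x : EE m} (θ : ℝ) (hx : x ∈ K0 m) : circ m θ x ∈ K0 m := by
  obtain ⟨h1, h2, h3, h4⟩ := hx
  have e : ‖Pc (circ m θ x)‖ = ‖Pc x‖ := by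
    rw [Pc_circ, norm_mul, Complex.norm_exp_ofReal_mul_I, one_mul]
  have e2 : (iota m (circ m θ x - c0 m)).2 = (iota m (x - c0 m)).2 := by
    rw [circ_sub, iota_rot]
  refine ⟨by rw [e]; exact h1, by rw [e]; exact h2, ?_, ?_⟩
  · rw [e2]; exact h3
  · rw [e2]; exact h4

theorem circ_preimage_K0 (θ : ℝ) : circ m θ ⁻¹' K0 m = K0 m := by
  ext x
  constructor
  · intro hx
    have h1 := circ_mem_K0 (-θ) hx
    rwa [circ_circ, neg_add_cancel, circ_zero] at h1
  · exact fun hx => circ_mem_K0 θ hx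

theorem K0_compact (m : ℕ) : IsCompact (K0 m) := by
  have h1 : IsCompact {p : XM m | 5 / 256 ≤ ‖p.1‖ ∧ ‖p.1‖ ≤ 7 / 256 ∧ |p.2.1| ≤ 1 / 256 ∧
      ‖p.2.2‖ ≤ 1 / 256} := by
    have hc1 : IsClosed {p : XM m | 5 / 256 ≤ ‖p.1‖} := isClosed_le continuous_const (by fun_prop)
    have hc2 : IsClosed {p : XM m | ‖p.1‖ ≤ 7 / 256} := isClosed_le (by fun_prop) continuous_const
    have hc3 : IsClosed {p : XM m | |p.2.1| ≤ 1 / 256} := isClosed_le (by fun_prop) continuous_const
    have hc4 : IsClosed {p : XM m | ‖p.2.2‖ ≤ 1 / 256} := isClosed_le (by fun_prop) continuous_const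
    have hc : IsClosed {p : XM m | 5 / 256 ≤ ‖p.1‖ ∧ ‖p.1‖ ≤ 7 / 256 ∧ |p.2.1| ≤ 1 / 256 ∧
        ‖p.2.2‖ ≤ 1 / 256} := hc1.inter (hc2.inter (hc3.inter hc4))
    refine (isCompact_closedBall (0 : XM m) 1).of_isClosed_subset hc ?_
    rintro p ⟨-, h2, h3, h4⟩
    rw [mem_closedBall_zero_iff, Prod.norm_def, Prod.norm_def, Real.norm_eq_abs]
    exact max_le (by linarith) (max_le (by linarith) (by linarith))
  have h2 : K0 m = (fun x : EE m => iota m (x - c0 m)) ⁻¹' {p : XM m | 5 / 256 ≤ ‖p.1‖ ∧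
      ‖p.1‖ ≤ 7 / 256 ∧ |p.2.1| ≤ 1 / 256 ∧ ‖p.2.2‖ ≤ 1 / 256} := rfl
  have e : (fun x : EE m => iota m (x - c0 m)) =
      ((Homeomorph.subRight (c0 m)).trans (iota m).toHomeomorph) := rfl
  rw [h2, e]
  exact (((Homeomorph.subRight (c0 m)).trans (iota m).toHomeomorph).isCompact_preimage).2 h1

theorem K0_volume_pos (m : ℕ) : 0 < volume (K0 m) := by
  set U : Set (EE m) := {x | 5 / 256 < ‖Pc x‖ ∧ ‖Pc x‖ < 7 / 256 ∧
    |(iota m (x - c0 m)).2.1| < 1 / 256 ∧ ‖(iota m (x - c0 m)).2.2‖ < 1 / 256} with hU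
  have hc : Continuous fun x : EE m => iota m (x - c0 m) :=
    (iota m).continuous.comp (continuous_id.sub continuous_const)
  have hUo : IsOpen U := by
    unfold Pc at hU
    exact (isOpen_lt continuous_const (continuous_fst.comp hc).norm).inter
      ((isOpen_lt (continuous_fst.comp hc).norm continuous_const).inter
        ((isOpen_lt (continuous_fst.comp (continuous_snd.comp hc)).abs continuous_const).inter
          (isOpen_lt (continuous_snd.comp (continuous_snd.comp hc)).norm continuous_const)))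
  have hne : U.Nonempty := by
    refine ⟨c0 m + (iota m).symm (((6 / 256 : ℝ) : ℂ), 0, 0), ?_⟩
    have e : iota m (c0 m + (iota m).symm (((6 / 256 : ℝ) : ℂ), 0, 0) - c0 m) =
        (((6 / 256 : ℝ) : ℂ), 0, 0) := by
      rw [add_sub_cancel_left, ContinuousLinearEquiv.apply_symm_apply]
    refine ⟨?_, ?_, ?_, ?_⟩
    · unfold Pc
      rw [e]
      simp only [Complex.norm_real, Real.norm_eq_abs]
      rw [abs_of_pos (by norm_num)]
      norm_num
    · unfold Pc
      rw [e]
      simp only [Complex.norm_real, Real.norm_eq_abs]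
      rw [abs_of_pos (by norm_num)]
      norm_num
    · rw [e]
      norm_num
    · rw [e]
      norm_num
  refine (hUo.measure_pos volume hne).trans_le (measure_mono ?_)
  rintro x ⟨h1, h2, h3, h4⟩
  exact ⟨h1.le, h2.le, h3.le, h4.le⟩

/-! ### The block coordinates -/

theorem SI_zero_io (x : EE m) : SI 0 (io m x) = (⟨-1 - 32 * (Pc x).re, -(32 * (iota m (x - c0 m)).2.1)⟩,
    -(1 / 2) + 32 * (Pc x).im, (32 : ℝ) • (iota m (x - c0 m)).2.2) := by
  rw [io_eq]
  unfold SI fl e1
  rw [if_pos rfl, pow_zero, one_smul]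
  refine Prod.ext (Complex.ext ?_ ?_) (Prod.ext ?_ ?_)
  · show ((32 : ℝ) • (-(⟨-(31 / 32) + (Pc x).re, (iota m (x - c0 m)).2.1⟩ : ℂ) - 1)).re = _
    rw [Complex.smul_re, Complex.sub_re, Complex.neg_re, Complex.one_re, smul_eq_mul]
    ring
  · show ((32 : ℝ) • (-(⟨-(31 / 32) + (Pc x).re, (iota m (x - c0 m)).2.1⟩ : ℂ) - 1)).im = _
    rw [Complex.smul_im, Complex.sub_im, Complex.neg_im, Complex.one_im, smul_eq_mul]
    ring
  · show (32 : ℝ) * (-(1 / 64) + (Pc x).im - 0) = _
    ring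
  · show (32 : ℝ) • ((iota m (x - c0 m)).2.2 - 0) = _
    rw [sub_zero]

theorem K0_room {x : EE m} (hx : x ∈ K0 m) : SI 0 (io m x) ∈ RD 0 := by
  obtain ⟨h1, h2, h3, h4⟩ := hx
  rw [SI_zero_io]
  set P := Pc x with hP
  set t := (iota m (x - c0 m)).2.1 with ht
  have hre := abs_le.1 (Complex.abs_re_le_norm P)
  have him := abs_le.1 (Complex.abs_im_le_norm P)
  have ht' := abs_le.1 h3
  have hw : ‖(⟨-1 - 32 * P.re, -(32 * t)⟩ : ℂ)‖ ^ 2 = (1 + 32 * P.re) ^ 2 + (32 * t) ^ 2 := by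
    rw [Complex.sq_norm, Complex.normSq_apply]
    ring
  have hnP : ‖P‖ ^ 2 = P.re ^ 2 + P.im ^ 2 := by
    rw [Complex.sq_norm, Complex.normSq_apply]
    ring
  refine ⟨?_, ?_⟩
  · rw [norm_lt_two]
    refine ⟨?_, ?_, ?_⟩
    · have h5 : ‖(⟨-1 - 32 * P.re, -(32 * t)⟩ : ℂ)‖ ^ 2 < 2 ^ 2 := by
        rw [hw]
        nlinarith [hre.1, hre.2, ht'.1, ht'.2]
      exact lt_of_pow_lt_pow_left₀ 2 (by norm_num) h5
    · show |-(1 / 2) + 32 * P.im| < 2
      rw [abs_lt]
      constructor <;> linarith [him.1, him.2]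
    · show ‖(32 : ℝ) • (iota m (x - c0 m)).2.2‖ < 2
      rw [norm_smul, Real.norm_eq_abs, abs_of_pos (by norm_num)]
      linarith
  · rintro ⟨h5, h6, h7, h8⟩
    simp only at h5 h6 h7 h8
    rcases h8 with h8 | h8
    · rw [h8] at hw
      have h9 : (32 * P.im) ^ 2 ≤ 1 / 4 := by nlinarith
      have h10 : (5 / 8 : ℝ) ^ 2 ≤ (32 * P.re) ^ 2 + (32 * P.im) ^ 2 := by
        nlinarith [norm_nonneg P]
      have h11 : 9 / 64 ≤ (32 * P.re) ^ 2 := by linarith
      have h12 : (32 * t) ^ 2 ≤ 1 / 64 := by nlinarith [ht'.1, ht'.2]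
      have h13 : (32 * P.re) ^ 2 + 2 * (32 * P.re) + (32 * t) ^ 2 = 0 := by linarith
      rcases le_total 0 P.re with h14 | h14
      · nlinarith [sq_nonneg (32 * t)]
      · have h15 : 32 * P.re ≤ -(3 / 8) := by
          by_contra h16
          push Not at h16
          nlinarith
        have h16 : -(7 / 8) ≤ 32 * P.re := by linarith [hre.1]
        nlinarith
    · apply h8
      show -((⟨-1 - 32 * P.re, -(32 * t)⟩ : ℂ) * ee (-(((0 : ℕ) : ℝ) * cl _))) ∈ Complex.slitPlane
      rw [Nat.cast_zero, zero_mul, neg_zero, ee_zero, mul_one]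
      left
      rw [Complex.neg_re]
      show 0 < -(-1 - 32 * P.re)
      linarith [hre.1]

/-- the neighbourhood of `-e₁` in which the limit map vanishes -/
def Zn : Set (XM m) := {x | x.1.re < -(‖x‖ / 2) ∧ ‖x‖ < 9 / 8}

theorem Zn_open : IsOpen (Zn : Set (XM m)) :=
  (isOpen_lt (Complex.continuous_re.comp continuous_fst)
    (continuous_norm.div_const 2).neg).inter (isOpen_lt continuous_norm continuous_const)

theorem Binf_Zn {x : XM m} (h : x ∈ Zn) : Binf x = 0 := by
  obtain ⟨h1, h2⟩ := h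
  have h0 : 0 < ‖x‖ := by
    rw [norm_pos_iff]
    rintro rfl
    simp at h1
  unfold Binf Ec ec chi
  rw [cl_of_one_le, cl_of_nonpos (by linarith)]
  · norm_num
  · rw [one_le_div h0]
    linarith

theorem K0_Zn {x : EE m} (hx : x ∈ K0 m) : io m x ∈ Zn := by
  obtain ⟨h1, h2, h3, h4⟩ := hx
  rw [io_eq]
  set P := Pc x with hP
  set t := (iota m (x - c0 m)).2.1 with ht
  have hre := abs_le.1 (Complex.abs_re_le_norm P)
  have him := abs_le.1 (Complex.abs_im_le_norm P)
  have ht' := abs_le.1 h3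
  have hn : ‖((⟨-(31 / 32) + P.re, t⟩, -(1 / 64) + P.im, (iota m (x - c0 m)).2.2) : XM m)‖ ≤ 1 := by
    rw [Prod.norm_def, Prod.norm_def]
    refine max_le ?_ (max_le ?_ ?_)
    · refine (Complex.norm_le_abs_re_add_abs_im _).trans ?_
      show |-(31 / 32) + P.re| + |t| ≤ 1
      have : |-(31 / 32) + P.re| ≤ 255 / 256 := by
        rw [abs_le]
        constructor <;> linarith [hre.1, hre.2]
      linarith
    · show |-(1 / 64) + P.im| ≤ 1
      rw [abs_le]
      constructor <;> linarith [him.1, him.2]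
    · show ‖(iota m (x - c0 m)).2.2‖ ≤ 1
      linarith
  refine ⟨?_, by linarith⟩
  show -(31 / 32) + P.re < _
  linarith [hre.2]

/-! ### The function `ζ` -/

/-- the function which winds around the pillar of the room `0` -/
noncomputable def zt (x : XM m) : ℂ :=
  ((‖(SI 0 x).1‖ - 1 : ℝ) : ℂ) + (((SI 0 x).2.1 + 1 / 2 : ℝ) : ℂ) * Complex.I

theorem zt_continuous : Continuous (zt (m := m)) := by
  unfold zt
  have h := SI_continuous (m := m) 0
  fun_prop

theorem zt_ne_zero {x : XM m} (hx : x ∈ O1) : zt x ≠ 0 := by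
  intro h
  have h1 : ‖(SI 0 x).1‖ = 1 := by
    have := congrArg Complex.re h
    unfold zt at this
    simp at this
    linarith
  have h2 : (SI 0 x).2.1 = -(1 / 2) := by
    have := congrArg Complex.im h
    unfold zt at this
    simp at this
    linarith
  rcases hx with hx | ⟨j, -, hx⟩
  · have := (SI_pos_iff 0 x).2 hx.2
    linarith
  · by_cases hj : j = 0
    · subst hj
      apply hx.2
      exact ⟨by linarith, by linarith, h1.ge, Or.inl h1⟩
    · have h3 : 0 < x.1.re := by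
        have := SS_re_pos hj hx.1
        rwa [SS_SI] at this
      have h4 : (SI 0 x).1.re = -(32 * (x.1.re + 1)) := by
        unfold SI fl e1
        rw [if_pos rfl, pow_zero, one_smul]
        show ((32 : ℝ) • (-x.1 - 1)).re = _
        rw [Complex.smul_re, Complex.sub_re, Complex.neg_re, Complex.one_re, smul_eq_mul]
        ring
      have h5 := (abs_le.1 (Complex.abs_re_le_norm (SI 0 x).1)).1
      rw [h1, h4] at h5
      linarith

theorem zt_near {x : EE m} (hx : x ∈ K0 m) : ‖zt (io m x) - 32 * Pc x‖ ≤ 1 / 8 := by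
  obtain ⟨h1, h2, h3, h4⟩ := hx
  unfold zt
  rw [SI_zero_io]
  set P := Pc x with hP
  set t := (iota m (x - c0 m)).2.1 with ht
  have hre := abs_le.1 (Complex.abs_re_le_norm P)
  simp only
  have e : ((‖(⟨-1 - 32 * P.re, -(32 * t)⟩ : ℂ)‖ - 1 : ℝ) : ℂ) +
      ((-(1 / 2) + 32 * P.im + 1 / 2 : ℝ) : ℂ) * Complex.I - 32 * P =
      ((‖(⟨-1 - 32 * P.re, -(32 * t)⟩ : ℂ)‖ - (1 + 32 * P.re) : ℝ) : ℂ) := by
    apply Complex.ext
    · simp
      ring
    · simp
  rw [e, Complex.norm_real, Real.norm_eq_abs, abs_le]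
  have h6 := Complex.norm_le_abs_re_add_abs_im (⟨-1 - 32 * P.re, -(32 * t)⟩ : ℂ)
  have h7 := Complex.abs_re_le_norm (⟨-1 - 32 * P.re, -(32 * t)⟩ : ℂ)
  simp only at h6 h7
  have h8 : |-1 - 32 * P.re| = 1 + 32 * P.re := by
    rw [show -1 - 32 * P.re = -(1 + 32 * P.re) by ring, abs_neg]
    exact abs_of_nonneg (by linarith [hre.1])
  have h9 : |-(32 * t)| ≤ 1 / 8 := by
    rw [abs_neg, abs_mul, abs_of_pos (by norm_num : (0 : ℝ) < 32)]
    linarith
  rw [h8] at h6 h7
  constructor <;> linarith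

end Pool.Agent.K6.H31.WC
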