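import Pool.Agent.K6.H31.WC.Basic

/-!
# Rooms with a wound corridor

`b = (w, h, y)`. The room `RD N` is the ball of radius `2` without the walls: the pillar `|w| = 1`,
`-1 ≤ h ≤ 0`, and the helicoid `w = |w| e ^ (2 π i N z)`, `|w| ≥ 1`, `z = -h ∈ [0, 1]`.
-/

set_option autoImplicit false

open Set Filter Topology Metric

namespace Pool.Agent.K6.H31.WC

variable {m : ℕ}

/-- the position relative to the helicoid -/
noncomputable def qq (N : ℕ) (b : XM m) : ℂ := -(b.1 * ee (-(N * cl (-b.2.1))))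

/-- the position in the cross-section, in `(0, 1]` -/
noncomputable def sg (N : ℕ) (b : XM m) : ℝ := 1 / 2 + Complex.arg (qq N b) / (2 * Real.pi)

/-- the total angle -/
noncomputable def ta (N : ℕ) (b : XM m) : ℝ := N * cl (-b.2.1) + sg N b

theorem qq_continuous (N : ℕ) : Continuous (qq (m := m) N) := by
  unfold qq
  have h1 := cl_continuous
  have h2 := ee_continuous
  fun_prop

theorem norm_qq (N : ℕ) (b : XM m) : ‖qq N b‖ = ‖b.1‖ := by
  unfold qq
  rw [norm_neg, norm_mul, norm_ee, mul_one]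

theorem sg_pos (N : ℕ) (b : XM m) : 0 < sg N b := by
  unfold sg
  have h1 := Complex.neg_pi_lt_arg (qq N b)
  have h2 : -(1 / 2) < Complex.arg (qq N b) / (2 * Real.pi) := by
    rw [lt_div_iff₀ (by positivity)]
    linarith
  linarith

theorem sg_le_one (N : ℕ) (b : XM m) : sg N b ≤ 1 := by
  unfold sg
  have h1 := Complex.arg_le_pi (qq N b)
  have h2 : Complex.arg (qq N b) / (2 * Real.pi) ≤ 1 / 2 := by
    rw [div_le_iff₀ (by positivity)]
    linarith
  linarith

theorem ee_half : ee (1 / 2) = -1 := by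
  unfold ee
  have : ((2 * Real.pi * (1 / 2) : ℝ) : ℂ) * Complex.I = Real.pi * Complex.I := by
    push_cast
    ring
  rw [this, Complex.exp_pi_mul_I]

theorem ee_arg (z : ℂ) : (‖z‖ : ℂ) * ee (Complex.arg z / (2 * Real.pi)) = z := by
  unfold ee
  have : ((2 * Real.pi * (Complex.arg z / (2 * Real.pi)) : ℝ) : ℂ) = Complex.arg z := by
    have h : 2 * Real.pi * (Complex.arg z / (2 * Real.pi)) = Complex.arg z := by
      field_simp
    rw [h]
  rw [this, Complex.norm_mul_exp_arg_mul_I]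

theorem ee_sg (N : ℕ) (b : XM m) : (‖b.1‖ : ℂ) * ee (sg N b) = -qq N b := by
  unfold sg
  rw [ee_add, ee_half]
  have h := ee_arg (qq N b)
  rw [norm_qq] at h
  linear_combination -h

theorem ee_ta (N : ℕ) (b : XM m) : (‖b.1‖ : ℂ) * ee (ta N b) = b.1 := by
  unfold ta
  rw [ee_add]
  have h := ee_sg N b
  have h2 := ee_mul_neg (N * cl (-b.2.1))
  unfold qq at h
  linear_combination ee (N * cl (-b.2.1)) * h + b.1 * h2

theorem sg_continuousAt {N : ℕ} {b : XM m} (h : qq N b ∈ Complex.slitPlane) :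
    ContinuousAt (sg N) b := by
  unfold sg
  have h1 : ContinuousAt (fun b : XM m => Complex.arg (qq N b)) b :=
    (Complex.continuousAt_arg h).comp (f := qq N) (qq_continuous N).continuousAt
  exact continuousAt_const.add (h1.div_const _)

theorem ta_continuousAt {N : ℕ} {b : XM m} (h : qq N b ∈ Complex.slitPlane) :
    ContinuousAt (ta N) b := by
  unfold ta
  have h1 : Continuous fun b : XM m => N * cl (-b.2.1) :=
    continuous_const.mul (cl_continuous.comp (by fun_prop))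
  exact h1.continuousAt.add (sg_continuousAt h)

/-- the total angle is locally a Lipschitz function of `w` -/
theorem ta_LL {N : ℕ} {b : XM m} (hw : 1 < ‖b.1‖) (h : qq N b ∈ Complex.slitPlane) :
    ∀ᶠ p : XM m × XM m in 𝓝 (b, b), |ta N p.1 - ta N p.2| ≤ 1 / 2 * ‖p.1.1 - p.2.1‖ := by
  have h1 : Tendsto (fun p : XM m × XM m => ta N p.1 - ta N p.2) (𝓝 (b, b))
      (𝓝 (ta N b - ta N b)) := by
    have h2 := (ta_continuousAt h).tendsto
    rw [nhds_prod_eq]
    exact (h2.comp tendsto_fst).sub (h2.comp tendsto_snd)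
  rw [sub_self] at h1
  have h3 : ∀ᶠ p : XM m × XM m in 𝓝 (b, b), |ta N p.1 - ta N p.2| < 1 / 2 := by
    have h4 := h1.abs
    rw [abs_zero] at h4
    exact h4.eventually (gt_mem_nhds (by norm_num))
  have h5 : ∀ᶠ y : XM m in 𝓝 b, 1 < ‖y.1‖ :=
    (continuous_fst.norm).continuousAt.eventually (lt_mem_nhds hw)
  filter_upwards [h3, ev_both h5] with p hp hp2
  obtain ⟨hx, hy⟩ := hp2
  set x := p.1
  set y := p.2
  have h6 := le_norm_ee_sub hp.le
  have h7 : ‖ee (ta N x) - ee (ta N y)‖ ≤ 2 * ‖x.1 - y.1‖ := by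
    have hx0 : (0 : ℝ) < ‖x.1‖ := by linarith
    have h8 : (‖x.1‖ : ℂ) * (ee (ta N x) - ee (ta N y)) = (x.1 - y.1) +
        ((‖y.1‖ - ‖x.1‖ : ℝ) : ℂ) * ee (ta N y) := by
      have e1 := ee_ta N x
      have e2 := ee_ta N y
      push_cast
      linear_combination e1 - e2
    have h9 : ‖x.1‖ * ‖ee (ta N x) - ee (ta N y)‖ ≤ 2 * ‖x.1 - y.1‖ := by
      have h10 : ‖(‖x.1‖ : ℂ) * (ee (ta N x) - ee (ta N y))‖ =
          ‖x.1‖ * ‖ee (ta N x) - ee (ta N y)‖ := by
        rw [norm_mul, Complex.norm_real, norm_norm]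
      rw [← h10, h8]
      refine (norm_add_le _ _).trans ?_
      rw [norm_mul, norm_ee, mul_one, Complex.norm_real, Real.norm_eq_abs]
      have h11 := abs_norm_sub_norm_le y.1 x.1
      rw [norm_sub_rev y.1 x.1] at h11
      linarith
    nlinarith [norm_nonneg (ee (ta N x) - ee (ta N y))]
  linarith

/-! ### The walls -/

/-- the walls -/
def WW (N : ℕ) : Set (XM m) :=
  {b | -1 ≤ b.2.1 ∧ b.2.1 ≤ 0 ∧ 1 ≤ ‖b.1‖ ∧ (‖b.1‖ = 1 ∨ qq N b ∉ Complex.slitPlane)}

/-- the room -/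
def RD (N : ℕ) : Set (XM m) := ball 0 2 \ WW N

theorem WW_closed (N : ℕ) : IsClosed (WW (m := m) N) := by
  have h1 : IsClosed {b : XM m | -1 ≤ b.2.1} := isClosed_le continuous_const (by fun_prop)
  have h2 : IsClosed {b : XM m | b.2.1 ≤ 0} := isClosed_le (by fun_prop) continuous_const
  have h3 : IsClosed {b : XM m | 1 ≤ ‖b.1‖} := isClosed_le continuous_const (by fun_prop)
  have h4 : IsClosed {b : XM m | ‖b.1‖ = 1} := isClosed_eq (by fun_prop) continuous_const
  have h5 : IsClosed {b : XM m | qq N b ∉ Complex.slitPlane} :=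
    (Complex.isOpen_slitPlane.preimage (qq_continuous N)).isClosed_compl
  exact h1.inter (h2.inter (h3.inter (h4.union h5)))

theorem RD_open (N : ℕ) : IsOpen (RD (m := m) N) := isOpen_ball.sdiff (WW_closed N)

theorem norm_lt_two {b : XM m} : b ∈ ball (0 : XM m) 2 ↔ ‖b.1‖ < 2 ∧ |b.2.1| < 2 ∧ ‖b.2.2‖ < 2 := by
  rw [mem_ball_zero_iff, Prod.norm_def, Prod.norm_def, max_lt_iff, max_lt_iff, Real.norm_eq_abs]

/-- the possible positions of a point in a room -/
theorem RD_cases {N : ℕ} {b : XM m} (h : b ∈ RD N) : ‖b.1‖ < 1 ∨ b.2.1 < -1 ∨ 0 < b.2.1 ∨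
    (1 < ‖b.1‖ ∧ qq N b ∈ Complex.slitPlane) := by
  by_contra h1
  push Not at h1
  obtain ⟨h2, h3, h4, h5⟩ := h1
  apply h.2
  refine ⟨h3, h4, h2, ?_⟩
  rcases h2.lt_or_eq with h6 | h6
  · exact Or.inr (h5 h6)
  · exact Or.inl h6.symm

end Pool.Agent.K6.H31.WC
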