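import Pool.Agent.K6.H31.WC.Rooms
import Pool.Agent.K6.H31.WC.Body

/-!
# The domains and the homeomorphisms
-/

set_option autoImplicit false

open Set Filter Topology Metric

namespace Pool.Agent.K6.H31.WC

variable {m : ℕ}

/-- the first unit vector -/
def e1 : XM m := (1, 0, 0)

theorem norm_e1 : ‖(e1 : XM m)‖ = 1 := by
  unfold e1
  rw [Prod.norm_def, Prod.norm_def]
  simp

/-- the reflection of the block `0` -/
def fl (j : ℕ) (x : XM m) : XM m := if j = 0 then (-x.1, x.2) else x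

theorem fl_fl (j : ℕ) (x : XM m) : fl j (fl j x) = x := by
  unfold fl
  split_ifs
  · simp
  · rfl

theorem norm_fl (j : ℕ) (x : XM m) : ‖fl j x‖ = ‖x‖ := by
  unfold fl
  split_ifs
  · show max ‖-x.1‖ ‖x.2‖ = max ‖x.1‖ ‖x.2‖
    rw [norm_neg]
  · rfl

theorem fl_sub (j : ℕ) (x y : XM m) : fl j x - fl j y = fl j (x - y) := by
  unfold fl
  split_ifs
  · refine Prod.ext ?_ rfl
    show -x.1 - -y.1 = -(x.1 - y.1)
    ring
  · rfl

theorem fl_smul (j : ℕ) (c : ℝ) (x : XM m) : fl j (c • x) = c • fl j x := by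
  unfold fl
  split_ifs
  · refine Prod.ext ?_ rfl
    show -(c • x.1) = c • -x.1
    rw [smul_neg]
  · rfl

theorem fl_snd (j : ℕ) (x : XM m) : (fl j x).2 = x.2 := by
  unfold fl
  split_ifs <;> rfl

/-- the position of the block `j` -/
noncomputable def SS (j : ℕ) (b : XM m) : XM m := (1 / 4 : ℝ) ^ j • fl j (e1 + (1 / 32 : ℝ) • b)

/-- the inverse -/
noncomputable def SI (j : ℕ) (x : XM m) : XM m := (32 : ℝ) • ((4 : ℝ) ^ j • fl j x - e1)

theorem four_mul (j : ℕ) : (4 : ℝ) ^ j * (1 / 4 : ℝ) ^ j = 1 := by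
  rw [← mul_pow]
  norm_num

theorem SI_SS (j : ℕ) (b : XM m) : SI j (SS j b) = b := by
  unfold SI SS
  rw [fl_smul, fl_fl, smul_smul, four_mul, one_smul, add_sub_cancel_left, smul_smul]
  norm_num

theorem SS_SI (j : ℕ) (x : XM m) : SS j (SI j x) = x := by
  unfold SI SS
  rw [smul_smul]
  norm_num
  rw [fl_smul, fl_fl, smul_smul]
  have := four_mul j
  rw [mul_comm] at this
  norm_num at this
  rw [this, one_smul]

theorem SS_sub (j : ℕ) (b b' : XM m) : ‖SS j b - SS j b'‖ = (1 / 4 : ℝ) ^ j / 32 * ‖b - b'‖ := by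
  unfold SS
  rw [← smul_sub, fl_sub, add_sub_add_left_eq_sub, ← smul_sub, norm_smul, norm_fl, norm_smul]
  rw [Real.norm_eq_abs, Real.norm_eq_abs, abs_of_pos (by positivity), abs_of_pos (by norm_num)]
  ring

theorem SI_sub (j : ℕ) (x x' : XM m) : ‖SI j x - SI j x'‖ = 32 * 4 ^ j * ‖x - x'‖ := by
  unfold SI
  rw [← smul_sub, sub_sub_sub_cancel_right, ← smul_sub, fl_sub, norm_smul, norm_smul, norm_fl]
  rw [Real.norm_eq_abs, Real.norm_eq_abs, abs_of_pos (by positivity), abs_of_pos (by norm_num)]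
  ring

theorem SI_continuous (j : ℕ) : Continuous (SI (m := m) j) :=
  continuous_iff_continuousAt.2 fun _ =>
    (LL.of_lip (C := 32 * 4 ^ j) fun y z => (SI_sub j y z).le).continuousAt

theorem SS_continuous (j : ℕ) : Continuous (SS (m := m) j) :=
  continuous_iff_continuousAt.2 fun _ =>
    (LL.of_lip (C := (1 / 4 : ℝ) ^ j / 32) fun y z => (SS_sub j y z).le).continuousAt

theorem SI_height (j : ℕ) (x : XM m) : (SI j x).2.1 = 32 * 4 ^ j * x.2.1 := by
  unfold SI e1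
  show (32 : ℝ) * ((4 : ℝ) ^ j * (fl j x).2.1 - 0) = _
  rw [fl_snd]
  ring

theorem SI_pos_iff (j : ℕ) (x : XM m) : 0 < (SI j x).2.1 ↔ 0 < x.2.1 := by
  rw [SI_height]
  exact mul_pos_iff_of_pos_left (by positivity)

theorem core_bounds {b : XM m} (hb : b ∈ ball (0 : XM m) 2) :
    15 / 16 < (e1 + (1 / 32 : ℝ) • b).1.re ∧ 15 / 16 < ‖e1 + (1 / 32 : ℝ) • b‖ ∧
      ‖e1 + (1 / 32 : ℝ) • b‖ < 17 / 16 := by
  rw [mem_ball_zero_iff] at hb
  have h1 : ‖(1 / 32 : ℝ) • b‖ < 1 / 16 := by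
    rw [norm_smul, Real.norm_eq_abs, abs_of_pos (by norm_num)]
    linarith
  have h2 := abs_re_le_norm ((1 / 32 : ℝ) • b)
  have h3 : (e1 + (1 / 32 : ℝ) • b).1.re = 1 + ((1 / 32 : ℝ) • b).1.re := by
    unfold e1
    simp
  have h4 := (abs_le.1 h2).1
  have h5 := (abs_re_le_norm (e1 + (1 / 32 : ℝ) • b))
  have h6 := le_abs_self (e1 + (1 / 32 : ℝ) • b).1.re
  have h7 := norm_add_le (e1 : XM m) ((1 / 32 : ℝ) • b)
  rw [norm_e1] at h7
  refine ⟨by rw [h3]; linarith, by linarith, by linarith⟩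

theorem norm_SS (j : ℕ) (b : XM m) : ‖SS j b‖ = (1 / 4 : ℝ) ^ j * ‖e1 + (1 / 32 : ℝ) • b‖ := by
  unfold SS
  rw [norm_smul, norm_fl, Real.norm_eq_abs, abs_of_pos (by positivity)]

theorem norm_SS_bounds (j : ℕ) {b : XM m} (hb : b ∈ ball (0 : XM m) 2) :
    (1 / 4 : ℝ) ^ j * (15 / 16) < ‖SS j b‖ ∧ ‖SS j b‖ < (1 / 4 : ℝ) ^ j * (17 / 16) := by
  obtain ⟨-, h1, h2⟩ := core_bounds hb
  rw [norm_SS]
  exact ⟨mul_lt_mul_of_pos_left h1 (by positivity), mul_lt_mul_of_pos_left h2 (by positivity)⟩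

theorem SS_re_zero {b : XM m} (hb : b ∈ ball (0 : XM m) 2) : (SS 0 b).1.re < -(15 / 16) := by
  obtain ⟨h1, -, -⟩ := core_bounds hb
  have : (SS 0 b).1.re = -(e1 + (1 / 32 : ℝ) • b).1.re := by
    unfold SS fl
    rw [if_pos rfl, pow_zero, one_smul]
    rfl
  rw [this]
  linarith

theorem SS_re_pos {j : ℕ} (hj : j ≠ 0) {b : XM m} (hb : b ∈ ball (0 : XM m) 2) :
    0 < (SS j b).1.re := by
  obtain ⟨h1, -, -⟩ := core_bounds hb
  have : (SS j b).1.re = (1 / 4 : ℝ) ^ j * (e1 + (1 / 32 : ℝ) • b).1.re := by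
    unfold SS fl
    rw [if_neg hj]
    show ((1 / 4 : ℝ) ^ j • (e1 + (1 / 32 : ℝ) • b).1).re = _
    rw [Complex.smul_re, smul_eq_mul]
  rw [this]
  have : (0 : ℝ) < (1 / 4 : ℝ) ^ j := by positivity
  nlinarith

theorem pow_quarter_lt {i j : ℕ} (h : i < j) : 4 * (1 / 4 : ℝ) ^ j ≤ (1 / 4 : ℝ) ^ i := by
  obtain ⟨d, rfl⟩ : ∃ d, j = i + 1 + d := ⟨j - (i + 1), by omega⟩
  have h1 : (1 / 4 : ℝ) ^ d ≤ 1 := pow_le_one₀ (by norm_num) (by norm_num)
  have h2 : (0 : ℝ) < (1 / 4 : ℝ) ^ i := by positivity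
  rw [pow_add, pow_add, pow_one]
  nlinarith

theorem SI_unique {i j : ℕ} {x : XM m} (hi : SI i x ∈ ball (0 : XM m) 2)
    (hj : SI j x ∈ ball (0 : XM m) 2) : i = j := by
  have key : ∀ {i j : ℕ}, SI i x ∈ ball (0 : XM m) 2 → SI j x ∈ ball (0 : XM m) 2 → ¬ i < j := by
    intro i j hi hj hij
    have h1 := norm_SS_bounds i hi
    have h2 := norm_SS_bounds j hj
    rw [SS_SI] at h1 h2
    have h3 := pow_quarter_lt hij
    have h4 : (0 : ℝ) < (1 / 4 : ℝ) ^ j := by positivity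
    nlinarith [h1.1, h2.2]
  rcases lt_trichotomy i j with h | h | h
  · exact absurd h (key hi hj)
  · exact h
  · exact absurd h (key hj hi)

/-! ### The exact action on the blocks -/

/-- the permutation of the rooms -/
def sigma (k j : ℕ) : ℕ := if j = 0 then k else if j < k then j else j + 1

theorem sigma_pos {k : ℕ} (hk : 1 ≤ k) (j : ℕ) : 1 ≤ sigma k j := by
  unfold sigma
  split_ifs <;> omega

theorem sigma_zero (k : ℕ) : sigma k 0 = k := rfl

theorem sigma_lt {k j : ℕ} (hj : j ≠ 0) (h : j < k) : sigma k j = j := by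
  unfold sigma
  rw [if_neg hj, if_pos h]

theorem sigma_ge {k j : ℕ} (hj : j ≠ 0) (h : ¬ j < k) : sigma k j = j + 1 := by
  unfold sigma
  rw [if_neg hj, if_neg h]

theorem sigma_surj {k : ℕ} (hk : 1 ≤ k) {i : ℕ} (hi : 1 ≤ i) : ∃ j, sigma k j = i := by
  rcases lt_trichotomy i k with h | h | h
  · exact ⟨i, by unfold sigma; rw [if_neg (by omega), if_pos h]⟩
  · exact ⟨0, by rw [sigma_zero, h]⟩
  · exact ⟨i - 1, by rw [sigma_ge (by omega) (by omega)]; omega⟩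

theorem chi_of_re_pos {x : XM m} (h : 0 < x.1.re) : chi x = 0 := by
  unfold chi
  apply cl_of_nonpos
  apply div_nonpos_of_nonpos_of_nonneg _ (norm_nonneg _)
  linarith

theorem Bb_of_re_pos {k : ℕ} {x : XM m} (h : 0 < x.1.re) : Bb k x = x := by
  unfold Bb ec
  rw [chi_of_re_pos h, zero_mul, mul_zero, sub_zero, one_smul]

theorem ec_SS_zero {b : XM m} (hb : b ∈ ball (0 : XM m) 2) : ec (SS 0 b) = 1 := by
  have h1 := norm_SS_bounds 0 hb
  rw [pow_zero, one_mul, one_mul] at h1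
  have h2 := SS_re_zero hb
  unfold ec chi
  rw [cl_of_one_le, cl_of_nonpos (by linarith [h1.2])]
  · norm_num
  · rw [one_le_div (by linarith [h1.1])]
    linarith [h1.2]

theorem Fb_SS {k : ℕ} (hk : 1 ≤ k) (j : ℕ) {b : XM m} (hb : b ∈ ball (0 : XM m) 2) :
    Fb k (SS j b) = SS (sigma k j) b := by
  have hn := norm_SS_bounds j hb
  have h4k : (0 : ℝ) < 4 ^ k := by positivity
  unfold Fb sigma
  by_cases hj : j = 0
  · subst hj
    rw [if_pos rfl]
    rw [pow_zero, one_mul, one_mul] at hn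
    have h4 : (4 : ℝ) ≤ 4 ^ k := by
      calc (4 : ℝ) = 4 ^ 1 := (pow_one _).symm
        _ ≤ 4 ^ k := pow_le_pow_right₀ (by norm_num) hk
    rw [Ab_of_big (by nlinarith [hn.1])]
    have h1 : Bb k (SS 0 b) = (1 / 4 : ℝ) ^ k • SS 0 b := by
      unfold Bb
      rw [ec_SS_zero hb]
      congr 1
      ring
    rw [h1]
    have h2 : 4 ^ k * ‖(1 / 4 : ℝ) ^ k • SS 0 b‖ = ‖SS 0 b‖ := by
      rw [norm_smul, Real.norm_eq_abs, abs_of_pos (by positivity), ← mul_assoc, four_mul, one_mul]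
    unfold Tb
    rw [h2, beta_one (by linarith [hn.1]) (by linarith [hn.2]), mul_one, ee_half]
    unfold SS
    rw [pow_zero, one_smul]
    unfold fl
    rw [if_pos rfl, if_neg (show ¬ k = 0 by omega)]
    refine Prod.ext ?_ rfl
    show ((1 / 4 : ℝ) ^ k • -(e1 + (1 / 32 : ℝ) • b).1) * -1 = (1 / 4 : ℝ) ^ k • (e1 + (1 / 32 : ℝ) • b).1
    rw [smul_neg]
    ring
  · rw [if_neg hj]
    have hre := SS_re_pos hj hb
    by_cases hjk : j < k
    · rw [if_pos hjk]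
      have h1 : 2 ≤ 4 ^ k * ‖SS j b‖ := by
        have h2 := pow_quarter_lt hjk
        have h3 := four_mul k
        have h5 : 4 ^ k * (4 * (1 / 4 : ℝ) ^ k) ≤ 4 ^ k * (1 / 4 : ℝ) ^ j :=
          mul_le_mul_of_nonneg_left h2 h4k.le
        have h6 : 4 ^ k * ((1 / 4 : ℝ) ^ j * (15 / 16)) ≤ 4 ^ k * ‖SS j b‖ :=
          mul_le_mul_of_nonneg_left hn.1.le h4k.le
        nlinarith
      rw [Ab_of_big h1, Bb_of_re_pos hre, Tb_of_big h1]
    · rw [if_neg hjk]
      have h1 : 4 ^ k * ‖SS j b‖ ≤ 17 / 16 := by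
        have h2 : (1 / 4 : ℝ) ^ j ≤ (1 / 4 : ℝ) ^ k :=
          pow_le_pow_of_le_one (by norm_num) (by norm_num) (by omega)
        have h3 := four_mul k
        calc 4 ^ k * ‖SS j b‖ ≤ 4 ^ k * ((1 / 4 : ℝ) ^ k * (17 / 16)) := by
              apply mul_le_mul_of_nonneg_left _ h4k.le
              nlinarith [hn.2]
          _ = 17 / 16 := by rw [← mul_assoc, h3, one_mul]
      have h2 : Ab k (SS j b) = SS (j + 1) b := by
        unfold Ab
        rw [phi_small (by linarith)]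
        unfold SS fl
        rw [if_neg hj, if_neg (by omega), smul_smul, pow_succ]
        congr 1
        ring
      rw [h2, Bb_of_re_pos (SS_re_pos (by omega) hb)]
      apply Tb_of_small
      rw [norm_SS, pow_succ] at *
      nlinarith

end Pool.Agent.K6.H31.WC
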