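import Pool.Agent.K6.H31.WC.Lower
import Pool.Agent.K6.H31.WS.Final

/-!
# The limit map is in the weak closure but not in the strong closure
-/

set_option autoImplicit false

open Set Filter Topology MeasureTheory Metric
open scoped ContDiff ENNReal NNReal

namespace Pool.Agent.K6.H31.WC

open Pool.Agent.K6.H31.WS (EE iota HasWeakGrad InSobolev IsHomeoOnto TendstoWeakly TendstoStrongly
  weakClosure strongClosure weakGrad_unique tendsto_grad hasWeakGrad_of_locallyLipschitz
  norm_fderiv_le_of_local)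

variable {m : ℕ}

/-! ### Boundedness and connectedness -/

/-- the bound -/
noncomputable def BB (m : ℕ) : ℝ := ‖((io m).symm : XM m →L[ℝ] EE m)‖ * 3

theorem norm_le_BB {x : EE m} (h : ‖io m x‖ < 3) : ‖x‖ ≤ BB m := by
  have h1 := ((io m).symm : XM m →L[ℝ] EE m).le_opNorm (io m x)
  have h2 : ((io m).symm : XM m →L[ℝ] EE m) (io m x) = x := (io m).symm_apply_apply x
  rw [h2] at h1
  exact h1.trans (mul_le_mul_of_nonneg_left h.le (norm_nonneg _))

theorem E1_norm {x : EE m} (hx : x ∈ E1 m) : ‖x‖ ≤ BB m := norm_le_BB (Om_norm hx)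

theorem E2_norm {x : EE m} (hx : x ∈ E2 m) : ‖x‖ ≤ BB m := norm_le_BB (Om_norm hx)

theorem E1_bounded : Bornology.IsBounded (E1 m) :=
  isBounded_iff_forall_norm_le.2 ⟨BB m, fun _ hx => E1_norm hx⟩

theorem E2_bounded : Bornology.IsBounded (E2 m) :=
  isBounded_iff_forall_norm_le.2 ⟨BB m, fun _ hx => E2_norm hx⟩

theorem E1_finite : volume (E1 m) ≠ ⊤ := (E1_bounded.measure_lt_top).ne

instance : IsFiniteMeasure ((volume : Measure (EE m)).restrict (E1 m)) :=
  ⟨by rw [Measure.restrict_apply_univ]; exact E1_finite.lt_top⟩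

theorem Om_connected (t : ℕ → ℕ) (J : Set ℕ) : IsConnected (Om (m := m) t J) := by
  refine ⟨⟨_, Or.inl Mb_mem⟩, isPreconnected_of_forall (0, 1, 0) fun y hy => ?_⟩
  have hMp : IsPreconnected (Mb : Set (XM m)) := Mb_convex.isPreconnected
  have hMs : (Mb : Set (XM m)) ⊆ Om t J := fun x hx => Or.inl hx
  rcases hy with hy | ⟨j, hj, hy⟩
  · exact ⟨Mb, hMs, Mb_mem, hy, hMp⟩
  · have hPs : SI j ⁻¹' (PP : Set (XM m)) ⊆ Om t J := fun x hx => Or.inr ⟨j, hj, PP_subset_RD hx⟩
    have hCs : SI j ⁻¹' CE (m := m) (t j) univ ⊆ Om t J := fun x hx =>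
      Or.inr ⟨j, hj, CE_subset_RD hx⟩
    have hPp : IsPreconnected (SI j ⁻¹' (PP : Set (XM m))) :=
      SI_preconnected j (PP_star.isPathConnected PP_mem).isConnected.isPreconnected
    have hCp : IsPreconnected (SI j ⁻¹' CE (m := m) (t j) univ) :=
      SI_preconnected j (CE_preconnected _ convex_univ)
    have hP : y ∈ SI j ⁻¹' (PP : Set (XM m)) → ∃ s ⊆ Om t J, ((0, 1, 0) : XM m) ∈ s ∧ y ∈ s ∧
        IsPreconnected s := by
      intro h
      have hx0 : ((0, 1, 0) : XM m) ∈ ball (0 : XM m) 2 := by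
        rw [norm_lt_two]
        norm_num
      refine ⟨Mb ∪ SI j ⁻¹' PP, union_subset hMs hPs, Or.inl Mb_mem, Or.inr h,
        IsPreconnected.union (SS j (0, 1, 0)) ?_ ?_ hMp hPp⟩
      · apply mem_Mb_of (j := j)
        · rw [SI_SS]
          exact hx0
        · rw [SI_SS]
          norm_num
      · show SI j (SS j (0, 1, 0)) ∈ PP
        rw [SI_SS]
        exact ⟨hx0, Or.inl (by norm_num)⟩
    have hC : y ∈ SI j ⁻¹' CE (m := m) (t j) univ → ∃ s ⊆ Om t J, ((0, 1, 0) : XM m) ∈ s ∧ y ∈ s ∧
        IsPreconnected s := by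
      intro h
      have hx0 : (pp (t j) (3 / 2, 1 / 2, 1, 0) : XM m) ∈ CE (t j) univ :=
        pp_mapsTo (t j) univ (by
          refine ⟨?_, ?_, ⟨trivial, ?_⟩, ?_⟩
          · constructor <;> norm_num
          · constructor <;> norm_num
          · constructor <;> norm_num
          · rw [mem_ball_zero_iff]
            simp)
      refine ⟨Mb ∪ SI j ⁻¹' CE (t j) univ, union_subset hMs hCs, Or.inl Mb_mem, Or.inr h,
        IsPreconnected.union (SS j (pp (t j) (3 / 2, 1 / 2, 1, 0))) ?_ ?_ hMp hCp⟩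
      · apply mem_Mb_of (j := j)
        · rw [SI_SS]
          exact hx0.1
        · rw [SI_SS]
          show (0 : ℝ) < 1
          norm_num
      · show SI j (SS j _) ∈ CE (t j) univ
        rw [SI_SS]
        exact hx0
    rcases RD_cases hy with h | h | h | ⟨h, h2⟩
    · exact hP ⟨hy.1, Or.inl h⟩
    · exact hP ⟨hy.1, Or.inr h⟩
    · exact ⟨Mb, hMs, Mb_mem, mem_Mb_of hy.1 h, hMp⟩
    · exact hC ⟨hy.1, h, h2, mem_univ _⟩

theorem io_connected {s : Set (XM m)} (hs : IsConnected s) : IsConnected (io m ⁻¹' s) := by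
  have h1 : io m ⁻¹' s = (io m).symm '' s := by
    ext x
    constructor
    · intro hx
      exact ⟨io m x, hx, (io m).symm_apply_apply x⟩
    · rintro ⟨z, hz, rfl⟩
      show io m ((io m).symm z) ∈ s
      rwa [ContinuousLinearEquiv.apply_symm_apply]
  rw [h1]
  exact hs.image _ (io m).symm.continuous.continuousOn

theorem E1_connected : IsConnected (E1 m) := io_connected (Om_connected _ _)

theorem E2_connected : IsConnected (E2 m) := io_connected (Om_connected _ _)

/-! ### Sobolev maps -/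

theorem sob_of_LL {n : ℕ} {Ω : Set (EuclideanSpace ℝ (Fin n))} (hΩ : IsOpen Ω)
    [IsFiniteMeasure ((volume : Measure (EuclideanSpace ℝ (Fin n))).restrict Ω)]
    {f : EuclideanSpace ℝ (Fin n) → EuclideanSpace ℝ (Fin n)} {C B : ℝ}
    (hC : 0 ≤ C) (h : ∀ x ∈ Ω, LL f C x) (hB : ∀ x ∈ Ω, ‖f x‖ ≤ B) :
    (∀ p : ℝ≥0∞, InSobolev p Ω f (fderiv ℝ f)) ∧ ContinuousOn f Ω ∧
      ∀ x ∈ Ω, ‖fderiv ℝ f x‖ ≤ C := by
  have hc : ContinuousOn f Ω := fun x hx => (h x hx).continuousAt.continuousWithinAt
  have hlip : LocallyLipschitzOn Ω f := by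
    intro x hx
    obtain ⟨r, hr, -, h1⟩ := (h x hx).exists_ball (hΩ.mem_nhds hx)
    refine ⟨⟨C, hC⟩, ball x r, mem_nhdsWithin_of_mem_nhds (ball_mem_nhds x hr), ?_⟩
    refine LipschitzOnWith.of_dist_le_mul fun y hy z hz => ?_
    rw [dist_eq_norm, dist_eq_norm]
    exact h1 y hy z hz
  have hd : ∀ x ∈ Ω, ‖fderiv ℝ f x‖ ≤ C := by
    intro x hx
    apply norm_fderiv_le_of_local hC
    have h2 : Tendsto (fun y => (y, x)) (𝓝 x) (𝓝 (x, x)) :=
      (continuous_id.prodMk continuous_const).tendsto x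
    exact h2.eventually (h x hx)
  refine ⟨fun p => ⟨?_, ?_, hasWeakGrad_of_locallyLipschitz hΩ hlip⟩, hc, hd⟩
  · refine MemLp.of_bound (hc.aestronglyMeasurable hΩ.measurableSet) B ?_
    filter_upwards [ae_restrict_mem hΩ.measurableSet] with x hx
    exact hB x hx
  · refine MemLp.of_bound (measurable_fderiv ℝ f).aestronglyMeasurable C ?_
    filter_upwards [ae_restrict_mem hΩ.measurableSet] with x hx
    exact hd x hx

/-- the Lipschitz constant -/
noncomputable def CL (m : ℕ) : ℝ :=
  ‖((io m).symm : XM m →L[ℝ] EE m)‖ * (1200 * ‖((io m : EE m ≃L[ℝ] XM m) : EE m →L[ℝ] XM m)‖)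

theorem CL_nonneg (m : ℕ) : 0 ≤ CL m := by
  unfold CL
  positivity

theorem conj_LL {F : XM m → XM m} {x : EE m} (h : LL F 1200 (io m x)) :
    LL (fun y => (io m).symm (F (io m y))) (CL m) x := by
  have h1 : LL (fun y => io m y) ‖((io m : EE m ≃L[ℝ] XM m) : EE m →L[ℝ] XM m)‖ x :=
    LL.of_lip fun y z => by
      have := ((io m : EE m ≃L[ℝ] XM m) : EE m →L[ℝ] XM m).le_opNorm (y - z)
      rw [map_sub] at this
      exact this
  have h2 : LL (fun y => F (io m y)) (1200 * ‖((io m : EE m ≃L[ℝ] XM m) : EE m →L[ℝ] XM m)‖) x :=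
    LL.comp (by norm_num) h h1
  have h3 : LL (fun y => (io m).symm y) ‖((io m).symm : XM m →L[ℝ] EE m)‖ (F (io m x)) :=
    LL.of_lip fun y z => by
      have := ((io m).symm : XM m →L[ℝ] EE m).le_opNorm (y - z)
      rw [map_sub] at this
      exact this
  exact LL.comp (f := fun y => F (io m y)) (g := fun y => (io m).symm y) (norm_nonneg _) h3 h2

/-- the homeomorphisms -/
noncomputable def fE (k : ℕ) (x : EE m) : EE m := (io m).symm (fX (k + 1) (io m x))

/-- the limit -/
noncomputable def flim (x : EE m) : EE m := (io m).symm (Binf (io m x))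

theorem fE_mem (k : ℕ) {x : EE m} (hx : x ∈ E1 m) : fE k x ∈ E2 m := by
  show io m ((io m).symm _) ∈ O2
  rw [ContinuousLinearEquiv.apply_symm_apply]
  exact fX_mem (by omega) hx

theorem fE_homeo (k : ℕ) : IsHomeoOnto (E1 m) (E2 m) (fE k) := by
  refine ⟨{
    toFun := fun x => ⟨fE k x.1, fE_mem k x.2⟩
    invFun := fun y => ⟨(io m).symm (gX (k + 1) (io m y.1)), by
      show io m ((io m).symm _) ∈ O1
      rw [ContinuousLinearEquiv.apply_symm_apply]
      exact gX_mem (by omega) y.2⟩
    left_inv := ?_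
    right_inv := ?_
    continuous_toFun := ?_
    continuous_invFun := ?_ }, fun x => rfl⟩
  · intro x
    apply Subtype.ext
    show (io m).symm (gX (k + 1) (io m ((io m).symm (fX (k + 1) (io m x.1))))) = x.1
    rw [ContinuousLinearEquiv.apply_symm_apply, gX_fX, ContinuousLinearEquiv.symm_apply_apply]
  · intro y
    apply Subtype.ext
    show (io m).symm (fX (k + 1) (io m ((io m).symm (gX (k + 1) (io m y.1))))) = y.1
    rw [ContinuousLinearEquiv.apply_symm_apply, fX_gX, ContinuousLinearEquiv.symm_apply_apply]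
  · apply Continuous.subtype_mk
    have h1 : ContinuousOn (fE (m := m) k) (E1 m) :=
      (io m).symm.continuous.comp_continuousOn ((fX_continuousOn (by omega)).comp
        (io m).continuous.continuousOn fun x hx => hx)
    exact continuousOn_iff_continuous_domRestrict.1 h1
  · apply Continuous.subtype_mk
    have h1 : ContinuousOn (fun y => (io m).symm (gX (k + 1) (io m y))) (E2 m) :=
      (io m).symm.continuous.comp_continuousOn ((gX_continuousOn (by omega)).comp
        (io m).continuous.continuousOn fun x hx => hx)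
    exact continuousOn_iff_continuous_domRestrict.1 h1

theorem fE_sob (k : ℕ) : (∀ p : ℝ≥0∞, InSobolev p (E1 m) (fE k) (fderiv ℝ (fE k))) ∧
    ContinuousOn (fE k) (E1 m) ∧ ∀ x ∈ E1 m, ‖fderiv ℝ (fE k) x‖ ≤ CL m :=
  sob_of_LL E1_open (CL_nonneg m) (fun _ hx => conj_LL (fX_LL (by omega) hx))
    fun _ hx => E2_norm (fE_mem k hx)

theorem fE_tendsto {x : EE m} (hx : x ∈ E1 m) : Tendsto (fun k => fE k x) atTop (𝓝 (flim x)) := by
  have h1 := (fX_tendsto (x := io m x) hx).comp (tendsto_add_atTop_nat 1)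
  exact ((io m).symm.continuous.tendsto _).comp h1

theorem flim_sob : (∀ p : ℝ≥0∞, InSobolev p (E1 m) flim (fderiv ℝ flim)) ∧
    ContinuousOn flim (E1 m) ∧ ∀ x ∈ E1 m, ‖fderiv ℝ flim x‖ ≤ CL m := by
  refine sob_of_LL (B := BB m) E1_open (CL_nonneg m) (fun x _ => conj_LL ?_) fun x hx => ?_
  · exact (LL.of_lip Binf_lip).mono (by norm_num)
  · exact le_of_tendsto (fE_tendsto hx).norm (Eventually.of_forall fun k => E2_norm (fE_mem k hx))

theorem flim_U0 {x : EE m} (hx : x ∈ U0 m) : flim x = 0 := by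
  unfold flim
  rw [Binf_Zn hx.2, map_zero]

/-! ### The weak limit -/

theorem flim_weak (p : ℝ≥0∞) : (flim : EE m → EE m) ∈ weakClosure p (E1 m) (E2 m) := by
  refine ⟨fderiv ℝ flim, flim_sob.1 p, ?_, fun k => fE k, fun k => fderiv ℝ (fE k),
    fun k => ⟨(fE_sob k).1 p, fE_homeo k⟩, ?_⟩
  · filter_upwards [ae_restrict_mem E1_open.measurableSet] with x hx
    exact mem_closure_of_tendsto (fE_tendsto hx) (Eventually.of_forall fun k => fE_mem k hx)
  · intro q hq h hh
    have hq1 : 1 ≤ q := by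
      by_contra hlt
      push Not at hlt
      have h1 : 1 < q⁻¹ := by
        rw [← inv_one]
        exact ENNReal.inv_lt_inv.2 hlt
      have h2 : q⁻¹ ≤ 1 := by
        rw [← hq]
        exact le_add_self
      exact absurd h1 (not_lt.2 h2)
    have hhi : IntegrableOn h (E1 m) := hh.integrable hq1
    refine ⟨?_, fun v => ?_⟩
    · refine tendsto_integral_of_dominated_convergence (fun x => ‖h x‖ * BB m) ?_ ?_ ?_ ?_
      · intro k
        exact hhi.aestronglyMeasurable.smul
          ((fE_sob k).2.1.aestronglyMeasurable E1_open.measurableSet)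
      · exact hhi.norm.mul_const _
      · intro k
        filter_upwards [ae_restrict_mem E1_open.measurableSet] with x hx
        rw [norm_smul]
        exact mul_le_mul_of_nonneg_left (E2_norm (fE_mem k hx)) (norm_nonneg _)
      · filter_upwards [ae_restrict_mem E1_open.measurableSet] with x hx
        exact (fE_tendsto hx).const_smul _
    · exact tendsto_grad E1_open E1_finite (flim_sob.1 1).2.2 (fun k => ((fE_sob k).1 1).2.2)
        (fun k => (fE_sob k).2.1.aestronglyMeasurable E1_open.measurableSet)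
        (measurable_fderiv ℝ _).aestronglyMeasurable
        (fun k => (measurable_fderiv ℝ _).aestronglyMeasurable)
        (fun k x hx => E2_norm (fE_mem k hx)) flim_sob.2.2 (fun k => (fE_sob k).2.2)
        (fun x hx => fE_tendsto hx) hhi v

/-! ### Not a strong limit -/

theorem flim_not_strong (p : ℝ≥0∞) (hp : 1 ≤ p) :
    (flim : EE m → EE m) ∉ strongClosure p (E1 m) (E2 m) := by
  rintro ⟨G, ⟨-, hGp, hGw⟩, -, gk, Gk, hk, -, hlim⟩
  have hsub : U0 m ⊆ E1 m := inter_subset_left
  have hGi : IntegrableOn G (E1 m) := hGp.integrable hp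
  -- the gradient of the limit vanishes on `U0`
  have hzero : ∀ᵐ x, x ∈ U0 m → G x = 0 := by
    obtain ⟨-, h1, h2⟩ := (flim_sob (m := m)).1 1
    have h3 := weakGrad_unique E1_open hGi (h1.integrable le_rfl) hGw h2
    filter_upwards [h3] with x hx hxD
    have h4 := hx (hsub hxD)
    have h5 : fderiv ℝ flim x = 0 := by
      have h6 : flim =ᶠ[𝓝 x] fun _ => (0 : EE m) := by
        filter_upwards [U0_open.mem_nhds hxD] with y hy
        exact flim_U0 hy
      rw [h6.fderiv_eq]
      simp
    rwa [h5, sub_zero] at h4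
  obtain ⟨B, hB⟩ : ∃ B : ℝ≥0, ∀ x ∈ K0 m, ‖x - c0 m‖ ≤ B := by
    obtain ⟨B, hB⟩ := (K0_compact m).isBounded.exists_norm_le
    refine ⟨⟨|B| + ‖c0 m‖, by positivity⟩, fun x hx => ?_⟩
    exact (norm_sub_le _ _).trans (add_le_add ((hB x hx).trans (le_abs_self B)) le_rfl)
  -- the lower bound
  have hlow : ∀ k, volume (K0 m) ≤
      cst m B * ENNReal.ofReal (2 * Real.pi) * ∫⁻ x in U0 m, ‖Gk k x‖ₑ := by
    intro k
    obtain ⟨⟨-, hGkp, hGkw⟩, e, he⟩ := hk k
    have hGki : IntegrableOn (Gk k) (E1 m) := hGkp.integrable hp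
    have hgc : ContinuousOn (gk k) (E1 m) := by
      rw [continuousOn_iff_continuous_domRestrict]
      have : (E1 m).domRestrict (gk k) = fun x => (e x : EE m) := by
        funext x
        exact (he x).symm
      rw [this]
      exact continuous_subtype_val.comp e.continuous
    classical
    let g' : EE m → EE m := fun y => if h : y ∈ E2 m then (e.symm ⟨y, h⟩).1 else 0
    have hg'v : ∀ y (h : y ∈ E2 m), g' y = (e.symm ⟨y, h⟩).1 := by
      intro y h
      show (if h : y ∈ E2 m then (e.symm ⟨y, h⟩).1 else 0) = _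
      rw [dif_pos h]
    have hg'c : ContinuousOn g' (E2 m) := by
      rw [continuousOn_iff_continuous_domRestrict]
      have : (E2 m).domRestrict g' = fun y => (e.symm y : EE m) := by
        funext y
        exact hg'v y.1 y.2
      rw [this]
      exact continuous_subtype_val.comp e.symm.continuous
    have hw : HasWeakGrad (U0 m) (gk k) (Gk k) := by
      intro φ hφ hc hs v
      have h1 := hGkw φ hφ hc (hs.trans hsub) v
      have h2 : ∀ x, x ∉ U0 m → fderiv ℝ φ x v = 0 := by
        intro x hx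
        have : fderiv ℝ φ x = 0 := by
          by_contra h4
          exact hx (hs (support_fderiv_subset ℝ (f := φ) h4))
        rw [this]
        rfl
      have h3 : ∀ x, x ∉ U0 m → φ x = 0 := fun x hx =>
        image_eq_zero_of_notMem_tsupport fun h => hx (hs h)
      have e1 : ∫ x in E1 m, (fderiv ℝ φ x v) • gk k x = ∫ x in U0 m, (fderiv ℝ φ x v) • gk k x := by
        apply setIntegral_eq_of_subset_of_forall_sdiff_eq_zero E1_open.measurableSet hsub
        intro x hx
        rw [h2 x hx.2, zero_smul]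
      have e2 : ∫ x in E1 m, φ x • Gk k x v = ∫ x in U0 m, φ x • Gk k x v := by
        apply setIntegral_eq_of_subset_of_forall_sdiff_eq_zero E1_open.measurableSet hsub
        intro x hx
        rw [h3 x hx.2, zero_smul]
      rw [e1, e2] at h1
      exact h1
    refine energy_lower (g := gk k) (g' := g') (G := Gk k) hgc ?_ hg'c ?_ ?_
      (hGki.mono_set hsub) hw hB
    · intro x hx
      rw [← he ⟨x, hx⟩]
      exact (e ⟨x, hx⟩).2
    · intro y hy
      rw [hg'v y hy]
      exact (e.symm ⟨y, hy⟩).2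
    · intro x hx
      have h1 : gk k x = (e ⟨x, hx⟩ : EE m) := (he ⟨x, hx⟩).symm
      rw [h1, hg'v _ (e ⟨x, hx⟩).2]
      simp
  -- the energies on `U0` tend to zero
  have hup : ∀ k, ∫⁻ x in U0 m, ‖Gk k x‖ₑ ≤ eLpNorm (fun x => Gk k x - G x) p
      (volume.restrict (E1 m)) * (volume.restrict (E1 m) : Measure (EE m)) univ ^
        (1 / (1 : ℝ≥0∞).toReal - 1 / p.toReal) := by
    intro k
    obtain ⟨⟨-, hGkp, -⟩, -⟩ := hk k
    calc ∫⁻ x in U0 m, ‖Gk k x‖ₑ = ∫⁻ x in U0 m, ‖Gk k x - G x‖ₑ := by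
          apply lintegral_congr_ae
          have h1 : ∀ᵐ x ∂(volume.restrict (U0 m)), G x = 0 := by
            rw [ae_restrict_iff' U0_open.measurableSet]
            exact hzero
          filter_upwards [h1] with x hx
          rw [hx, sub_zero]
      _ ≤ ∫⁻ x in E1 m, ‖Gk k x - G x‖ₑ := lintegral_mono_set hsub
      _ = eLpNorm (fun x => Gk k x - G x) 1 (volume.restrict (E1 m)) := by
          rw [eLpNorm_one_eq_lintegral_enorm]
      _ ≤ _ := eLpNorm_le_eLpNorm_mul_rpow_measure_univ hp
          (hGkp.aestronglyMeasurable.sub hGp.aestronglyMeasurable)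
  have hfin : (volume.restrict (E1 m) : Measure (EE m)) univ ^
      (1 / (1 : ℝ≥0∞).toReal - 1 / p.toReal) ≠ ⊤ := by
    apply ENNReal.rpow_ne_top_of_nonneg
    · simp only [ENNReal.toReal_one, div_one, sub_nonneg]
      by_cases hpt : p = ⊤
      · rw [hpt]; simp
      · rw [div_le_one (by
          have := ENNReal.toReal_mono hpt hp
          rw [ENNReal.toReal_one] at this
          linarith)]
        have := ENNReal.toReal_mono hpt hp
        rwa [ENNReal.toReal_one] at this
    · rw [Measure.restrict_apply_univ]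
      exact E1_finite
  have hcst : cst m B * ENNReal.ofReal (2 * Real.pi) ≠ ⊤ := by
    apply ENNReal.mul_ne_top _ ENNReal.ofReal_ne_top
    unfold cst
    exact ENNReal.mul_ne_top enorm_ne_top ENNReal.coe_ne_top
  have hT : Tendsto (fun k => cst m B * ENNReal.ofReal (2 * Real.pi) *
      (eLpNorm (fun x => Gk k x - G x) p (volume.restrict (E1 m)) *
        (volume.restrict (E1 m) : Measure (EE m)) univ ^ (1 / (1 : ℝ≥0∞).toReal - 1 / p.toReal)))
      atTop (𝓝 0) := by
    have h1 := ENNReal.Tendsto.mul_const (b := (volume.restrict (E1 m) : Measure (EE m)) univ ^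
      (1 / (1 : ℝ≥0∞).toReal - 1 / p.toReal)) hlim (Or.inr hfin)
    have h2 := ENNReal.Tendsto.const_mul (a := cst m B * ENNReal.ofReal (2 * Real.pi)) h1
      (Or.inr hcst)
    rw [zero_mul, mul_zero] at h2
    exact h2
  have hge : volume (K0 m) ≤ 0 := by
    refine ge_of_tendsto hT (Eventually.of_forall fun k => ?_)
    refine (hlow k).trans ?_
    gcongr
    exact hup k
  exact absurd hge (not_le.2 (K0_volume_pos m))

end Pool.Agent.K6.H31.WC
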