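import Pool.Agent.K6.H31.WC.Maps
import Pool.Agent.K6.H31.WS.Loops

/-!
# Logarithms on the domain with cut corridors
-/

set_option autoImplicit false

open Set Filter Topology Metric

namespace Pool.Agent.K6.H31.WC

open Pool.Agent.K6.H31.WS (const_of_exp_eq_one)

variable {m : ℕ}

/-- every non-vanishing continuous function on `V` has a continuous logarithm -/
def HL {X : Type*} [TopologicalSpace X] (V : Set X) : Prop :=
  ∀ F : X → ℂ, ContinuousOn F V → (∀ x ∈ V, F x ≠ 0) →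
    ∃ L : X → ℂ, ContinuousOn L V ∧ ∀ x ∈ V, Complex.exp (L x) = F x

theorem HL_of_starConvex {X : Type*} [NormedAddCommGroup X] [NormedSpace ℝ X] {V : Set X} {x : X}
    (hx : x ∈ V) (hV : StarConvex ℝ x V) (ho : IsOpen V) : HL V := by
  intro F hF hF0
  have hsc : IsSimplyConnected V := by
    have : ContractibleSpace V := hV.contractibleSpace ⟨x, hx⟩
    show SimplyConnectedSpace V
    infer_instance
  obtain ⟨L, hL, hL'⟩ := Complex.exists_continuousOn_eqOn_exp_comp hsc ho hF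
    (by
      intro h
      obtain ⟨y, hy, h0⟩ := h
      exact hF0 y hy h0)
  exact ⟨L, hL, fun y hy => hL' hy⟩

theorem HL_transport {X Y : Type*} [TopologicalSpace X] [TopologicalSpace Y] {V : Set X} {W : Set Y}
    {p : Y → X} {q : X → Y} (hp : ContinuousOn p W) (hq : ContinuousOn q V) (hpm : MapsTo p W V)
    (hqm : MapsTo q V W) (hpq : ∀ x ∈ V, p (q x) = x) (hW : HL W) : HL V := by
  intro F hF hF0
  obtain ⟨L, hL, hL'⟩ := hW (fun y => F (p y)) (hF.comp hp hpm) (fun y hy => hF0 _ (hpm hy))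
  refine ⟨fun x => L (q x), hL.comp hq hqm, fun x hx => ?_⟩
  show Complex.exp (L (q x)) = F x
  rw [hL' _ (hqm hx), hpq x hx]

theorem glue {X : Type*} [TopologicalSpace X] {U V : Set X} (hU : IsOpen U) (hV : IsOpen V)
    (hUV : IsPreconnected (U ∩ V)) {F L : X → ℂ} (hF : ContinuousOn F V)
    (hF0 : ∀ x ∈ V, F x ≠ 0) (hL : ContinuousOn L U) (hLF : ∀ x ∈ U, Complex.exp (L x) = F x)
    (hHL : HL V) : ∃ L' : X → ℂ, ContinuousOn L' (U ∪ V) ∧ (∀ x ∈ U, L' x = L x) ∧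
      ∀ x ∈ U ∪ V, Complex.exp (L' x) = F x := by
  obtain ⟨L₂, hL₂, hL₂F⟩ := hHL F hF hF0
  obtain ⟨c, hc, hce⟩ : ∃ c : ℂ, (∀ x ∈ U ∩ V, L x = L₂ x + c) ∧ Complex.exp c = 1 := by
    by_cases hne : (U ∩ V).Nonempty
    · obtain ⟨x₀, hx₀⟩ := hne
      refine ⟨L x₀ - L₂ x₀, fun x hx => ?_, ?_⟩
      · have : PreconnectedSpace ↥(U ∩ V) := Subtype.preconnectedSpace hUV
        have hd : Continuous fun z : ↥(U ∩ V) => L z - L₂ z := by
          have h1 : ContinuousOn (fun z => L z - L₂ z) (U ∩ V) :=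
            (hL.mono inter_subset_left).sub (hL₂.mono inter_subset_right)
          exact continuousOn_iff_continuous_domRestrict.1 h1
        have h2 := const_of_exp_eq_one hd (fun z => by
          rw [Complex.exp_sub, hLF _ z.2.1, hL₂F _ z.2.2]
          exact div_self (hF0 _ z.2.2)) ⟨x, hx⟩ ⟨x₀, hx₀⟩
        simp only at h2
        linear_combination h2
      · rw [Complex.exp_sub, hLF _ hx₀.1, hL₂F _ hx₀.2]
        exact div_self (hF0 _ hx₀.2)
    · exact ⟨0, fun x hx => absurd ⟨x, hx⟩ hne, Complex.exp_zero⟩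
  classical
  refine ⟨fun x => if x ∈ U then L x else L₂ x + c, ?_, fun x hx => if_pos hx, ?_⟩
  · intro x hx
    by_cases hxU : x ∈ U
    · have h1 : (fun x => if x ∈ U then L x else L₂ x + c) =ᶠ[𝓝 x] L := by
        filter_upwards [hU.mem_nhds hxU] with y hy
        exact if_pos hy
      exact ((hL.continuousAt (hU.mem_nhds hxU)).congr h1.symm).continuousWithinAt
    · have hxV : x ∈ V := hx.resolve_left hxU
      have h1 : (fun x => if x ∈ U then L x else L₂ x + c) =ᶠ[𝓝 x] fun x => L₂ x + c := by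
        filter_upwards [hV.mem_nhds hxV] with y hy
        by_cases hyU : y ∈ U
        · rw [if_pos hyU]
          exact hc y ⟨hyU, hy⟩
        · rw [if_neg hyU]
      have h2 : ContinuousAt (fun x => L₂ x + c) x :=
        (hL₂.continuousAt (hV.mem_nhds hxV)).add continuousAt_const
      exact (h2.congr h1.symm).continuousWithinAt
  · intro x hx
    by_cases hxU : x ∈ U
    · show Complex.exp (if x ∈ U then L x else L₂ x + c) = F x
      rw [if_pos hxU]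
      exact hLF x hxU
    · have hxV : x ∈ V := hx.resolve_left hxU
      show Complex.exp (if x ∈ U then L x else L₂ x + c) = F x
      rw [if_neg hxU, Complex.exp_add, hce, mul_one]
      exact hL₂F x hxV

/-! ### The pieces of a room -/

/-- the corridor with the heights in `I` -/
def CE (N : ℕ) (I : Set ℝ) : Set (XM m) :=
  {b | b ∈ ball (0 : XM m) 2 ∧ 1 < ‖b.1‖ ∧ qq N b ∈ Complex.slitPlane ∧ b.2.1 ∈ I}

/-- the chimney and the bottom -/
def PP : Set (XM m) := {b | b ∈ ball (0 : XM m) 2 ∧ (‖b.1‖ < 1 ∨ b.2.1 < -1)}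

theorem CE_open (N : ℕ) {I : Set ℝ} (hI : IsOpen I) : IsOpen (CE (m := m) N I) := by
  have h1 : IsOpen {b : XM m | 1 < ‖b.1‖} := isOpen_lt continuous_const (by fun_prop)
  have h2 : IsOpen {b : XM m | qq N b ∈ Complex.slitPlane} :=
    Complex.isOpen_slitPlane.preimage (qq_continuous N)
  have h3 : IsOpen {b : XM m | b.2.1 ∈ I} := hI.preimage (continuous_fst.comp continuous_snd)
  exact isOpen_ball.inter (h1.inter (h2.inter h3))

theorem PP_open : IsOpen (PP : Set (XM m)) := by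
  have h1 : IsOpen {b : XM m | ‖b.1‖ < 1} := isOpen_lt (by fun_prop) continuous_const
  have h3 : IsOpen {b : XM m | b.2.1 < -1} :=
    isOpen_lt (continuous_fst.comp continuous_snd) continuous_const
  exact isOpen_ball.inter (h1.union h3)

/-- the parameters of the corridor -/
def Pr (m : ℕ) (I : Set ℝ) : Set (ℝ × ℝ × ℝ × (Fin m → ℝ)) :=
  Ioo 1 2 ×ˢ (Ioo 0 1 ×ˢ ((I ∩ Ioo (-2) 2) ×ˢ ball 0 2))

/-- the parametrisation -/
noncomputable def pp (N : ℕ) (p : ℝ × ℝ × ℝ × (Fin m → ℝ)) : XM m :=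
  ((p.1 : ℂ) * ee (N * cl (-p.2.2.1) + p.2.1), p.2.2.1, p.2.2.2)

/-- the inverse -/
noncomputable def qp (N : ℕ) (b : XM m) : ℝ × ℝ × ℝ × (Fin m → ℝ) := (‖b.1‖, sg N b, b.2.1, b.2.2)

theorem pp_continuous (N : ℕ) : Continuous (pp (m := m) N) := by
  unfold pp
  have h1 := cl_continuous
  have h2 := ee_continuous
  fun_prop

theorem pp_qp (N : ℕ) (b : XM m) : pp N (qp N b) = b := by
  refine Prod.ext ?_ rfl
  exact ee_ta N b

theorem neg_ee_slit {r s : ℝ} (hr : 0 < r) (h0 : 0 < s) (h1 : s < 1) :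
    -((r : ℂ) * ee s) ∈ Complex.slitPlane := by
  have e : -((r : ℂ) * ee s) = (r : ℂ) * Complex.exp ((2 * Real.pi * s - Real.pi : ℝ) * Complex.I) := by
    have h2 : ((2 * Real.pi * s - Real.pi : ℝ) : ℂ) * Complex.I =
        ((2 * Real.pi * s : ℝ) : ℂ) * Complex.I + (-(Real.pi * Complex.I)) := by
      push_cast
      ring
    rw [h2, Complex.exp_add, Complex.exp_neg, Complex.exp_pi_mul_I]
    unfold ee
    norm_num
  have hπ := Real.pi_pos
  have hm : 2 * Real.pi * s - Real.pi ∈ Ioc (-Real.pi) (-Real.pi + 2 * Real.pi) := by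
    constructor
    · have := mul_pos (mul_pos two_pos hπ) h0
      linarith
    · have := mul_lt_mul_of_pos_left h1 (mul_pos two_pos hπ)
      linarith
  rw [e, Complex.mem_slitPlane_iff_arg, Complex.arg_real_mul _ hr, Complex.arg_exp_mul_I,
    (toIocMod_eq_self Real.two_pi_pos).2 hm]
  refine ⟨?_, mul_ne_zero (by exact_mod_cast hr.ne') (Complex.exp_ne_zero _)⟩
  have := mul_lt_mul_of_pos_left h1 (mul_pos two_pos hπ)
  linarith

theorem sg_lt_one {N : ℕ} {b : XM m} (h : qq N b ∈ Complex.slitPlane) : sg N b < 1 := by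
  unfold sg
  have h1 := (Complex.mem_slitPlane_iff_arg.1 h).1
  have h2 := lt_of_le_of_ne (Complex.arg_le_pi (qq N b)) h1
  have h3 : Complex.arg (qq N b) / (2 * Real.pi) < 1 / 2 := by
    rw [div_lt_iff₀ (by positivity)]
    linarith
  linarith

theorem pp_mapsTo (N : ℕ) (I : Set ℝ) : MapsTo (pp N) (Pr m I) (CE N I) := by
  rintro ⟨r, s, h, y⟩ ⟨⟨hr1, hr2⟩, ⟨hs0, hs1⟩, ⟨hI, hh1, hh2⟩, hy⟩
  simp only at hr1 hr2 hs0 hs1 hI hh1 hh2 hy
  have hn : ‖(pp N (r, s, h, y)).1‖ = r := by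
    show ‖(r : ℂ) * ee _‖ = r
    rw [norm_mul, norm_ee, mul_one, Complex.norm_real, Real.norm_eq_abs, abs_of_pos (by linarith)]
  refine ⟨?_, ?_, ?_, hI⟩
  · rw [norm_lt_two]
    refine ⟨by rw [hn]; exact hr2, abs_lt.2 ⟨hh1, hh2⟩, ?_⟩
    exact mem_ball_zero_iff.1 hy
  · rw [hn]
    exact hr1
  · have e : qq N (pp N (r, s, h, y)) = -((r : ℂ) * ee s) := by
      show -((r : ℂ) * ee (N * cl (-h) + s) * ee (-(N * cl (-h)))) = _
      rw [mul_assoc, ← ee_add]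
      congr 3
      ring
    rw [e]
    exact neg_ee_slit (by linarith) hs0 hs1

theorem qp_mapsTo (N : ℕ) (I : Set ℝ) : MapsTo (qp N) (CE N I) (Pr m I) := by
  rintro b ⟨hb, h1, hq, hI⟩
  rw [norm_lt_two] at hb
  exact ⟨⟨h1, hb.1⟩, ⟨sg_pos N b, sg_lt_one hq⟩, ⟨hI, (abs_lt.1 hb.2.1).1, (abs_lt.1 hb.2.1).2⟩,
    mem_ball_zero_iff.2 hb.2.2⟩

theorem qp_continuousOn (N : ℕ) (I : Set ℝ) : ContinuousOn (qp (m := m) N) (CE N I) := by
  rintro b ⟨-, -, hq, -⟩
  have h1 := (sg_continuousAt hq).continuousWithinAt (s := CE N I)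
  unfold qp
  exact (by fun_prop : Continuous fun b : XM m => ‖b.1‖).continuousWithinAt.prodMk
    (h1.prodMk (by fun_prop : Continuous fun b : XM m => (b.2.1, b.2.2)).continuousWithinAt)

theorem Pr_convex {I : Set ℝ} (hI : Convex ℝ I) : Convex ℝ (Pr m I) :=
  (convex_Ioo 1 2).prod ((convex_Ioo 0 1).prod ((hI.inter (convex_Ioo (-2) 2)).prod
    (convex_ball 0 2)))

theorem Pr_open {I : Set ℝ} (hI : IsOpen I) : IsOpen (Pr m I) :=
  isOpen_Ioo.prod (isOpen_Ioo.prod ((hI.inter isOpen_Ioo).prod isOpen_ball))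

theorem CE_preconnected (N : ℕ) {I : Set ℝ} (hI : Convex ℝ I) : IsPreconnected (CE (m := m) N I) := by
  have h1 : CE N I = pp N '' Pr m I := by
    ext b
    constructor
    · intro hb
      exact ⟨qp N b, qp_mapsTo N I hb, pp_qp N b⟩
    · rintro ⟨p, hp, rfl⟩
      exact pp_mapsTo N I hp
  rw [h1]
  exact (Pr_convex hI).isPreconnected.image _ (pp_continuous N).continuousOn

theorem HL_empty {X : Type*} [TopologicalSpace X] : HL (∅ : Set X) := fun _ _ _ =>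
  ⟨fun _ => 0, continuousOn_empty _, fun _ hx => absurd hx (notMem_empty _)⟩

theorem CE_HL (N : ℕ) {I : Set ℝ} (hI : Convex ℝ I) (hIo : IsOpen I) : HL (CE (m := m) N I) := by
  refine HL_transport (W := Pr m I) (pp_continuous N).continuousOn (qp_continuousOn N I)
    (pp_mapsTo N I) (qp_mapsTo N I) (fun b _ => pp_qp N b) ?_
  rcases (Pr m I).eq_empty_or_nonempty with h | ⟨p, hp⟩
  · rw [h]
    exact HL_empty
  · exact HL_of_starConvex hp ((Pr_convex hI).starConvex hp) (Pr_open hIo)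

theorem PP_star : StarConvex ℝ ((0, -(3 / 2), 0) : XM m) PP := by
  rintro b ⟨hb, hb2⟩ s t hs ht hst
  have h0 : ((0, -(3 / 2), 0) : XM m) ∈ ball (0 : XM m) 2 := by
    rw [norm_lt_two]
    norm_num [abs_lt]
  refine ⟨(convex_ball (0 : XM m) 2) h0 hb hs ht hst, ?_⟩
  have e1 : (s • ((0, -(3 / 2), 0) : XM m) + t • b).1 = t • b.1 := by
    show s • (0 : ℂ) + t • b.1 = t • b.1
    rw [smul_zero, zero_add]
  have e2 : (s • ((0, -(3 / 2), 0) : XM m) + t • b).2.1 = s * (-(3 / 2)) + t * b.2.1 := rfl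
  rw [e1, e2]
  rcases hb2 with h | h
  · left
    rw [norm_smul, Real.norm_eq_abs, abs_of_nonneg ht]
    nlinarith [norm_nonneg b.1]
  · right
    rcases ht.eq_or_lt with h1 | h1
    · rw [← h1] at hst ⊢
      linarith
    · nlinarith

theorem PP_mem : ((0, -(3 / 2), 0) : XM m) ∈ PP := by
  refine ⟨?_, Or.inr (by norm_num)⟩
  rw [norm_lt_two]
  norm_num [abs_lt]

theorem PP_HL : HL (PP : Set (XM m)) := HL_of_starConvex PP_mem PP_star PP_open

theorem SI_HL (j : ℕ) {V : Set (XM m)} (h : HL V) : HL (SI j ⁻¹' V) :=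
  HL_transport (p := SS j) (q := SI j) (W := V) (SS_continuous j).continuousOn
    (SI_continuous j).continuousOn (fun b hb => by
      show SI j (SS j b) ∈ V
      rwa [SI_SS]) (fun _ hx => hx) (fun x _ => SS_SI j x) h

theorem SI_preconnected (j : ℕ) {V : Set (XM m)} (h : IsPreconnected V) :
    IsPreconnected (SI j ⁻¹' V) := by
  have h1 : SI j ⁻¹' V = SS j '' V := by
    ext x
    constructor
    · intro hx
      exact ⟨SI j x, hx, SS_SI j x⟩
    · rintro ⟨b, hb, rfl⟩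
      show SI j (SS j b) ∈ V
      rwa [SI_SS]
  rw [h1]
  exact h.image _ (SS_continuous j).continuousOn

theorem Mb_convex : Convex ℝ (Mb : Set (XM m)) := by
  have h1 : (Mb : Set (XM m)) = ball 0 3 ∩ {x | 0 < x.2.1} := by
    ext x
    simp [Mb]
  rw [h1]
  refine (convex_ball _ _).inter ?_
  intro x hx y hy s t hs ht hst
  have hx' : 0 < x.2.1 := hx
  have hy' : 0 < y.2.1 := hy
  show 0 < s * x.2.1 + t * y.2.1
  rcases hs.eq_or_lt with h | h
  · rw [← h] at hst ⊢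
    have : t = 1 := by linarith
    rw [this]
    linarith
  · have h3 : 0 < s * x.2.1 := mul_pos h hx'
    have h4 : 0 ≤ t * y.2.1 := mul_nonneg ht hy'.le
    linarith

theorem Mb_mem : ((0, 1, 0) : XM m) ∈ Mb := by
  refine ⟨?_, by norm_num⟩
  rw [Prod.norm_def, Prod.norm_def]
  simp

theorem Mb_HL : HL (Mb : Set (XM m)) := HL_of_starConvex Mb_mem (Mb_convex.starConvex Mb_mem) Mb_open

/-! ### The logarithm on the cut domain -/

/-- the domain `Ω'` with cut corridors -/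
def O2c : Set (XM m) :=
  {x | x ∈ Mb ∨ ∃ j, 1 ≤ j ∧ SI j x ∈ RD (TT j) ∧ ((SI j x).2.1 ≠ -(1 / 2) ∨ ‖(SI j x).1‖ < 1)}

/-- the body with a cut room -/
def Rj (j : ℕ) : Set (XM m) := ((Mb ∪ SI j ⁻¹' CE (TT j) (Ioi (-(1 / 2)))) ∪ SI j ⁻¹' PP) ∪
  SI j ⁻¹' CE (TT j) (Iio (-(1 / 2)))

theorem Rj_open (j : ℕ) : IsOpen (Rj (m := m) j) :=
  ((Mb_open.union ((CE_open _ isOpen_Ioi).preimage (SI_continuous j))).union
    (PP_open.preimage (SI_continuous j))).union ((CE_open _ isOpen_Iio).preimage (SI_continuous j))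

theorem CE_subset_RD {N : ℕ} {I : Set ℝ} : CE (m := m) N I ⊆ RD N := by
  rintro b ⟨hb, h1, hq, -⟩
  refine ⟨hb, ?_⟩
  rintro ⟨-, -, -, h | h⟩
  · linarith
  · exact h hq

theorem PP_subset_RD {N : ℕ} : (PP : Set (XM m)) ⊆ RD N := by
  rintro b ⟨hb, h1⟩
  refine ⟨hb, ?_⟩
  rintro ⟨h2, h3, h4, -⟩
  rcases h1 with h | h
  · linarith
  · linarith

theorem Rj_subset {j : ℕ} (hj : 1 ≤ j) : (Rj j : Set (XM m)) ⊆ O2 := by
  rintro x (((hx | hx) | hx) | hx)
  · exact Or.inl hx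
  · exact Or.inr ⟨j, hj, CE_subset_RD hx⟩
  · exact Or.inr ⟨j, hj, PP_subset_RD hx⟩
  · exact Or.inr ⟨j, hj, CE_subset_RD hx⟩

theorem mem_Mb_of {j : ℕ} {x : XM m} (h : SI j x ∈ ball (0 : XM m) 2) (h2 : 0 < (SI j x).2.1) :
    x ∈ Mb := ⟨by linarith [norm_lt_of_block h], (SI_pos_iff j x).1 h2⟩

theorem mem_Rj {j : ℕ} {x : XM m} (h : SI j x ∈ RD (TT j))
    (h2 : (SI j x).2.1 ≠ -(1 / 2) ∨ ‖(SI j x).1‖ < 1) : x ∈ Rj j := by
  rcases RD_cases h with h1 | h1 | h1 | ⟨h1, hq⟩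
  · exact Or.inl (Or.inr ⟨h.1, Or.inl h1⟩)
  · exact Or.inl (Or.inr ⟨h.1, Or.inr h1⟩)
  · exact Or.inl (Or.inl (Or.inl (mem_Mb_of h.1 h1)))
  · have h3 := h2.resolve_right (by linarith)
    rcases lt_or_gt_of_ne h3 with h4 | h4
    · exact Or.inr ⟨h.1, h1, hq, h4⟩
    · exact Or.inl (Or.inl (Or.inr ⟨h.1, h1, hq, h4⟩))

theorem convex_ball_inter : IsPreconnected {b : XM m | b ∈ ball (0 : XM m) 2 ∧ ‖b.1‖ < 1 ∧ 0 < b.2.1} := by
  have h1 : {b : XM m | b ∈ ball (0 : XM m) 2 ∧ ‖b.1‖ < 1 ∧ 0 < b.2.1} =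
      (ball (0 : ℂ) 1) ×ˢ (Ioo (0 : ℝ) 2 ×ˢ ball (0 : Fin m → ℝ) 2) := by
    ext b
    constructor
    · rintro ⟨h, h5, h6⟩
      obtain ⟨h1, h2, h4⟩ := norm_lt_two.1 h
      exact ⟨mem_ball_zero_iff.2 h5, ⟨h6, (abs_lt.1 h2).2⟩, mem_ball_zero_iff.2 h4⟩
    · rintro ⟨h5, ⟨h6, h3⟩, h4⟩
      have h5' := mem_ball_zero_iff.1 h5
      exact ⟨norm_lt_two.2 ⟨by linarith, abs_lt.2 ⟨by linarith, h3⟩, mem_ball_zero_iff.1 h4⟩, h5', h6⟩
  rw [h1]
  exact ((convex_ball _ _).prod ((convex_Ioo _ _).prod (convex_ball _ _))).isPreconnected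

theorem exists_log_Rj {j : ℕ} (hj : 1 ≤ j) {F L : XM m → ℂ} (hF : ContinuousOn F O2)
    (hF0 : ∀ x ∈ O2, F x ≠ 0) (hL : ContinuousOn L Mb) (hLF : ∀ x ∈ Mb, Complex.exp (L x) = F x) :
    ∃ L' : XM m → ℂ, ContinuousOn L' (Rj j) ∧ (∀ x ∈ Mb, L' x = L x) ∧
      ∀ x ∈ Rj j, Complex.exp (L' x) = F x := by
  have hs := Rj_subset (m := m) hj
  have hsub1 : SI j ⁻¹' CE (m := m) (TT j) (Ioi (-(1 / 2))) ⊆ O2 := fun x hx =>
    hs (Or.inl (Or.inl (Or.inr hx)))
  have hsub2 : SI j ⁻¹' (PP : Set (XM m)) ⊆ O2 := fun x hx => hs (Or.inl (Or.inr hx))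
  have hsub3 : SI j ⁻¹' CE (m := m) (TT j) (Iio (-(1 / 2))) ⊆ O2 := fun x hx => hs (Or.inr hx)
  have ho1 := (CE_open (m := m) (TT j) (isOpen_Ioi (a := -(1 / 2 : ℝ)))).preimage (SI_continuous j)
  have ho2 := (PP_open (m := m)).preimage (SI_continuous j)
  have ho3 := (CE_open (m := m) (TT j) (isOpen_Iio (a := -(1 / 2 : ℝ)))).preimage (SI_continuous j)
  -- first
  obtain ⟨L1, hL1, hL1L, hL1F⟩ := glue Mb_open ho1 (by
    have e : Mb ∩ SI j ⁻¹' CE (TT j) (Ioi (-(1 / 2))) = SI j ⁻¹' CE (m := m) (TT j) (Ioi 0) := by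
      ext x
      constructor
      · rintro ⟨h1, h2, h3, h4, -⟩
        exact ⟨h2, h3, h4, (SI_pos_iff j x).2 h1.2⟩
      · rintro ⟨h2, h3, h4, h5⟩
        have h6 : 0 < (SI j x).2.1 := h5
        exact ⟨mem_Mb_of h2 h5, h2, h3, h4, by show -(1 / 2) < (SI j x).2.1; linarith⟩
    rw [e]
    exact SI_preconnected j (CE_preconnected _ (convex_Ioi 0)))
    (hF.mono hsub1) (fun x hx => hF0 x (hsub1 hx)) hL hLF
    (SI_HL j (CE_HL (TT j) (convex_Ioi _) isOpen_Ioi))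
  -- second
  obtain ⟨L2, hL2, hL2L, hL2F⟩ := glue (Mb_open.union ho1) ho2 (by
    have e : (Mb ∪ SI j ⁻¹' CE (TT j) (Ioi (-(1 / 2)))) ∩ SI j ⁻¹' PP =
        SI j ⁻¹' {b : XM m | b ∈ ball (0 : XM m) 2 ∧ ‖b.1‖ < 1 ∧ 0 < b.2.1} := by
      ext x
      constructor
      · rintro ⟨h1 | ⟨h2, h3, h4, h5⟩, h6, h7⟩
        · have h8 := (SI_pos_iff j x).2 h1.2
          refine ⟨h6, h7.resolve_right (by linarith), h8⟩
        · have h9 : -(1 / 2) < (SI j x).2.1 := h5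
          rcases h7 with h8 | h8
          · linarith
          · linarith
      · rintro ⟨h1, h2, h3⟩
        exact ⟨Or.inl (mem_Mb_of h1 h3), h1, Or.inl h2⟩
    rw [e]
    exact SI_preconnected j convex_ball_inter)
    (hF.mono hsub2) (fun x hx => hF0 x (hsub2 hx)) hL1 hL1F (SI_HL j PP_HL)
  -- third
  obtain ⟨L3, hL3, hL3L, hL3F⟩ := glue ((Mb_open.union ho1).union ho2) ho3 (by
    have e : ((Mb ∪ SI j ⁻¹' CE (TT j) (Ioi (-(1 / 2)))) ∪ SI j ⁻¹' PP) ∩
        SI j ⁻¹' CE (TT j) (Iio (-(1 / 2))) = SI j ⁻¹' CE (m := m) (TT j) (Iio (-1)) := by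
      ext x
      constructor
      · rintro ⟨(h1 | ⟨-, -, -, h1⟩) | ⟨-, h1⟩, h2, h3, h4, h5⟩
        · have h6 := (SI_pos_iff j x).2 h1.2
          have h7 : (SI j x).2.1 < -(1 / 2) := h5
          linarith
        · have h6 : -(1 / 2) < (SI j x).2.1 := h1
          have h7 : (SI j x).2.1 < -(1 / 2) := h5
          linarith
        · exact ⟨h2, h3, h4, h1.resolve_left (by linarith)⟩
      · rintro ⟨h2, h3, h4, h5⟩
        have h6 : (SI j x).2.1 < -1 := h5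
        refine ⟨Or.inr ⟨h2, Or.inr h6⟩, h2, h3, h4, ?_⟩
        show (SI j x).2.1 < -(1 / 2)
        linarith
    rw [e]
    exact SI_preconnected j (CE_preconnected _ (convex_Iio _)))
    (hF.mono hsub3) (fun x hx => hF0 x (hsub3 hx)) hL2 hL2F
    (SI_HL j (CE_HL (TT j) (convex_Iio _) isOpen_Iio))
  refine ⟨L3, hL3, fun x hx => ?_, hL3F⟩
  rw [hL3L x (Or.inl (Or.inl hx)), hL2L x (Or.inl hx), hL1L x hx]

theorem exists_log_O2c {F : XM m → ℂ} (hF : ContinuousOn F O2) (hF0 : ∀ x ∈ O2, F x ≠ 0) :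
    ∃ L : XM m → ℂ, ContinuousOn L O2c ∧ ∀ x ∈ O2c, Complex.exp (L x) = F x := by
  have hMs : (Mb : Set (XM m)) ⊆ O2 := fun x hx => Or.inl hx
  obtain ⟨LM, hLM, hLMF⟩ := Mb_HL F (hF.mono hMs) (fun x hx => hF0 x (hMs hx))
  have hex : ∀ j : ℕ, ∃ L' : XM m → ℂ, (1 ≤ j → ContinuousOn L' (Rj j) ∧
      ∀ x ∈ Rj j, Complex.exp (L' x) = F x) ∧ ∀ x ∈ Mb, L' x = LM x := by
    intro j
    by_cases hj : 1 ≤ j
    · obtain ⟨L', h1, h2, h3⟩ := exists_log_Rj hj hF hF0 hLM hLMF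
      exact ⟨L', fun _ => ⟨h1, h3⟩, h2⟩
    · exact ⟨LM, fun h => absurd h hj, fun _ _ => rfl⟩
  choose LL' hLL1 hLL2 using hex
  classical
  let L : XM m → ℂ := fun x => if h : ∃ j, SI j x ∈ ball (0 : XM m) 2 then LL' h.choose x else LM x
  have hLj : ∀ {j : ℕ} {x : XM m}, SI j x ∈ ball (0 : XM m) 2 → L x = LL' j x := by
    intro j x h
    have hex : ∃ j, SI j x ∈ ball (0 : XM m) 2 := ⟨j, h⟩
    show (if h : ∃ j, SI j x ∈ ball (0 : XM m) 2 then LL' h.choose x else LM x) = _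
    rw [dif_pos hex, SI_unique hex.choose_spec h]
  have hLMb : ∀ {x : XM m}, x ∈ Mb → L x = LM x := by
    intro x hx
    by_cases hex : ∃ j, SI j x ∈ ball (0 : XM m) 2
    · obtain ⟨j, hj⟩ := hex
      rw [hLj hj, hLL2 j x hx]
    · exact dif_neg hex
  refine ⟨L, ?_, ?_⟩
  · rintro x (hx | ⟨j, hj, hx, hx2⟩)
    · have h1 : ContinuousAt LM x := hLM.continuousAt (Mb_open.mem_nhds hx)
      refine (h1.congr ?_).continuousWithinAt
      filter_upwards [Mb_near hx] with y hy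
      exact (hLMb hy).symm
    · have h1 : ContinuousAt (LL' j) x :=
        (hLL1 j hj).1.continuousAt ((Rj_open j).mem_nhds (mem_Rj hx hx2))
      refine (h1.congr ?_).continuousWithinAt
      filter_upwards [(isOpen_ball.preimage (SI_continuous j)).mem_nhds hx.1] with y hy
      exact (hLj hy).symm
  · rintro x (hx | ⟨j, hj, hx, hx2⟩)
    · rw [hLMb hx]
      exact hLMF x hx
    · rw [hLj hx.1]
      exact (hLL1 j hj).2 x (mem_Rj hx hx2)

end Pool.Agent.K6.H31.WC
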