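import Pool.Agent.K6.H31.WC.Coord

/-!
# Lower bound for the energy of homeomorphisms of `Ω` onto `Ω'`
-/

set_option autoImplicit false

open Set Filter Topology MeasureTheory Metric
open scoped ContDiff ENNReal NNReal

namespace Pool.Agent.K6.H31.WC

open Pool.Agent.K6.H31.WS (EE iota HasLog not_hasLog_exp HasWeakGrad exists_mollified)

variable {m : ℕ}

/-- `Ω` -/
def E1 (m : ℕ) : Set (EE m) := io m ⁻¹' O1

/-- `Ω'` -/
def E2 (m : ℕ) : Set (EE m) := io m ⁻¹' O2

theorem O1_open : IsOpen (O1 : Set (XM m)) := Om_open _ _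

theorem O2_open : IsOpen (O2 : Set (XM m)) := Om_open _ _

theorem E1_open : IsOpen (E1 m) := O1_open.preimage (io m).continuous

theorem E2_open : IsOpen (E2 m) := O2_open.preimage (io m).continuous

theorem K0_subset : K0 m ⊆ E1 m := fun _ hx => Or.inr ⟨0, mem_univ _, K0_room hx⟩

/-- the neighbourhood on which the limit vanishes -/
def U0 (m : ℕ) : Set (EE m) := E1 m ∩ io m ⁻¹' Zn

theorem U0_open : IsOpen (U0 m) := E1_open.inter (Zn_open.preimage (io m).continuous)

theorem K0_subset_U0 : K0 m ⊆ U0 m := fun _ hx => ⟨K0_subset hx, K0_Zn hx⟩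

/-- the constant -/
noncomputable def cst (m : ℕ) (B : ℝ≥0) : ℝ≥0∞ :=
  ‖((io m : EE m ≃L[ℝ] XM m) : EE m →L[ℝ] XM m)‖ₑ * B

theorem loop_bound {g g' : EE m → EE m}
    (hg : ContinuousOn g (E1 m)) (hgm : MapsTo g (E1 m) (E2 m))
    (hg' : ContinuousOn g' (E2 m)) (hgm' : MapsTo g' (E2 m) (E1 m))
    (hgg : ∀ x ∈ E1 m, g' (g x) = x) {h : EE m → EE m} (hh : ContDiff ℝ 1 h)
    {ε : ℝ} (hε : cthickening ε (g '' K0 m) ⊆ E2 m) (hhg : ∀ x ∈ K0 m, ‖h x - g x‖ ≤ ε)
    {x : EE m} (hx : x ∈ K0 m) :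
    1 ≤ ∫ θ in (0 : ℝ)..2 * Real.pi, ‖io m (fderiv ℝ h (circ m θ x) (circ' m θ x))‖ := by
  by_contra hlt
  push Not at hlt
  set F : XM m → ℂ := fun z => zt (io m (g' ((io m).symm z))) with hF
  have hmt : MapsTo (io m).symm (O2 : Set (XM m)) (E2 m) := by
    intro z hz
    show io m ((io m).symm z) ∈ O2
    rwa [ContinuousLinearEquiv.apply_symm_apply]
  have hFc : ContinuousOn F O2 := by
    have h1 : ContinuousOn (fun z => g' ((io m).symm z)) O2 :=
      hg'.comp (io m).symm.continuous.continuousOn hmt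
    exact (zt_continuous.comp (io m).continuous).comp_continuousOn h1
  have hF0 : ∀ z ∈ O2, F z ≠ 0 := fun z hz => zt_ne_zero (hgm' (hmt hz))
  have hrotK : ∀ θ, circ m θ x ∈ K0 m := fun θ => circ_mem_K0 θ hx
  have hseg : ∀ (s θ : ℝ), 0 ≤ s → s ≤ 1 →
      g (circ m θ x) + s • (h (circ m θ x) - g (circ m θ x)) ∈ E2 m := by
    intro s θ hs0 hs1
    apply hε
    apply mem_cthickening_of_dist_le _ (g (circ m θ x)) _ _ (mem_image_of_mem g (hrotK θ))
    rw [dist_eq_norm, add_sub_cancel_left, norm_smul, Real.norm_eq_abs, abs_of_nonneg hs0]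
    have h1 := hhg _ (hrotK θ)
    nlinarith [norm_nonneg (h (circ m θ x) - g (circ m θ x))]
  have hrotc : Continuous fun θ => circ m θ x :=
    circ_continuous.comp (continuous_id.prodMk continuous_const)
  have hrotc' : Continuous fun θ => circ' m θ x :=
    circ'_continuous.comp (continuous_id.prodMk continuous_const)
  -- the short loop
  have hL := hasLog_of_short hFc hF0 (γ := fun θ => io m (h (circ m θ x)))
    (γ' := fun θ => io m (fderiv ℝ h (circ m θ x) (circ' m θ x))) (fun θ => by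
      have h1 : HasDerivAt (fun θ => h (circ m θ x)) (fderiv ℝ h (circ m θ x) (circ' m θ x)) θ :=
        ((hh.differentiable one_ne_zero).differentiableAt.hasFDerivAt).comp_hasDerivAt θ
          (hasDerivAt_circ θ x)
      exact ((io m : EE m ≃L[ℝ] XM m) : EE m →L[ℝ] XM m).hasFDerivAt.comp_hasDerivAt θ h1)
    ((io m).continuous.comp (((hh.continuous_fderiv one_ne_zero).comp hrotc).clm_apply hrotc'))
    (fun θ => by
      show io m (h (circ m (θ + 2 * Real.pi) x)) = _
      rw [circ_two_pi])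
    (fun θ => by
      have h1 := hseg 1 θ zero_le_one le_rfl
      rw [one_smul, add_sub_cancel] at h1
      exact h1) hlt
  -- the homotopy from `h` to `g`
  let c : ℝ → ℝ := fun s => max 0 (min 1 s)
  have hc0 : ∀ s, 0 ≤ c s := fun s => le_max_left _ _
  have hc1 : ∀ s, c s ≤ 1 := fun s => max_le zero_le_one (min_le_left _ _)
  have hcc : Continuous c := by fun_prop
  have hcz : c 0 = 0 := by
    show max 0 (min 1 0) = (0 : ℝ)
    norm_num
  have hco : c 1 = 1 := by
    show max 0 (min 1 1) = (1 : ℝ)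
    norm_num
  let A : ℝ × ℝ → XM m := fun p =>
    io m (g (circ m p.2 x) + c p.1 • (h (circ m p.2 x) - g (circ m p.2 x)))
  have hAD : ∀ p, A p ∈ O2 := fun p => hseg (c p.1) p.2 (hc0 _) (hc1 _)
  have hgc : Continuous fun θ => g (circ m θ x) :=
    hg.comp_continuous hrotc fun θ => K0_subset (hrotK θ)
  have hAc : Continuous A := by
    apply (io m).continuous.comp
    have h1 : Continuous fun p : ℝ × ℝ => g (circ m p.2 x) := hgc.comp continuous_snd
    have h2 : Continuous fun p : ℝ × ℝ => h (circ m p.2 x) :=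
      hh.continuous.comp (hrotc.comp continuous_snd)
    exact h1.add ((hcc.comp continuous_fst).smul (h2.sub h1))
  have h1 := HasLog.of_homotopy (H := fun p => F (A p)) (hFc.comp_continuous hAc hAD)
    (fun p => hF0 _ (hAD p)) (fun s θ => by
      show F (A (s, θ + 2 * Real.pi)) = F (A (s, θ))
      have : A (s, θ + 2 * Real.pi) = A (s, θ) := by
        show io m (g (circ m (θ + 2 * Real.pi) x) + c s • (h (circ m (θ + 2 * Real.pi) x) -
          g (circ m (θ + 2 * Real.pi) x))) = io m (g (circ m θ x) + c s • (h (circ m θ x) -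
          g (circ m θ x)))
        rw [circ_two_pi]
      rw [this]) (by
        have h2 : (fun θ => (fun p => F (A p)) ((1 : ℝ), θ)) =
            fun θ => F (io m (h (circ m θ x))) := by
          funext θ
          have h3 : A (1, θ) = io m (h (circ m θ x)) := by
            show io m (g (circ m θ x) + c 1 • (h (circ m θ x) - g (circ m θ x))) = _
            rw [hco, one_smul, add_sub_cancel]
          show F (A (1, θ)) = _
          rw [h3]
        rw [h2]
        exact hL)
  have h2 : (fun θ => (fun p => F (A p)) ((0 : ℝ), θ)) = fun θ => zt (io m (circ m θ x)) := by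
    funext θ
    have h3 : A (0, θ) = io m (g (circ m θ x)) := by
      show io m (g (circ m θ x) + c 0 • (h (circ m θ x) - g (circ m θ x))) = _
      rw [hcz, zero_smul, add_zero]
    show F (A (0, θ)) = _
    rw [h3, hF]
    simp only
    rw [ContinuousLinearEquiv.symm_apply_apply, hgg _ (K0_subset (hrotK θ))]
  rw [h2] at h1
  -- the homotopy to a circle
  have hz : Continuous fun θ => zt (io m (circ m θ x)) :=
    zt_continuous.comp ((io m).continuous.comp hrotc)
  have hPc : Continuous fun θ : ℝ => 32 * Pc (circ m θ x) := by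
    have : (fun θ : ℝ => 32 * Pc (circ m θ x)) =
        fun θ : ℝ => 32 * (Complex.exp (θ * Complex.I) * Pc x) := by
      funext θ
      rw [Pc_circ]
    rw [this]
    fun_prop
  have h3 := HasLog.of_homotopy (H := fun p : ℝ × ℝ => 32 * Pc (circ m p.2 x) +
    (c p.1 : ℂ) * (zt (io m (circ m p.2 x)) - 32 * Pc (circ m p.2 x))) (by
      have e1 : Continuous fun p : ℝ × ℝ => 32 * Pc (circ m p.2 x) := hPc.comp continuous_snd
      have e2 : Continuous fun p : ℝ × ℝ => zt (io m (circ m p.2 x)) := hz.comp continuous_snd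
      have e3 : Continuous fun p : ℝ × ℝ => (c p.1 : ℂ) :=
        Complex.continuous_ofReal.comp (hcc.comp continuous_fst)
      exact e1.add (e3.mul (e2.sub e1)))
    (fun p hp => by
      have e1 := zt_near (hrotK p.2)
      have e2 := (hrotK p.2).1
      have e3 : 32 * Pc (circ m p.2 x) =
          -((c p.1 : ℂ) * (zt (io m (circ m p.2 x)) - 32 * Pc (circ m p.2 x))) := by
        linear_combination hp
      have e4 := congrArg norm e3
      rw [norm_neg, norm_mul, norm_mul, Complex.norm_real, Real.norm_eq_abs,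
        abs_of_nonneg (hc0 _)] at e4
      have e5 : ‖(32 : ℂ)‖ = 32 := by norm_num
      rw [e5] at e4
      have e6 := hc1 p.1
      have e7 := hc0 p.1
      nlinarith [norm_nonneg (zt (io m (circ m p.2 x)) - 32 * Pc (circ m p.2 x))])
    (fun s θ => by
      show 32 * Pc (circ m (θ + 2 * Real.pi) x) + (c s : ℂ) *
        (zt (io m (circ m (θ + 2 * Real.pi) x)) - 32 * Pc (circ m (θ + 2 * Real.pi) x)) = _
      rw [circ_two_pi])
    (by
      have e : (fun θ => (fun p : ℝ × ℝ => 32 * Pc (circ m p.2 x) +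
          (c p.1 : ℂ) * (zt (io m (circ m p.2 x)) - 32 * Pc (circ m p.2 x))) ((1 : ℝ), θ)) =
          fun θ => zt (io m (circ m θ x)) := by
        funext θ
        simp only
        rw [hco]
        push_cast
        ring
      rw [e]
      exact h1)
  have h4 : (fun θ => (fun p : ℝ × ℝ => 32 * Pc (circ m p.2 x) +
      (c p.1 : ℂ) * (zt (io m (circ m p.2 x)) - 32 * Pc (circ m p.2 x))) ((0 : ℝ), θ)) =
      fun θ : ℝ => Complex.exp (θ * Complex.I) * (32 * Pc x) := by
    funext θ
    simp only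
    rw [hcz, Pc_circ]
    push_cast
    ring
  rw [h4] at h3
  refine not_hasLog_exp ?_ h3
  refine mul_ne_zero (by norm_num) ?_
  rw [← norm_pos_iff]
  have := hx.1
  linarith

theorem energy_lower {g g' : EE m → EE m} {G : EE m → EE m →L[ℝ] EE m}
    (hg : ContinuousOn g (E1 m)) (hgm : MapsTo g (E1 m) (E2 m))
    (hg' : ContinuousOn g' (E2 m)) (hgm' : MapsTo g' (E2 m) (E1 m))
    (hgg : ∀ x ∈ E1 m, g' (g x) = x) (hG : IntegrableOn G (U0 m))
    (hw : HasWeakGrad (U0 m) g G) {B : ℝ≥0} (hB : ∀ x ∈ K0 m, ‖x - c0 m‖ ≤ B) :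
    volume (K0 m) ≤ cst m B * ENNReal.ofReal (2 * Real.pi) * ∫⁻ x in U0 m, ‖G x‖ₑ := by
  have hKc : IsCompact (g '' K0 m) := (K0_compact m).image_of_continuousOn (hg.mono K0_subset)
  obtain ⟨ε, hε, hεs⟩ := hKc.exists_cthickening_subset_open E2_open
    (image_subset_iff.2 fun x hx => hgm (K0_subset hx))
  obtain ⟨h, hh, hhg, hhG⟩ := exists_mollified U0_open (hg.mono inter_subset_left) hG hw
    (K0_compact m) K0_subset_U0 hε
  have hKm : MeasurableSet (K0 m) := (K0_compact m).measurableSet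
  have hdh : Continuous fun x => fderiv ℝ h x := hh.continuous_fderiv one_ne_zero
  have h1 : ∀ x ∈ K0 m, 1 ≤ cst m B *
      ∫⁻ θ in Ioc 0 (2 * Real.pi), ‖fderiv ℝ h (circ m θ x)‖ₑ := by
    intro x hx
    have h2 := loop_bound hg hgm hg' hgm' hgg hh hεs hhg hx
    have hrotc : Continuous fun θ => circ m θ x :=
      circ_continuous.comp (continuous_id.prodMk continuous_const)
    have hrotc' : Continuous fun θ => circ' m θ x :=
      circ'_continuous.comp (continuous_id.prodMk continuous_const)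
    have hcont : Continuous fun θ => io m (fderiv ℝ h (circ m θ x) (circ' m θ x)) :=
      (io m).continuous.comp ((hdh.comp hrotc).clm_apply hrotc')
    rw [intervalIntegral.integral_of_le (by positivity)] at h2
    have h3 : ENNReal.ofReal (∫ θ in Ioc 0 (2 * Real.pi),
        ‖io m (fderiv ℝ h (circ m θ x) (circ' m θ x))‖) =
        ∫⁻ θ in Ioc 0 (2 * Real.pi), ‖io m (fderiv ℝ h (circ m θ x) (circ' m θ x))‖ₑ := by
      rw [ofReal_integral_norm_eq_lintegral_enorm]
      exact (hcont.integrableOn_Icc).mono_set Ioc_subset_Icc_self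
    have h0 : (1 : ℝ≥0∞) = ENNReal.ofReal 1 := ENNReal.ofReal_one.symm
    rw [h0]
    refine (ENNReal.ofReal_le_ofReal h2).trans ?_
    have hmm : Measurable fun θ => ‖fderiv ℝ h (circ m θ x)‖ₑ :=
      (hdh.comp hrotc).measurable.enorm
    rw [h3, ← lintegral_const_mul _ hmm]
    refine lintegral_mono fun θ => ?_
    have h4 : ‖io m (fderiv ℝ h (circ m θ x) (circ' m θ x))‖ₑ ≤
        ‖((io m : EE m ≃L[ℝ] XM m) : EE m →L[ℝ] XM m)‖ₑ *
          (‖fderiv ℝ h (circ m θ x)‖ₑ * ‖circ' m θ x‖ₑ) := by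
      refine (ContinuousLinearMap.le_opENorm ((io m : EE m ≃L[ℝ] XM m) : EE m →L[ℝ] XM m) _).trans ?_
      gcongr
      exact ContinuousLinearMap.le_opENorm _ _
    refine h4.trans ?_
    have h5 : ‖circ' m θ x‖ₑ ≤ B := by
      rw [enorm_le_coe, ← NNReal.coe_le_coe, coe_nnnorm]
      exact (norm_circ' θ x).trans (hB x hx)
    calc _ ≤ ‖((io m : EE m ≃L[ℝ] XM m) : EE m →L[ℝ] XM m)‖ₑ *
          (‖fderiv ℝ h (circ m θ x)‖ₑ * B) := by gcongr
      _ = _ := by
          unfold cst
          ring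
  have hmeas : Measurable fun p : EE m × ℝ => ‖fderiv ℝ h (circ m p.2 p.1)‖ₑ :=
    (hdh.comp (circ_continuous.comp (continuous_snd.prodMk continuous_fst))).measurable.enorm
  calc volume (K0 m) = ∫⁻ x in K0 m, 1 := by
        rw [setLIntegral_const, one_mul]
    _ ≤ ∫⁻ x in K0 m, cst m B * ∫⁻ θ in Ioc 0 (2 * Real.pi), ‖fderiv ℝ h (circ m θ x)‖ₑ :=
        setLIntegral_mono' hKm h1
    _ = cst m B * ∫⁻ x in K0 m, ∫⁻ θ in Ioc 0 (2 * Real.pi), ‖fderiv ℝ h (circ m θ x)‖ₑ := by
        rw [lintegral_const_mul]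
        exact hmeas.lintegral_prod_right'
    _ = cst m B * ∫⁻ θ in Ioc 0 (2 * Real.pi), ∫⁻ x in K0 m, ‖fderiv ℝ h (circ m θ x)‖ₑ := by
        rw [lintegral_lintegral_swap]
        exact hmeas.aemeasurable
    _ = cst m B * ∫⁻ θ in Ioc 0 (2 * Real.pi), ∫⁻ x in K0 m, ‖fderiv ℝ h x‖ₑ := by
        congr 1
        refine lintegral_congr fun θ => ?_
        have h2 := (circ_measurePreserving (m := m) θ).setLIntegral_comp_preimage hKm
          (f := fun x => ‖fderiv ℝ h x‖ₑ) hdh.measurable.enorm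
        rw [circ_preimage_K0] at h2
        exact h2
    _ = cst m B * ENNReal.ofReal (2 * Real.pi) * ∫⁻ x in K0 m, ‖fderiv ℝ h x‖ₑ := by
        rw [setLIntegral_const, Real.volume_Ioc, sub_zero]
        ring
    _ ≤ cst m B * ENNReal.ofReal (2 * Real.pi) * ∫⁻ x in U0 m, ‖G x‖ₑ := by
        gcongr

end Pool.Agent.K6.H31.WC
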