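import Pool.Agent.K6.H31.WC.Dom

/-!
# The homeomorphisms of `Ω` onto `Ω'` in the model space
-/

set_option autoImplicit false

open Set Filter Topology Metric

namespace Pool.Agent.K6.H31.WC

variable {m : ℕ}

/-- the body -/
def Mb : Set (XM m) := {x | ‖x‖ < 3 ∧ 0 < x.2.1}

/-- the body with the rooms `j ∈ J` of the types `t j` -/
def Om (t : ℕ → ℕ) (J : Set ℕ) : Set (XM m) := {x | x ∈ Mb ∨ ∃ j ∈ J, SI j x ∈ RD (t j)}

theorem Mb_open : IsOpen (Mb : Set (XM m)) :=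
  (isOpen_lt continuous_norm continuous_const).inter
    (isOpen_lt continuous_const (continuous_fst.comp continuous_snd))

theorem Om_open (t : ℕ → ℕ) (J : Set ℕ) : IsOpen (Om (m := m) t J) := by
  have : (Om t J : Set (XM m)) = Mb ∪ ⋃ j ∈ J, SI j ⁻¹' RD (t j) := by
    ext x
    simp [Om]
  rw [this]
  exact Mb_open.union (isOpen_biUnion fun j _ => (RD_open _).preimage (SI_continuous j))

theorem norm_lt_of_block {j : ℕ} {x : XM m} (h : SI j x ∈ ball (0 : XM m) 2) : ‖x‖ < 17 / 16 := by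
  have h1 := (norm_SS_bounds j h).2
  rw [SS_SI] at h1
  have h2 : (1 / 4 : ℝ) ^ j ≤ 1 := (qk_bounds j).2
  linarith

theorem Om_norm {t : ℕ → ℕ} {J : Set ℕ} {x : XM m} (h : x ∈ Om t J) : ‖x‖ < 3 := by
  rcases h with h | ⟨j, -, h⟩
  · exact h.1
  · linarith [norm_lt_of_block h.1]

open Classical in
/-- the change of the rooms -/
noncomputable def Th (t t' : ℕ → ℕ) (x : XM m) : XM m :=
  if h : ∃ j, SI j x ∈ ball (0 : XM m) 2 then
    SS h.choose (RM (t h.choose) (t' h.choose) (SI h.choose x)) else x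

theorem Th_eq {t t' : ℕ → ℕ} {j : ℕ} {x : XM m} (h : SI j x ∈ ball (0 : XM m) 2) :
    Th t t' x = SS j (RM (t j) (t' j) (SI j x)) := by
  have hex : ∃ j, SI j x ∈ ball (0 : XM m) 2 := ⟨j, h⟩
  unfold Th
  rw [dif_pos hex]
  have : hex.choose = j := SI_unique hex.choose_spec h
  rw [this]

theorem Th_of_not {t t' : ℕ → ℕ} {x : XM m} (h : ¬ ∃ j, SI j x ∈ ball (0 : XM m) 2) :
    Th t t' x = x := by
  unfold Th
  rw [dif_neg h]

theorem Th_of_pos {t t' : ℕ → ℕ} (ht : ∀ j, Ty (t j)) {x : XM m} (h : 0 ≤ x.2.1) :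
    Th t t' x = x := by
  by_cases hex : ∃ j, SI j x ∈ ball (0 : XM m) 2
  · obtain ⟨j, hj⟩ := hex
    rw [Th_eq hj, RM_of_nonneg (ht j), SS_SI]
    rw [SI_height]
    positivity
  · exact Th_of_not hex

theorem Th_of_eq {t t' : ℕ → ℕ} {j : ℕ} {x : XM m} (h : SI j x ∈ ball (0 : XM m) 2)
    (htt : t j = t' j) : Th t t' x = x := by
  rw [Th_eq h]
  unfold RM
  rw [if_pos (Or.inr htt), SS_SI]

theorem Th_mem {t t' : ℕ → ℕ} (ht : ∀ j, Ty (t j)) (ht' : ∀ j, Ty (t' j)) {J : Set ℕ} {x : XM m}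
    (hx : x ∈ Om t J) : Th t t' x ∈ Om t' J := by
  rcases hx with hx | ⟨j, hj, hx⟩
  · rw [Th_of_pos ht hx.2.le]
    exact Or.inl hx
  · refine Or.inr ⟨j, hj, ?_⟩
    rw [Th_eq hx.1, SI_SS]
    exact RM_mem (ht j) (ht' j) hx

theorem Th_Th {t t' : ℕ → ℕ} (ht : ∀ j, Ty (t j)) (ht' : ∀ j, Ty (t' j)) (x : XM m) :
    Th t' t (Th t t' x) = x := by
  by_cases hex : ∃ j, SI j x ∈ ball (0 : XM m) 2
  · obtain ⟨j, hj⟩ := hex
    rw [Th_eq hj]
    have h1 : SI j (SS j (RM (t j) (t' j) (SI j x))) ∈ ball (0 : XM m) 2 := by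
      rw [SI_SS]
      exact RM_ball (ht j) (ht' j) hj
    rw [Th_eq h1, SI_SS, RM_RM (ht j) (ht' j), SS_SI]
  · rw [Th_of_not hex, Th_of_not hex]

/-- `Th` near a point of a block -/
theorem Th_near {t t' : ℕ → ℕ} {j : ℕ} {x : XM m} (h : SI j x ∈ ball (0 : XM m) 2) :
    ∀ᶠ y in 𝓝 x, SI j y ∈ ball (0 : XM m) 2 ∧ Th t t' y = SS j (RM (t j) (t' j) (SI j y)) := by
  filter_upwards [(isOpen_ball.preimage (SI_continuous j)).mem_nhds h] with y hy
  exact ⟨hy, Th_eq hy⟩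

theorem Mb_near {x : XM m} (h : x ∈ Mb) : ∀ᶠ y in 𝓝 x, y ∈ Mb := Mb_open.mem_nhds h

theorem SRS_LL {p q i j : ℕ} (hp : Ty p) (hq : Ty q) {x : XM m} (h : SI j x ∈ RD p) :
    LL (fun y => SS i (RM p q (SI j y))) ((1 / 4 : ℝ) ^ i * 4 ^ j * cR p q) x := by
  have h1 : LL (SI (m := m) j) (32 * 4 ^ j) x := LL.of_lip fun y z => (SI_sub j y z).le
  have h2 : LL (fun y => RM p q (SI j y)) (cR p q * (32 * 4 ^ j)) x :=
    LL.comp (by linarith [cR_ge p q hp]) (RM_LL hp hq h) h1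
  have h3 : LL (SS (m := m) i) ((1 / 4 : ℝ) ^ i / 32) (RM p q (SI j x)) :=
    LL.of_lip fun y z => (SS_sub i y z).le
  refine (LL.comp (f := fun y => RM p q (SI j y)) (g := SS i) (by positivity) h3 h2).mono (le_of_eq ?_)
  ring

theorem Th_continuousAt {t t' : ℕ → ℕ} (ht : ∀ j, Ty (t j)) (ht' : ∀ j, Ty (t' j)) {J : Set ℕ}
    {x : XM m} (hx : x ∈ Om t J) : ContinuousAt (Th t t') x := by
  rcases hx with hx | ⟨j, hj, hx⟩
  · have h1 : Th t t' =ᶠ[𝓝 x] id := by
      filter_upwards [Mb_near hx] with y hy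
      exact Th_of_pos ht hy.2.le
    exact continuousAt_id.congr h1.symm
  · have h1 := (SRS_LL (i := j) (ht j) (ht' j) hx).continuousAt
    refine h1.congr ?_
    filter_upwards [Th_near (t := t) (t' := t') hx.1] with y hy
    exact hy.2.symm

/-! ### The types and the homeomorphisms -/

/-- the types of the rooms of `Ω` -/
def TT (j : ℕ) : ℕ := if j = 0 then 0 else 4 ^ (j + 3)

theorem TT_zero : TT 0 = 0 := rfl

theorem TT_pos {j : ℕ} (h : j ≠ 0) : TT j = 4 ^ (j + 3) := by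
  unfold TT
  rw [if_neg h]

theorem TT_ty (j : ℕ) : Ty (TT j) := by
  by_cases h : j = 0
  · exact Or.inl (by rw [h]; rfl)
  · right
    rw [TT_pos h]
    calc 2 ≤ 4 ^ 1 := by norm_num
      _ ≤ 4 ^ (j + 3) := Nat.pow_le_pow_right (by norm_num) (by omega)

/-- `Ω` -/
def O1 : Set (XM m) := Om TT univ

/-- `Ω'` -/
def O2 : Set (XM m) := Om TT {j | 1 ≤ j}

/-- the homeomorphism `f_k` -/
noncomputable def fX (k : ℕ) (x : XM m) : XM m := Fb k (Th TT (TT ∘ sigma k) x)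

/-- its inverse -/
noncomputable def gX (k : ℕ) (x : XM m) : XM m := Th (TT ∘ sigma k) TT ((FbH k).symm x)

theorem Fb_mem_Mb {k : ℕ} {x : XM m} : Fb k x ∈ Mb ↔ x ∈ Mb := by
  obtain ⟨c, hc, h⟩ := Fb_height k x
  constructor
  · rintro ⟨h1, h2⟩
    rw [h] at h2
    refine ⟨?_, pos_of_mul_pos_of_pos_left' h2 hc⟩
    by_contra h3
    push Not at h3
    rw [Fb_of_big (by linarith)] at h1
    linarith
  · rintro ⟨h1, h2⟩
    refine ⟨(norm_Fb_le k x).trans_lt h1, ?_⟩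
    rw [h]
    positivity
where
  pos_of_mul_pos_of_pos_left' {a b : ℝ} (h : 0 < a * b) (ha : 0 < a) : 0 < b :=
    (mul_pos_iff_of_pos_left ha).1 h

theorem fX_mem {k : ℕ} (hk : 1 ≤ k) {x : XM m} (hx : x ∈ O1) : fX k x ∈ O2 := by
  have h1 := Th_mem TT_ty (fun j => TT_ty (sigma k j)) (t' := TT ∘ sigma k) hx
  unfold fX
  rcases h1 with h1 | ⟨j, -, h1⟩
  · exact Or.inl (Fb_mem_Mb.2 h1)
  · refine Or.inr ⟨sigma k j, sigma_pos hk j, ?_⟩
    have h2 := Fb_SS hk j h1.1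
    rw [SS_SI] at h2
    rw [h2, SI_SS]
    exact h1

theorem symm_mem {k : ℕ} (hk : 1 ≤ k) {y : XM m} (hy : y ∈ O2) :
    (FbH k).symm y ∈ Om (m := m) (TT ∘ sigma k) univ := by
  rcases hy with hy | ⟨i, hi, hy⟩
  · refine Or.inl (Fb_mem_Mb (k := k).1 ?_)
    have : Fb k ((FbH k).symm y) = y := (FbH k).apply_symm_apply y
    rw [this]
    exact hy
  · obtain ⟨j, hj⟩ := sigma_surj hk hi
    refine Or.inr ⟨j, mem_univ _, ?_⟩
    have h2 := Fb_SS hk j hy.1
    rw [hj, SS_SI] at h2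
    have h3 : (FbH k).symm y = SS j (SI i y) := by
      have h4 : (FbH k).symm (Fb k (SS j (SI i y))) = SS j (SI i y) := (FbH k).symm_apply_apply _
      rwa [h2] at h4
    rw [h3, SI_SS]
    show SI i y ∈ RD (TT (sigma k j))
    rw [hj]
    exact hy

theorem gX_mem {k : ℕ} (hk : 1 ≤ k) {y : XM m} (hy : y ∈ O2) : gX k y ∈ (O1 : Set (XM m)) :=
  Th_mem (fun j => TT_ty (sigma k j)) TT_ty (symm_mem hk hy)

theorem gX_fX (k : ℕ) (x : XM m) : gX k (fX k x) = x := by
  unfold gX fX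
  rw [show (FbH k).symm (Fb k (Th TT (TT ∘ sigma k) x)) = Th TT (TT ∘ sigma k) x from
    (FbH k).symm_apply_apply _]
  exact Th_Th TT_ty (fun j => TT_ty (sigma k j)) x

theorem fX_gX (k : ℕ) (x : XM m) : fX k (gX k x) = x := by
  unfold gX fX
  have h1 := Th_Th (t := TT ∘ sigma k) (t' := TT) (fun j => TT_ty (sigma k j)) TT_ty
    ((FbH k).symm x)
  rw [h1]
  exact (FbH k).apply_symm_apply x

theorem cR_bound {k : ℕ} (hk : 1 ≤ k) (j : ℕ) :
    (1 / 4 : ℝ) ^ (sigma k j) * 4 ^ j * cR (TT j) (TT (sigma k j)) ≤ 1200 := by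
  have hπ := Real.pi_le_four
  have hπ0 := Real.pi_pos
  by_cases hj : j = 0
  · subst hj
    rw [sigma_zero, TT_zero, TT_pos (by omega)]
    unfold cR
    have h1 : (0 : ℕ) ≠ 4 ^ (k + 3) := (by positivity : (0 : ℕ) < 4 ^ (k + 3)).ne
    rw [if_neg h1, if_pos rfl]
    push_cast
    rw [pow_zero, mul_one, pow_add]
    have h2 := four_mul k
    obtain ⟨h3, h4⟩ := qk_bounds k
    have e : (1 / 4 : ℝ) ^ k * (1 + 4 * Real.pi * (4 ^ k * 4 ^ 3)) =
        (1 / 4 : ℝ) ^ k + 256 * Real.pi * (4 ^ k * (1 / 4 : ℝ) ^ k) := by ring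
    rw [e, h2]
    linarith
  · by_cases hjk : j < k
    · rw [sigma_lt hj hjk]
      unfold cR
      rw [if_pos rfl, mul_one, mul_comm, four_mul]
      norm_num
    · rw [sigma_ge hj hjk, TT_pos hj, TT_pos (by omega)]
      unfold cR
      have h1 : (4 : ℕ) ^ (j + 3) ≠ 4 ^ (j + 1 + 3) := by
        intro h
        have := Nat.pow_right_injective (le_refl 2 |>.trans (by norm_num : 2 ≤ 4)) h
        omega
      rw [if_neg h1, if_neg (by positivity), if_neg (by positivity)]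
      push_cast
      set P : ℝ := (4 : ℝ) ^ (j + 3) with hP
      have hP4 : 4 ≤ P := by
        calc (4 : ℝ) = 4 ^ 1 := (pow_one _).symm
          _ ≤ P := pow_le_pow_right₀ (by norm_num) (by omega)
      have e1 : (4 : ℝ) ^ (j + 1 + 3) = 4 * P := by
        rw [hP]
        ring
      rw [e1]
      have e2 : |4 * P - P| = 3 * P := by
        rw [show 4 * P - P = 3 * P by ring]
        exact abs_of_pos (by linarith)
      rw [e2]
      have h2 : 3 * P / (P - 1) ≤ 4 := by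
        rw [div_le_iff₀ (by linarith)]
        linarith
      have h3 : P / (4 * P) = 1 / 4 := by
        field_simp
      have h4 : (1 / 4 : ℝ) ^ (j + 1) * 4 ^ j = 1 / 4 := by
        rw [pow_succ]
        have := four_mul j
        linear_combination (1 / 4 : ℝ) * this
      rw [h3, h4]
      have h5 : 2 * Real.pi * (3 * P / (P - 1)) ≤ 2 * Real.pi * 4 :=
        mul_le_mul_of_nonneg_left h2 (by positivity)
      linarith

/-- the uniform Lipschitz bound -/
theorem fX_LL {k : ℕ} (hk : 1 ≤ k) {x : XM m} (hx : x ∈ O1) : LL (fX k) 1200 x := by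
  rcases hx with hx | ⟨j, hj, hx⟩
  · have h1 : LL (Fb (m := m) k) 1200 x := LL.of_lip (Fb_lip k)
    refine h1.congr ?_
    filter_upwards [Mb_near hx] with y hy
    unfold fX
    rw [Th_of_pos TT_ty hy.2.le]
  · refine ((SRS_LL (i := sigma k j) (TT_ty j) (TT_ty (sigma k j)) hx).mono
      (cR_bound hk j)).congr ?_
    filter_upwards [Th_near (t := TT) (t' := TT ∘ sigma k) hx.1] with y hy
    unfold fX
    rw [hy.2]
    exact (Fb_SS hk j (RM_ball (TT_ty j) (TT_ty (sigma k j)) hy.1)).symm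

theorem fX_continuousOn {k : ℕ} (hk : 1 ≤ k) : ContinuousOn (fX (m := m) k) O1 :=
  fun _ hx => (fX_LL hk hx).continuousAt.continuousWithinAt

theorem gX_continuousOn {k : ℕ} (hk : 1 ≤ k) : ContinuousOn (gX (m := m) k) O2 := by
  intro y hy
  have h1 := Th_continuousAt (fun j => TT_ty (sigma k j)) TT_ty (symm_mem hk hy)
    (t := TT ∘ sigma k) (t' := TT)
  exact (ContinuousAt.comp (f := (FbH k).symm) h1 (FbH k).symm.continuous.continuousAt).continuousWithinAt

/-! ### Convergence -/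

theorem Binf_SS_zero {b : XM m} (hb : b ∈ ball (0 : XM m) 2) : Binf (SS 0 b) = 0 := by
  unfold Binf Ec
  rw [ec_SS_zero hb, one_smul, sub_self]

theorem fX_tendsto {x : XM m} (hx : x ∈ O1) : Tendsto (fun k => fX k x) atTop (𝓝 (Binf x)) := by
  have hFb : (∀ᶠ k in atTop, Fb k x = fX k x) → Tendsto (fun k => fX k x) atTop (𝓝 (Binf x)) :=
    fun h => (Fb_tendsto x).congr' h
  rcases hx with hx | ⟨j, hj, hx⟩
  · apply hFb
    filter_upwards with k
    unfold fX
    rw [Th_of_pos TT_ty hx.2.le]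
  · by_cases hj0 : j = 0
    · subst hj0
      have h1 : Binf x = 0 := by
        have := Binf_SS_zero hx.1
        rwa [SS_SI] at this
      rw [h1, tendsto_zero_iff_norm_tendsto_zero]
      have h2 : ∀ᶠ k in atTop, ‖fX k x‖ ≤ (1 / 4 : ℝ) ^ k * (17 / 16) := by
        filter_upwards [eventually_ge_atTop 1] with k hk
        unfold fX
        rw [Th_eq hx.1]
        have h3 := RM_ball (TT_ty 0) (TT_ty (sigma k 0)) hx.1
        have h4 : Fb k (SS 0 (RM (TT 0) ((TT ∘ sigma k) 0) (SI 0 x))) = _ := Fb_SS hk 0 h3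
        rw [h4, sigma_zero]
        exact (norm_SS_bounds k h3).2.le
      refine squeeze_zero' (Eventually.of_forall fun _ => norm_nonneg _) h2 ?_
      have := (tendsto_pow_atTop_nhds_zero_of_lt_one (by norm_num : (0 : ℝ) ≤ 1 / 4)
        (by norm_num)).mul_const (17 / 16)
      simpa using this
    · apply hFb
      filter_upwards [eventually_gt_atTop j] with k hk
      unfold fX
      rw [Th_of_eq hx.1]
      show TT j = TT (sigma k j)
      rw [sigma_lt hj0 hk]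

end Pool.Agent.K6.H31.WC
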