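import Pool.Agent.K6.H31.WC.Cor

/-!
# Homeomorphisms between the rooms

`RM p q` maps the room `RD p` onto `RD q` and is the identity for `h ≥ 0`, for `h ≤ -1` and for `|w| ≤ 1`.
-/

set_option autoImplicit false

open Set Filter Topology Metric

namespace Pool.Agent.K6.H31.WC

variable {m : ℕ}

/-- the shift of the total angle -/
noncomputable def Dd (N N' : ℕ) (a : ℝ) : ℝ := ((N' : ℝ) - N) * cl ((a - 1) / ((N : ℝ) - 1))

/-- the map in the corridor -/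
noncomputable def rmP (N N' : ℕ) (b : XM m) : XM m :=
  (b.1 * ee (Dd N N' (ta N b)),
    -(-b.2.1 - cl (-b.2.1) + (N * cl (-b.2.1) + Dd N N' (ta N b)) / N'), b.2.2)

theorem Dd_of_le {N N' : ℕ} (hN : 2 ≤ N) {a : ℝ} (h : a ≤ 1) : Dd N N' a = 0 := by
  have hN' : (2 : ℝ) ≤ N := by exact_mod_cast hN
  unfold Dd
  rw [cl_of_nonpos (div_nonpos_of_nonpos_of_nonneg (by linarith) (by linarith)), mul_zero]

theorem Dd_of_ge {N N' : ℕ} (hN : 2 ≤ N) {a : ℝ} (h : (N : ℝ) ≤ a) : Dd N N' a = N' - N := by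
  have hN' : (2 : ℝ) ≤ N := by exact_mod_cast hN
  unfold Dd
  rw [cl_of_one_le, mul_one]
  rw [one_le_div (by linarith)]
  linarith

theorem Dd_mid {N N' : ℕ} (hN : 2 ≤ N) {a : ℝ} (h1 : 1 ≤ a) (h2 : a ≤ N) :
    Dd N N' a = (N' - N) * ((a - 1) / (N - 1)) := by
  have hN' : (2 : ℝ) ≤ N := by exact_mod_cast hN
  unfold Dd
  rw [cl_of_mem (div_nonneg (by linarith) (by linarith))]
  rw [div_le_one (by linarith)]
  linarith

theorem Dd_range {N N' : ℕ} (hN : 2 ≤ N) (hN' : 2 ≤ N') (b : XM m) :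
    0 ≤ N * cl (-b.2.1) + Dd N N' (ta N b) ∧ N * cl (-b.2.1) + Dd N N' (ta N b) ≤ N' := by
  have h2 : (2 : ℝ) ≤ N := by exact_mod_cast hN
  have h2' : (2 : ℝ) ≤ N' := by exact_mod_cast hN'
  have hc0 := cl_nonneg (-b.2.1)
  have hc1 := cl_le_one (-b.2.1)
  have hs0 := sg_pos N b
  have hs1 := sg_le_one N b
  set c := cl (-b.2.1) with hc
  have ha : ta N b = N * c + sg N b := rfl
  rcases le_total (ta N b) 1 with h | h
  · rw [Dd_of_le hN h]
    constructor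
    · positivity
    · linarith
  · rcases le_total (N : ℝ) (ta N b) with h' | h'
    · rw [Dd_of_ge hN h']
      constructor
      · linarith
      · nlinarith
    · rw [Dd_mid hN h h']
      have e : (N : ℝ) * c + (N' - N) * ((ta N b - 1) / (N - 1)) =
          (1 - sg N b) + (N' - 1) * ((ta N b - 1) / (N - 1)) := by
        have : (N : ℝ) - 1 ≠ 0 := by linarith
        rw [show (N : ℝ) * c = ta N b - sg N b by linarith]
        field_simp
        ring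
      rw [e]
      have h3 : 0 ≤ (ta N b - 1) / (N - 1) := div_nonneg (by linarith) (by linarith)
      have h4 : (ta N b - 1) / (N - 1) ≤ 1 := by
        rw [div_le_one (by linarith)]
        linarith
      constructor
      · nlinarith
      · nlinarith

theorem ta_of_nonneg {N : ℕ} {b : XM m} (h : 0 ≤ b.2.1) : ta N b ≤ 1 := by
  unfold ta
  rw [cl_of_nonpos (by linarith), mul_zero, zero_add]
  exact sg_le_one N b

theorem ta_of_le {N : ℕ} {b : XM m} (h : b.2.1 ≤ -1) : (N : ℝ) ≤ ta N b := by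
  unfold ta
  rw [cl_of_one_le (by linarith), mul_one]
  linarith [sg_pos N b]

theorem ee_sub_nat (N N' : ℕ) : ee ((N' : ℝ) - N) = 1 := by
  have := ee_int ((N' : ℤ) - N)
  push_cast at this
  exact this

theorem rmP_of_nonneg {N N' : ℕ} (hN : 2 ≤ N) {b : XM m} (h : 0 ≤ b.2.1) : rmP N N' b = b := by
  unfold rmP
  rw [Dd_of_le hN (ta_of_nonneg h), cl_of_nonpos (by linarith : -b.2.1 ≤ 0), ee_zero]
  refine Prod.ext (by simp) (Prod.ext (by simp) rfl)

theorem rmP_of_le {N N' : ℕ} (hN : 2 ≤ N) (hN' : 2 ≤ N') {b : XM m} (h : b.2.1 ≤ -1) :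
    rmP N N' b = b := by
  have h2' : (2 : ℝ) ≤ N' := by exact_mod_cast hN'
  have h0 : (N' : ℝ) ≠ 0 := by linarith
  unfold rmP
  rw [Dd_of_ge hN (ta_of_le h), cl_of_one_le (by linarith : 1 ≤ -b.2.1), ee_sub_nat]
  refine Prod.ext (by simp) (Prod.ext ?_ rfl)
  show -(-b.2.1 - 1 + (N * 1 + (N' - N)) / N') = b.2.1
  have : ((N : ℝ) * 1 + (N' - N)) / N' = 1 := by
    rw [div_eq_one_iff_eq h0]
    ring
  rw [this]
  ring

theorem cl_rmP {N N' : ℕ} (hN : 2 ≤ N) (hN' : 2 ≤ N') (b : XM m) :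
    cl (-(rmP N N' b).2.1) = (N * cl (-b.2.1) + Dd N N' (ta N b)) / N' := by
  have h2' : (2 : ℝ) ≤ N' := by exact_mod_cast hN'
  have h0 : (N' : ℝ) ≠ 0 := by linarith
  rcases le_total 0 b.2.1 with h | h
  · rw [rmP_of_nonneg hN h, Dd_of_le hN (ta_of_nonneg h), cl_of_nonpos (by linarith : -b.2.1 ≤ 0)]
    simp
  · rcases le_total b.2.1 (-1) with h' | h'
    · rw [rmP_of_le hN hN' h', Dd_of_ge hN (ta_of_le h'), cl_of_one_le (by linarith : 1 ≤ -b.2.1)]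
      rw [eq_comm, div_eq_one_iff_eq h0]
      ring
    · have hr := Dd_range (N' := N') hN hN' b
      have e : -(rmP N N' b).2.1 = (N * cl (-b.2.1) + Dd N N' (ta N b)) / N' := by
        show - -(-b.2.1 - cl (-b.2.1) + (N * cl (-b.2.1) + Dd N N' (ta N b)) / N') = _
        rw [cl_of_mem (by linarith : 0 ≤ -b.2.1) (by linarith)]
        ring
      rw [e, cl_of_mem (div_nonneg hr.1 (by linarith))]
      rw [div_le_one (by linarith)]
      exact hr.2

theorem norm_rmP_fst (N N' : ℕ) (b : XM m) : ‖(rmP N N' b).1‖ = ‖b.1‖ := by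
  show ‖b.1 * ee _‖ = _
  rw [norm_mul, norm_ee, mul_one]

theorem qq_rmP {N N' : ℕ} (hN : 2 ≤ N) (hN' : 2 ≤ N') (b : XM m) :
    qq N' (rmP N N' b) = qq N b := by
  have h2' : (2 : ℝ) ≤ N' := by exact_mod_cast hN'
  have h0 : (N' : ℝ) ≠ 0 := by linarith
  show -(b.1 * ee (Dd N N' (ta N b)) * ee (-(N' * cl (-(rmP N N' b).2.1)))) = -(b.1 * ee (-(N * cl (-b.2.1))))
  rw [cl_rmP hN hN', mul_div_cancel₀ _ h0, mul_assoc, ← ee_add]
  congr 3
  ring

theorem sg_rmP {N N' : ℕ} (hN : 2 ≤ N) (hN' : 2 ≤ N') (b : XM m) :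
    sg N' (rmP N N' b) = sg N b := by
  unfold sg
  rw [qq_rmP hN hN']

theorem ta_rmP {N N' : ℕ} (hN : 2 ≤ N) (hN' : 2 ≤ N') (b : XM m) :
    ta N' (rmP N N' b) = ta N b + Dd N N' (ta N b) := by
  have h2' : (2 : ℝ) ≤ N' := by exact_mod_cast hN'
  have h0 : (N' : ℝ) ≠ 0 := by linarith
  conv_lhs => unfold ta
  rw [cl_rmP hN hN', sg_rmP hN hN', mul_div_cancel₀ _ h0]
  show _ = N * cl (-b.2.1) + sg N b + Dd N N' (ta N b)
  ring

theorem Dd_Dd {N N' : ℕ} (hN : 2 ≤ N) (hN' : 2 ≤ N') (a : ℝ) :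
    Dd N' N (a + Dd N N' a) = -Dd N N' a := by
  have h2 : (2 : ℝ) ≤ N := by exact_mod_cast hN
  have h2' : (2 : ℝ) ≤ N' := by exact_mod_cast hN'
  rcases le_total a 1 with h | h
  · rw [Dd_of_le hN h, add_zero, Dd_of_le hN' h, neg_zero]
  · rcases le_total (N : ℝ) a with h' | h'
    · rw [Dd_of_ge hN h', Dd_of_ge hN' (by linarith)]
      ring
    · have h3 : 0 ≤ (a - 1) / (N - 1 : ℝ) := div_nonneg (by linarith) (by linarith)
      have h4 : (a - 1) / (N - 1 : ℝ) ≤ 1 := by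
        rw [div_le_one (by linarith)]
        linarith
      have h5 : (N : ℝ) - 1 ≠ 0 := by linarith
      have h6 : (N' : ℝ) - 1 ≠ 0 := by linarith
      have e : a + (N' - N) * ((a - 1) / (N - 1)) = 1 + (N' - 1) * ((a - 1) / (N - 1)) := by
        field_simp
        ring
      rw [Dd_mid hN h h', e, Dd_mid hN' (by nlinarith) (by nlinarith)]
      have e2 : 1 + ((N' : ℝ) - 1) * ((a - 1) / (N - 1)) - 1 = (N' - 1) * ((a - 1) / (N - 1)) := by ring
      rw [e2, mul_div_cancel_left₀ _ h6]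
      ring

theorem rmP_rmP {N N' : ℕ} (hN : 2 ≤ N) (hN' : 2 ≤ N') (b : XM m) :
    rmP N' N (rmP N N' b) = b := by
  have h2 : (2 : ℝ) ≤ N := by exact_mod_cast hN
  have h2' : (2 : ℝ) ≤ N' := by exact_mod_cast hN'
  have h0 : (N' : ℝ) ≠ 0 := by linarith
  have h0' : (N : ℝ) ≠ 0 := by linarith
  have e : Dd N' N (ta N' (rmP N N' b)) = -Dd N N' (ta N b) := by
    rw [ta_rmP hN hN', Dd_Dd hN hN']
  refine Prod.ext ?_ (Prod.ext ?_ rfl)
  · show (b.1 * ee (Dd N N' (ta N b))) * ee (Dd N' N (ta N' (rmP N N' b))) = b.1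
    rw [e, mul_assoc, ee_mul_neg, mul_one]
  · show -(-(rmP N N' b).2.1 - cl (-(rmP N N' b).2.1) + (N' * cl (-(rmP N N' b).2.1) +
      Dd N' N (ta N' (rmP N N' b))) / N) = b.2.1
    rw [e, cl_rmP hN hN']
    show -(- -(-b.2.1 - cl (-b.2.1) + (N * cl (-b.2.1) + Dd N N' (ta N b)) / N') -
      (N * cl (-b.2.1) + Dd N N' (ta N b)) / N' + (N' * ((N * cl (-b.2.1) + Dd N N' (ta N b)) / N') +
      -Dd N N' (ta N b)) / N) = b.2.1
    rw [mul_div_cancel₀ _ h0]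
    have : ((N : ℝ) * cl (-b.2.1) + Dd N N' (ta N b) + -Dd N N' (ta N b)) / N = cl (-b.2.1) := by
      rw [add_neg_cancel_right, mul_div_cancel_left₀ _ h0']
    rw [this]
    ring

theorem abs_Dd_sub {N N' : ℕ} (hN : 2 ≤ N) (a a' : ℝ) :
    |Dd N N' a - Dd N N' a'| ≤ |(N' : ℝ) - N| / (N - 1) * |a - a'| := by
  have h2 : (2 : ℝ) ≤ N := by exact_mod_cast hN
  unfold Dd
  rw [← mul_sub, abs_mul]
  have h := abs_cl_sub ((a - 1) / ((N : ℝ) - 1)) ((a' - 1) / ((N : ℝ) - 1))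
  have e : (a - 1) / ((N : ℝ) - 1) - (a' - 1) / ((N : ℝ) - 1) = (a - a') / (N - 1) := by ring
  rw [e, abs_div, abs_of_pos (by linarith : (0 : ℝ) < N - 1)] at h
  calc |(N' : ℝ) - N| * |cl ((a - 1) / ((N : ℝ) - 1)) - cl ((a' - 1) / ((N : ℝ) - 1))|
      ≤ |(N' : ℝ) - N| * (|a - a'| / (N - 1)) := mul_le_mul_of_nonneg_left h (abs_nonneg _)
    _ = _ := by ring

/-! ### The twist -/

/-- the twist -/
noncomputable def tw (t : ℝ) (b : XM m) : XM m := (b.1 * ee (t * cl (-b.2.1)), b.2.1, b.2.2)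

theorem tw_tw (t : ℝ) (b : XM m) : tw (-t) (tw t b) = b := by
  refine Prod.ext ?_ rfl
  show (b.1 * ee (t * cl (-b.2.1))) * ee (-t * cl (-b.2.1)) = b.1
  rw [neg_mul, mul_assoc, ee_mul_neg, mul_one]

theorem tw_of_nonneg {t : ℝ} {b : XM m} (h : 0 ≤ b.2.1) : tw t b = b := by
  refine Prod.ext ?_ rfl
  show b.1 * ee (t * cl (-b.2.1)) = b.1
  rw [cl_of_nonpos (by linarith), mul_zero, ee_zero, mul_one]

theorem tw_of_le {n : ℤ} {b : XM m} (h : b.2.1 ≤ -1) : tw n b = b := by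
  refine Prod.ext ?_ rfl
  show b.1 * ee (n * cl (-b.2.1)) = b.1
  rw [cl_of_one_le (by linarith), mul_one, ee_int, mul_one]

theorem norm_tw_fst (t : ℝ) (b : XM m) : ‖(tw t b).1‖ = ‖b.1‖ := by
  show ‖b.1 * ee _‖ = _
  rw [norm_mul, norm_ee, mul_one]

theorem qq_tw (N : ℕ) (b : XM m) : qq N (tw N b) = qq 0 b := by
  show -(b.1 * ee (N * cl (-b.2.1)) * ee (-(N * cl (-b.2.1)))) = -(b.1 * ee (-((0 : ℕ) * cl (-b.2.1))))
  rw [mul_assoc, ee_mul_neg]
  simp [ee_zero]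

theorem qq_tw_neg (N : ℕ) (b : XM m) : qq 0 (tw (-N) b) = qq N b := by
  show -(b.1 * ee (-N * cl (-b.2.1)) * ee (-((0 : ℕ) * cl (-b.2.1)))) = -(b.1 * ee (-(N * cl (-b.2.1))))
  rw [neg_mul]
  simp [ee_zero]

/-! ### The room maps -/

/-- the type of a room is `0` or at least `2` -/
def Ty (N : ℕ) : Prop := N = 0 ∨ 2 ≤ N

/-- the homeomorphism of `RD p` onto `RD q` -/
noncomputable def RM (p q : ℕ) (b : XM m) : XM m :=
  if ‖b.1‖ ≤ 1 ∨ p = q then b else if p = 0 then tw q b else if q = 0 then tw (-p) b else rmP p q b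

/-- the properties of the maps that are used -/
structure Adm (p q : ℕ) (b b' : XM m) : Prop where
  norm1 : ‖b'.1‖ = ‖b.1‖
  hqq : qq q b' = qq p b
  hh : b' = b ∨ (-1 ≤ b.2.1 ∧ b.2.1 ≤ 0 ∧ -1 ≤ b'.2.1 ∧ b'.2.1 ≤ 0)
  h3 : b'.2.2 = b.2.2

theorem rmP_mem {N N' : ℕ} (hN : 2 ≤ N) (hN' : 2 ≤ N') (b : XM m) :
    rmP N N' b = b ∨ (-1 ≤ b.2.1 ∧ b.2.1 ≤ 0 ∧ -1 ≤ (rmP N N' b).2.1 ∧ (rmP N N' b).2.1 ≤ 0) := by
  rcases le_total 0 b.2.1 with h | h
  · exact Or.inl (rmP_of_nonneg hN h)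
  · rcases le_total b.2.1 (-1) with h' | h'
    · exact Or.inl (rmP_of_le hN hN' h')
    · right
      have h2' : (2 : ℝ) ≤ N' := by exact_mod_cast hN'
      have hr := Dd_range (N' := N') hN hN' b
      have e : (rmP N N' b).2.1 = -((N * cl (-b.2.1) + Dd N N' (ta N b)) / N') := by
        show -(-b.2.1 - cl (-b.2.1) + (N * cl (-b.2.1) + Dd N N' (ta N b)) / N') = _
        have hc : cl (-b.2.1) = -b.2.1 := cl_of_mem (by linarith) (by linarith)
        rw [hc]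
        ring
      have h5 : 0 ≤ (N * cl (-b.2.1) + Dd N N' (ta N b)) / N' := div_nonneg hr.1 (by linarith)
      have h6 : (N * cl (-b.2.1) + Dd N N' (ta N b)) / N' ≤ 1 := by
        rw [div_le_one (by linarith)]
        exact hr.2
      rw [e]
      exact ⟨h', h, by linarith, by linarith⟩

theorem tw_mem {n : ℤ} (b : XM m) :
    tw n b = b ∨ (-1 ≤ b.2.1 ∧ b.2.1 ≤ 0 ∧ -1 ≤ (tw n b).2.1 ∧ (tw n b).2.1 ≤ 0) := by
  rcases le_total 0 b.2.1 with h | h
  · exact Or.inl (tw_of_nonneg h)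
  · rcases le_total b.2.1 (-1) with h' | h'
    · exact Or.inl (tw_of_le h')
    · exact Or.inr ⟨h', h, h', h⟩

theorem RM_adm {p q : ℕ} (hp : Ty p) (hq : Ty q) (b : XM m) (h1 : ¬ ‖b.1‖ ≤ 1) :
    Adm p q b (RM p q b) := by
  unfold RM
  by_cases hpq : p = q
  · rw [if_pos (Or.inr hpq), ← hpq]
    exact ⟨rfl, rfl, Or.inl rfl, rfl⟩
  rw [if_neg (by tauto)]
  by_cases hp0 : p = 0
  · rw [if_pos hp0]
    subst hp0
    have := tw_mem (n := (q : ℤ)) b
    push_cast at this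
    exact ⟨norm_tw_fst _ _, qq_tw q b, this, rfl⟩
  · rw [if_neg hp0]
    by_cases hq0 : q = 0
    · rw [if_pos hq0]
      subst hq0
      have := tw_mem (n := (-p : ℤ)) b
      push_cast at this
      exact ⟨norm_tw_fst _ _, qq_tw_neg p b, this, rfl⟩
    · rw [if_neg hq0]
      have hp2 := hp.resolve_left hp0
      have hq2 := hq.resolve_left hq0
      exact ⟨norm_rmP_fst _ _ _, qq_rmP hp2 hq2 b, rmP_mem hp2 hq2 b, rfl⟩

theorem RM_norm1 {p q : ℕ} (hp : Ty p) (hq : Ty q) (b : XM m) : ‖(RM p q b).1‖ = ‖b.1‖ := by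
  by_cases h1 : ‖b.1‖ ≤ 1
  · unfold RM
    rw [if_pos (Or.inl h1)]
  · exact (RM_adm hp hq b h1).norm1

theorem RM_RM {p q : ℕ} (hp : Ty p) (hq : Ty q) (b : XM m) : RM q p (RM p q b) = b := by
  by_cases h1 : ‖b.1‖ ≤ 1
  · unfold RM
    rw [if_pos (Or.inl h1), if_pos (Or.inl h1)]
  by_cases hpq : p = q
  · unfold RM
    rw [if_pos (Or.inr hpq), if_pos (Or.inr hpq.symm)]
  have h2 : ¬ (‖(RM p q b).1‖ ≤ 1 ∨ q = p) := by
    rw [RM_norm1 hp hq]
    tauto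
  conv_lhs => rw [RM, if_neg h2]
  have h3 : ¬ (‖b.1‖ ≤ 1 ∨ p = q) := by tauto
  by_cases hp0 : p = 0
  · have hq0 : q ≠ 0 := by omega
    rw [if_neg hq0, if_pos hp0]
    unfold RM
    rw [if_neg h3, if_pos hp0, tw_tw]
  · by_cases hq0 : q = 0
    · rw [if_pos hq0]
      unfold RM
      rw [if_neg h3, if_neg hp0, if_pos hq0]
      have := tw_tw (-p) b
      rwa [neg_neg] at this
    · rw [if_neg hq0, if_neg hp0]
      unfold RM
      rw [if_neg h3, if_neg hp0, if_neg hq0, rmP_rmP (hp.resolve_left hp0) (hq.resolve_left hq0)]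

theorem RM_ball {p q : ℕ} (hp : Ty p) (hq : Ty q) {b : XM m} (h : b ∈ ball (0 : XM m) 2) :
    RM p q b ∈ ball (0 : XM m) 2 := by
  by_cases h1 : ‖b.1‖ ≤ 1
  · unfold RM
    rwa [if_pos (Or.inl h1)]
  · have ha := RM_adm hp hq b h1
    rw [norm_lt_two] at h ⊢
    rcases ha.hh with h2 | h2
    · rw [h2]
      exact h
    · rw [ha.norm1, ha.h3]
      refine ⟨h.1, ?_, h.2.2⟩
      rw [abs_lt]
      constructor <;> linarith [h2.2.2.1, h2.2.2.2]

theorem RM_mem {p q : ℕ} (hp : Ty p) (hq : Ty q) {b : XM m} (h : b ∈ RD p) : RM p q b ∈ RD q := by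
  refine ⟨RM_ball hp hq h.1, fun hW => h.2 ?_⟩
  obtain ⟨h1, h2, h3, h4⟩ := hW
  have hn := RM_norm1 hp hq b
  rw [hn] at h3 h4
  by_cases h5 : ‖b.1‖ ≤ 1
  · have e : RM p q b = b := by
      unfold RM
      rw [if_pos (Or.inl h5)]
    rw [e] at h1 h2
    exact ⟨h1, h2, h3, Or.inl (le_antisymm h5 h3)⟩
  · have ha := RM_adm hp hq b h5
    rw [ha.hqq] at h4
    rcases ha.hh with h6 | h6
    · rw [h6] at h1 h2
      exact ⟨h1, h2, h3, h4⟩
    · exact ⟨h6.1, h6.2.1, h3, h4⟩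

theorem RM_of_nonneg {p q : ℕ} (hp : Ty p) {b : XM m} (h : 0 ≤ b.2.1) : RM p q b = b := by
  unfold RM
  split_ifs with h1 h2 h3
  · rfl
  · exact tw_of_nonneg h
  · exact tw_of_nonneg h
  · exact rmP_of_nonneg (hp.resolve_left h2) h

theorem RM_of_le {p q : ℕ} (hp : Ty p) (hq : Ty q) {b : XM m} (h : b.2.1 ≤ -1) : RM p q b = b := by
  unfold RM
  split_ifs with h1 h2 h3
  · rfl
  · exact tw_of_le (n := (q : ℤ)) h
  · have := tw_of_le (n := (-p : ℤ)) h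
    push_cast at this
    exact this
  · exact rmP_of_le (hp.resolve_left h2) (hq.resolve_left h3) h

/-! ### Lipschitz estimates -/

/-- the constants -/
noncomputable def cR (p q : ℕ) : ℝ :=
  if p = q then 1 else if p = 0 then 1 + 4 * Real.pi * q else if q = 0 then 1 + 4 * Real.pi * p else
    3 + 2 * Real.pi * (|(q : ℝ) - p| / (p - 1)) + p / q

theorem cR_ge (p q : ℕ) (hp : Ty p) : 1 ≤ cR p q := by
  unfold cR
  split_ifs with h1 h2 h3
  · exact le_rfl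
  · have : 0 ≤ 4 * Real.pi * (q : ℝ) := by positivity
    linarith
  · have : 0 ≤ 4 * Real.pi * (p : ℝ) := by positivity
    linarith
  · have hp2 : (2 : ℝ) ≤ p := by exact_mod_cast hp.resolve_left h2
    have h4 : 0 ≤ 2 * Real.pi * (|(q : ℝ) - p| / (p - 1)) :=
      mul_nonneg (by positivity) (div_nonneg (abs_nonneg _) (by linarith))
    have h5 : (0 : ℝ) ≤ p / q := by positivity
    linarith

theorem tw_sub (t : ℝ) {x y : XM m} (hy : ‖y.1‖ ≤ 2) :
    ‖tw t x - tw t y‖ ≤ (1 + 4 * Real.pi * |t|) * ‖x - y‖ := by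
  have h1 : ‖x.1 - y.1‖ ≤ ‖x - y‖ := norm_fst_le (x - y)
  have h2 : ‖x.2 - y.2‖ ≤ ‖x - y‖ := norm_snd_le (x - y)
  have h3 : |x.2.1 - y.2.1| ≤ ‖x - y‖ := (norm_fst_le (x.2 - y.2)).trans h2
  have h0 : 0 ≤ ‖x - y‖ := norm_nonneg _
  have hp : 0 ≤ 4 * Real.pi * |t| := by positivity
  refine max_le ?_ ?_
  · show ‖x.1 * ee (t * cl (-x.2.1)) - y.1 * ee (t * cl (-y.2.1))‖ ≤ _
    have e : x.1 * ee (t * cl (-x.2.1)) - y.1 * ee (t * cl (-y.2.1)) =
        (x.1 - y.1) * ee (t * cl (-x.2.1)) + y.1 * (ee (t * cl (-x.2.1)) - ee (t * cl (-y.2.1))) := by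
      ring
    rw [e]
    refine (norm_add_le _ _).trans ?_
    rw [norm_mul, norm_mul, norm_ee, mul_one]
    have h4 := norm_ee_sub_le (t * cl (-x.2.1)) (t * cl (-y.2.1))
    have h5 : |t * cl (-x.2.1) - t * cl (-y.2.1)| ≤ |t| * ‖x - y‖ := by
      rw [← mul_sub, abs_mul]
      apply mul_le_mul_of_nonneg_left _ (abs_nonneg _)
      refine (abs_cl_sub _ _).trans ?_
      rw [show -x.2.1 - -y.2.1 = -(x.2.1 - y.2.1) by ring, abs_neg]
      exact h3
    have h6 : ‖ee (t * cl (-x.2.1)) - ee (t * cl (-y.2.1))‖ ≤ 2 * Real.pi * (|t| * ‖x - y‖) :=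
      h4.trans (mul_le_mul_of_nonneg_left h5 (by positivity))
    have h7 : ‖y.1‖ * ‖ee (t * cl (-x.2.1)) - ee (t * cl (-y.2.1))‖ ≤
        2 * (2 * Real.pi * (|t| * ‖x - y‖)) := mul_le_mul hy h6 (norm_nonneg _) (by norm_num)
    linarith
  · show ‖x.2 - y.2‖ ≤ _
    nlinarith

theorem rmP_LL {N N' : ℕ} (hN : 2 ≤ N) (hN' : 2 ≤ N') {b : XM m} (hw : 1 < ‖b.1‖) (hw2 : ‖b.1‖ < 2)
    (h : qq N b ∈ Complex.slitPlane) :
    LL (rmP N N') (3 + 2 * Real.pi * (|(N' : ℝ) - N| / (N - 1)) + N / N') b := by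
  have h2 : (2 : ℝ) ≤ N := by exact_mod_cast hN
  have h2' : (2 : ℝ) ≤ N' := by exact_mod_cast hN'
  set κ : ℝ := |(N' : ℝ) - N| / (N - 1) with hκ
  have hκ0 : 0 ≤ κ := div_nonneg (abs_nonneg _) (by linarith)
  have h5 : ∀ᶠ y : XM m in 𝓝 b, ‖y.1‖ < 2 :=
    (continuous_fst.norm).continuousAt.eventually (gt_mem_nhds hw2)
  filter_upwards [ta_LL hw h, ev_snd h5] with p hp hp2
  set x := p.1
  set y := p.2
  have h1 : ‖x.1 - y.1‖ ≤ ‖x - y‖ := norm_fst_le (x - y)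
  have h2s : ‖x.2 - y.2‖ ≤ ‖x - y‖ := norm_snd_le (x - y)
  have h3 : |x.2.1 - y.2.1| ≤ ‖x - y‖ := (norm_fst_le (x.2 - y.2)).trans h2s
  have h4 : ‖x.2.2 - y.2.2‖ ≤ ‖x - y‖ := (norm_snd_le (x.2 - y.2)).trans h2s
  have h0 : 0 ≤ ‖x - y‖ := norm_nonneg _
  have hD : |Dd N N' (ta N x) - Dd N N' (ta N y)| ≤ κ * (1 / 2 * ‖x - y‖) :=
    (abs_Dd_sub hN _ _).trans (mul_le_mul_of_nonneg_left (hp.trans (by linarith)) hκ0)
  have hq : (0 : ℝ) ≤ N / N' := by positivity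
  have hπ : 0 ≤ 2 * Real.pi * κ := by positivity
  refine max_le ?_ (max_le ?_ ?_)
  · show ‖x.1 * ee (Dd N N' (ta N x)) - y.1 * ee (Dd N N' (ta N y))‖ ≤ _
    have e : x.1 * ee (Dd N N' (ta N x)) - y.1 * ee (Dd N N' (ta N y)) =
        (x.1 - y.1) * ee (Dd N N' (ta N x)) +
          y.1 * (ee (Dd N N' (ta N x)) - ee (Dd N N' (ta N y))) := by
      ring
    rw [e]
    refine (norm_add_le _ _).trans ?_
    rw [norm_mul, norm_mul, norm_ee, mul_one]
    have h6 : ‖ee (Dd N N' (ta N x)) - ee (Dd N N' (ta N y))‖ ≤ 2 * Real.pi * (κ * (1 / 2 * ‖x - y‖)) :=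
      (norm_ee_sub_le _ _).trans (mul_le_mul_of_nonneg_left hD (by positivity))
    have h7 : ‖y.1‖ * ‖ee (Dd N N' (ta N x)) - ee (Dd N N' (ta N y))‖ ≤
        2 * (2 * Real.pi * (κ * (1 / 2 * ‖x - y‖))) := mul_le_mul hp2.le h6 (norm_nonneg _) (by norm_num)
    nlinarith
  · show ‖-(-x.2.1 - cl (-x.2.1) + (N * cl (-x.2.1) + Dd N N' (ta N x)) / N') -
      -(-y.2.1 - cl (-y.2.1) + (N * cl (-y.2.1) + Dd N N' (ta N y)) / N')‖ ≤ _
    have e : -(-x.2.1 - cl (-x.2.1) + (N * cl (-x.2.1) + Dd N N' (ta N x)) / N') -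
      -(-y.2.1 - cl (-y.2.1) + (N * cl (-y.2.1) + Dd N N' (ta N y)) / N') =
      (x.2.1 - y.2.1) + (cl (-x.2.1) - cl (-y.2.1)) - N / N' * (cl (-x.2.1) - cl (-y.2.1)) -
        (Dd N N' (ta N x) - Dd N N' (ta N y)) / N' := by ring
    have hc : |cl (-x.2.1) - cl (-y.2.1)| ≤ ‖x - y‖ := by
      refine (abs_cl_sub _ _).trans ?_
      rw [show -x.2.1 - -y.2.1 = -(x.2.1 - y.2.1) by ring, abs_neg]
      exact h3
    rw [e, Real.norm_eq_abs]
    refine (abs_sub _ _).trans ?_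
    have e1 := (abs_sub ((x.2.1 - y.2.1) + (cl (-x.2.1) - cl (-y.2.1)))
      (N / N' * (cl (-x.2.1) - cl (-y.2.1))))
    have e2 := abs_add_le (x.2.1 - y.2.1) (cl (-x.2.1) - cl (-y.2.1))
    have e3 : |(N : ℝ) / N' * (cl (-x.2.1) - cl (-y.2.1))| ≤ N / N' * ‖x - y‖ := by
      rw [abs_mul, abs_of_nonneg hq]
      exact mul_le_mul_of_nonneg_left hc hq
    have e4 : |(Dd N N' (ta N x) - Dd N N' (ta N y)) / N'| ≤ κ * (1 / 2 * ‖x - y‖) := by
      rw [abs_div, abs_of_pos (by linarith : (0 : ℝ) < N'), div_le_iff₀ (by linarith)]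
      refine hD.trans ?_
      have : 0 ≤ κ * (1 / 2 * ‖x - y‖) := by positivity
      nlinarith
    have e5 : κ * (1 / 2 * ‖x - y‖) ≤ 2 * Real.pi * κ * ‖x - y‖ := by
      have h3π := Real.pi_gt_three
      have : 0 ≤ κ * ‖x - y‖ := by positivity
      nlinarith
    nlinarith
  · show ‖x.2.2 - y.2.2‖ ≤ _
    nlinarith

theorem RM_LL {p q : ℕ} (hp : Ty p) (hq : Ty q) {b : XM m} (h : b ∈ RD p) : LL (RM p q) (cR p q) b := by
  have hid : RM p q =ᶠ[𝓝 b] id → LL (RM p q) (cR p q) b := by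
    intro h1
    have h2 : LL (id : XM m → XM m) 1 b := LL.of_lip fun y z => by simp
    exact (h2.congr h1.symm).mono (cR_ge p q hp)
  by_cases hpq : p = q
  · apply hid
    filter_upwards with y
    unfold RM
    rw [if_pos (Or.inr hpq)]
    rfl
  rcases RD_cases h with h1 | h1 | h1 | ⟨h1, h2⟩
  · apply hid
    have h5 : ∀ᶠ y : XM m in 𝓝 b, ‖y.1‖ < 1 :=
      (continuous_fst.norm).continuousAt.eventually (gt_mem_nhds h1)
    filter_upwards [h5] with y hy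
    unfold RM
    rw [if_pos (Or.inl hy.le)]
    rfl
  · apply hid
    have h5 : ∀ᶠ y : XM m in 𝓝 b, y.2.1 < -1 :=
      (continuous_fst.comp continuous_snd).continuousAt.eventually (gt_mem_nhds h1)
    filter_upwards [h5] with y hy
    exact RM_of_le hp hq hy.le
  · apply hid
    have h5 : ∀ᶠ y : XM m in 𝓝 b, 0 < y.2.1 :=
      (continuous_fst.comp continuous_snd).continuousAt.eventually (lt_mem_nhds h1)
    filter_upwards [h5] with y hy
    exact RM_of_nonneg hp hy.le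
  · have hw2 : ‖b.1‖ < 2 := (norm_lt_two.1 h.1).1
    have h5 : ∀ᶠ y : XM m in 𝓝 b, 1 < ‖y.1‖ :=
      (continuous_fst.norm).continuousAt.eventually (lt_mem_nhds h1)
    have h6 : ∀ᶠ y : XM m in 𝓝 b, ‖y.1‖ < 2 :=
      (continuous_fst.norm).continuousAt.eventually (gt_mem_nhds hw2)
    unfold cR
    rw [if_neg hpq]
    by_cases hp0 : p = 0
    · rw [if_pos hp0]
      have h7 : LL (tw (m := m) q) (1 + 4 * Real.pi * q) b := by
        filter_upwards [ev_snd h6] with z hz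
        have := tw_sub (q : ℝ) (x := z.1) (y := z.2) hz.le
        rwa [abs_of_nonneg (Nat.cast_nonneg q)] at this
      refine h7.congr ?_
      filter_upwards [h5] with y hy
      unfold RM
      rw [if_neg (by push Not; exact ⟨hy, hpq⟩), if_pos hp0]
    · rw [if_neg hp0]
      by_cases hq0 : q = 0
      · rw [if_pos hq0]
        have h7 : LL (tw (m := m) (-p)) (1 + 4 * Real.pi * p) b := by
          filter_upwards [ev_snd h6] with z hz
          have := tw_sub (-p : ℝ) (x := z.1) (y := z.2) hz.le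
          rwa [abs_neg, abs_of_nonneg (Nat.cast_nonneg p)] at this
        refine h7.congr ?_
        filter_upwards [h5] with y hy
        unfold RM
        rw [if_neg (by push Not; exact ⟨hy, hpq⟩), if_neg hp0, if_pos hq0]
      · rw [if_neg hq0]
        refine (rmP_LL (hp.resolve_left hp0) (hq.resolve_left hq0) h1 hw2 h2).congr ?_
        filter_upwards [h5] with y hy
        unfold RM
        rw [if_neg (by push Not; exact ⟨hy, hpq⟩), if_neg hp0, if_neg hq0]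

end Pool.Agent.K6.H31.WC
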