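import Pool.Agent.K6.H31.WC.Logs

/-!
# Short loops in `Ω'` are trivial
-/

set_option autoImplicit false

open Set Filter Topology Metric MeasureTheory

namespace Pool.Agent.K6.H31.WC

open Pool.Agent.K6.H31.WS (HasLog)

variable {m : ℕ}

/-- the depth in the corridor -/
noncomputable def de (N : ℕ) (b : XM m) : ℝ :=
  if ‖b.1‖ ≤ 1 then 0 else max 0 (((N : ℝ) - 1) / 2 - |ta N b - (N + 1) / 2|)

theorem de_nonneg (N : ℕ) (b : XM m) : 0 ≤ de N b := by
  unfold de
  split_ifs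
  · exact le_rfl
  · exact le_max_left _ _

theorem de_of_nonneg {N : ℕ} {b : XM m} (h : 0 ≤ b.2.1) : de N b = 0 := by
  unfold de
  split_ifs
  · rfl
  · apply max_eq_left
    have h1 := ta_of_nonneg (N := N) h
    have h2 := neg_abs_le (ta N b - (N + 1) / 2)
    linarith

theorem de_of_le {N : ℕ} {b : XM m} (h : b.2.1 ≤ -1) : de N b = 0 := by
  unfold de
  split_ifs
  · rfl
  · apply max_eq_left
    have h1 := ta_of_le (N := N) h
    have h2 := le_abs_self (ta N b - (N + 1) / 2)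
    linarith

theorem de_mid {N : ℕ} {b : XM m} (h : b.2.1 = -(1 / 2)) (h1 : 1 < ‖b.1‖) :
    (N : ℝ) / 2 - 1 ≤ de N b := by
  unfold de
  rw [if_neg (by linarith)]
  refine le_trans ?_ (le_max_right _ _)
  have h2 : ta N b = N / 2 + sg N b := by
    unfold ta
    rw [h, cl_of_mem (by norm_num) (by norm_num)]
    ring
  have h3 : |ta N b - (N + 1) / 2| ≤ 1 / 2 := by
    rw [h2, abs_le]
    have := sg_pos N b
    have := sg_le_one N b
    constructor <;> linarith
  linarith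

theorem de_pos {N : ℕ} {b : XM m} (h : 0 < de N b) : 1 < ‖b.1‖ ∧ -1 < b.2.1 ∧ b.2.1 < 0 := by
  refine ⟨?_, ?_, ?_⟩
  · by_contra h1
    unfold de at h
    rw [if_pos (not_lt.1 h1)] at h
    exact lt_irrefl _ h
  · by_contra h1
    rw [de_of_le (not_lt.1 h1)] at h
    exact lt_irrefl _ h
  · by_contra h1
    rw [de_of_nonneg (not_lt.1 h1)] at h
    exact lt_irrefl _ h

theorem de_LL {N : ℕ} {b : XM m} (h : b ∈ RD N) : LL (de N) (1 / 2) b := by
  have hid : de (m := m) N =ᶠ[𝓝 b] (fun _ => 0) → LL (de N) (1 / 2) b := by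
    intro h1
    have h2 : LL (fun _ : XM m => (0 : ℝ)) (1 / 2) b := LL.of_lip fun y z => by
      rw [sub_self, norm_zero]
      positivity
    exact h2.congr h1.symm
  rcases RD_cases h with h1 | h1 | h1 | ⟨h1, h2⟩
  · apply hid
    have h5 : ∀ᶠ y : XM m in 𝓝 b, ‖y.1‖ < 1 :=
      (continuous_fst.norm).continuousAt.eventually (gt_mem_nhds h1)
    filter_upwards [h5] with y hy
    unfold de
    rw [if_pos hy.le]
  · apply hid
    have h5 : ∀ᶠ y : XM m in 𝓝 b, y.2.1 < -1 :=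
      (continuous_fst.comp continuous_snd).continuousAt.eventually (gt_mem_nhds h1)
    filter_upwards [h5] with y hy
    exact de_of_le hy.le
  · apply hid
    have h5 : ∀ᶠ y : XM m in 𝓝 b, 0 < y.2.1 :=
      (continuous_fst.comp continuous_snd).continuousAt.eventually (lt_mem_nhds h1)
    filter_upwards [h5] with y hy
    exact de_of_nonneg hy.le
  · have h5 : ∀ᶠ y : XM m in 𝓝 b, 1 < ‖y.1‖ :=
      (continuous_fst.norm).continuousAt.eventually (lt_mem_nhds h1)
    filter_upwards [ta_LL h1 h2, ev_both h5] with p hp hp2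
    unfold de
    rw [if_neg (by linarith [hp2.1]), if_neg (by linarith [hp2.2]), Real.norm_eq_abs]
    have h3 : |max 0 (((N : ℝ) - 1) / 2 - |ta N p.1 - (N + 1) / 2|) -
        max 0 (((N : ℝ) - 1) / 2 - |ta N p.2 - (N + 1) / 2|)| ≤
        |((N : ℝ) - 1) / 2 - |ta N p.1 - (N + 1) / 2| -
          (((N : ℝ) - 1) / 2 - |ta N p.2 - (N + 1) / 2|)| := by
      have h := abs_max_sub_max_le_max (0 : ℝ) (((N : ℝ) - 1) / 2 - |ta N p.1 - (N + 1) / 2|) 0
        (((N : ℝ) - 1) / 2 - |ta N p.2 - (N + 1) / 2|)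
      rw [sub_self, abs_zero] at h
      exact h.trans (max_le (abs_nonneg _) le_rfl)
    have h4 : ((N : ℝ) - 1) / 2 - |ta N p.1 - (N + 1) / 2| -
        (((N : ℝ) - 1) / 2 - |ta N p.2 - (N + 1) / 2|) =
        |ta N p.2 - (N + 1) / 2| - |ta N p.1 - (N + 1) / 2| := by ring
    rw [h4] at h3
    have h6 := abs_abs_sub_abs_le (ta N p.2 - (N + 1) / 2) (ta N p.1 - (N + 1) / 2)
    rw [sub_sub_sub_cancel_right, abs_sub_comm (ta N p.2) (ta N p.1)] at h6
    have h7 : ‖p.1.1 - p.2.1‖ ≤ ‖p.1 - p.2‖ := norm_fst_le (p.1 - p.2)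
    refine h3.trans (h6.trans (hp.trans ?_))
    linarith

open Classical in
/-- the depth in the corridor of the room `j` -/
noncomputable def dX (j : ℕ) (x : XM m) : ℝ :=
  if SI j x ∈ ball (0 : XM m) 2 then de (TT j) (SI j x) else 0

theorem dX_LL {j : ℕ} {x : XM m} (hx : x ∈ O2) : LL (dX j) (16 * 4 ^ j) x := by
  have hid : dX (m := m) j =ᶠ[𝓝 x] (fun _ => 0) → LL (dX j) (16 * 4 ^ j) x := by
    intro h1
    have h2 : LL (fun _ : XM m => (0 : ℝ)) (16 * 4 ^ j) x := LL.of_lip fun y z => by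
      rw [sub_self, norm_zero]
      positivity
    exact h2.congr h1.symm
  rcases hx with hx | ⟨i, hi, hx⟩
  · apply hid
    filter_upwards [Mb_near hx] with y hy
    unfold dX
    split_ifs
    · exact de_of_nonneg ((SI_pos_iff j y).2 hy.2).le
    · rfl
  · by_cases hij : i = j
    · subst hij
      have h1 : LL (SI (m := m) i) (32 * 4 ^ i) x := LL.of_lip fun y z => (SI_sub i y z).le
      have h2 := LL.comp (f := SI i) (g := de (TT i)) (by norm_num) (de_LL hx) h1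
      have h3 : LL (fun y => de (TT i) (SI i y)) (16 * 4 ^ i) x := h2.mono (by linarith)
      refine h3.congr ?_
      filter_upwards [(isOpen_ball.preimage (SI_continuous i)).mem_nhds hx.1] with y hy
      unfold dX
      rw [if_pos (show SI i y ∈ ball (0 : XM m) 2 from hy)]
    · apply hid
      filter_upwards [(isOpen_ball.preimage (SI_continuous i)).mem_nhds hx.1] with y hy
      unfold dX
      rw [if_neg fun h => hij (SI_unique hy h)]

theorem growth {E : ℝ → ℝ} {γ γ' : ℝ → XM m} {K : ℝ} (hK : 0 ≤ K) (hE : Continuous E)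
    (hloc : ∀ θ, ∀ᶠ p : ℝ × ℝ in 𝓝 (θ, θ), |E p.1 - E p.2| ≤ K * ‖γ p.1 - γ p.2‖)
    (hγ : ∀ θ, HasDerivAt γ (γ' θ) θ) (hγ' : Continuous γ') {a b : ℝ} (hab : a ≤ b) :
    |E b - E a| ≤ K * ∫ θ in a..b, ‖γ' θ‖ := by
  have hint : ∀ s t : ℝ, IntervalIntegrable (fun θ => ‖γ' θ‖) volume s t := fun s t =>
    hγ'.norm.intervalIntegrable _ _
  have hD : Continuous fun t => ∫ θ in a..t, ‖γ' θ‖ :=
    intervalIntegral.continuous_primitive (fun s t => hint s t) a
  set S : Set ℝ := {t | |E t - E a| ≤ K * ∫ θ in a..t, ‖γ' θ‖} with hS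
  have hcl : IsClosed (S ∩ Icc a b) := by
    refine IsClosed.inter ?_ isClosed_Icc
    exact isClosed_le (by fun_prop) (continuous_const.mul hD)
  have ha : a ∈ S := by
    show |E a - E a| ≤ K * ∫ θ in a..a, ‖γ' θ‖
    simp
  have hmain := hcl.Icc_subset_of_forall_exists_gt ha ?_
  · exact hmain (right_mem_Icc.2 hab)
  · rintro t ⟨ht, hta, htb⟩ y hy
    have h1 : ∀ᶠ t' in 𝓝[>] t, |E t' - E t| ≤ K * ‖γ t' - γ t‖ := by
      have h2 : Tendsto (fun t' : ℝ => (t', t)) (𝓝[>] t) (𝓝 (t, t)) :=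
        ((continuous_id.prodMk continuous_const).tendsto t).mono_left nhdsWithin_le_nhds
      exact h2.eventually (hloc t)
    have h3 : ∀ᶠ t' in 𝓝[>] t, t' ∈ Ioc t y := Ioc_mem_nhdsGT hy
    obtain ⟨t', h4, h5⟩ := (h1.and h3).exists
    refine ⟨t', ?_, h5⟩
    have h6 : ‖γ t' - γ t‖ ≤ ∫ θ in t..t', ‖γ' θ‖ := by
      have h7 := intervalIntegral.integral_eq_sub_of_hasDerivAt (a := t) (b := t')
        (fun θ _ => hγ θ) (hγ'.intervalIntegrable _ _)
      rw [← h7]
      exact intervalIntegral.norm_integral_le_integral_norm h5.1.le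
    have h8 : |E t - E a| ≤ K * ∫ θ in a..t, ‖γ' θ‖ := ht
    have h9 := intervalIntegral.integral_add_adjacent_intervals (hint a t) (hint t t')
    show |E t' - E a| ≤ K * ∫ θ in a..t', ‖γ' θ‖
    rw [← h9, mul_add]
    have h10 : E t' - E a = (E t - E a) + (E t' - E t) := by ring
    rw [h10]
    refine (abs_add_le _ _).trans ?_
    have h11 : K * ‖γ t' - γ t‖ ≤ K * ∫ θ in t..t', ‖γ' θ‖ := mul_le_mul_of_nonneg_left h6 hK
    linarith

theorem hasLog_of_subset {V : Set (XM m)} {F : XM m → ℂ} (hlog : ∃ L : XM m → ℂ, ContinuousOn L V ∧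
    ∀ x ∈ V, Complex.exp (L x) = F x) {γ : ℝ → XM m} (hγ : Continuous γ)
    (hp : ∀ θ, γ (θ + 2 * Real.pi) = γ θ) (hm : ∀ θ, γ θ ∈ V) : HasLog fun θ => F (γ θ) := by
  obtain ⟨L, hL, hLF⟩ := hlog
  refine ⟨fun θ => L (γ θ), hL.comp_continuous hγ hm, fun θ => ?_, fun θ => hLF _ (hm θ)⟩
  show L (γ (θ + 2 * Real.pi)) = L (γ θ)
  rw [hp]

/-- **Short loops are trivial.** -/
theorem hasLog_of_short {F : XM m → ℂ} (hF : ContinuousOn F O2) (hF0 : ∀ x ∈ O2, F x ≠ 0)
    {γ γ' : ℝ → XM m} (hγ : ∀ θ, HasDerivAt γ (γ' θ) θ) (hγ' : Continuous γ')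
    (hp : ∀ θ, γ (θ + 2 * Real.pi) = γ θ) (hm : ∀ θ, γ θ ∈ O2)
    (hint : ∫ θ in (0 : ℝ)..2 * Real.pi, ‖γ' θ‖ < 1) : HasLog fun θ => F (γ θ) := by
  have hγc : Continuous γ := continuous_iff_continuousAt.2 fun θ => (hγ θ).continuousAt
  by_cases hmid : ∃ j, 1 ≤ j ∧ ∃ θ₀, SI j (γ θ₀) ∈ ball (0 : XM m) 2 ∧
      (SI j (γ θ₀)).2.1 = -(1 / 2) ∧ 1 < ‖(SI j (γ θ₀)).1‖
  · obtain ⟨j, hj, θ₀, h1, h2, h3⟩ := hmid
    have hE : Continuous fun θ => dX j (γ θ) := continuous_iff_continuousAt.2 fun θ =>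
      ContinuousAt.comp (f := γ) (dX_LL (hm θ)).continuousAt hγc.continuousAt
    have hloc : ∀ θ, ∀ᶠ p : ℝ × ℝ in 𝓝 (θ, θ),
        |dX j (γ p.1) - dX j (γ p.2)| ≤ 16 * 4 ^ j * ‖γ p.1 - γ p.2‖ := by
      intro θ
      have h4 : Tendsto (fun p : ℝ × ℝ => (γ p.1, γ p.2)) (𝓝 (θ, θ)) (𝓝 (γ θ, γ θ)) :=
        ((hγc.comp continuous_fst).prodMk (hγc.comp continuous_snd)).tendsto (θ, θ)
      exact h4.eventually (dX_LL (hm θ))
    have hγ'p : Function.Periodic γ' (2 * Real.pi) := by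
      intro θ
      have h4 := hγ (θ + 2 * Real.pi)
      have h5 : HasDerivAt (fun t => γ (t + 2 * Real.pi)) (γ' (θ + 2 * Real.pi)) θ :=
        h4.comp_add_const θ (2 * Real.pi)
      have h6 : (fun t => γ (t + 2 * Real.pi)) = γ := funext hp
      rw [h6] at h5
      exact h5.unique (hγ θ)
    have hstart : (31 : ℝ) * 4 ^ j ≤ dX j (γ θ₀) := by
      unfold dX
      rw [if_pos h1]
      refine le_trans ?_ (de_mid h2 h3)
      rw [TT_pos (by omega)]
      push_cast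
      have : (1 : ℝ) ≤ 4 ^ j := one_le_pow₀ (by norm_num)
      rw [pow_add]
      linarith
    have hpos : ∀ θ ∈ Icc θ₀ (θ₀ + 2 * Real.pi), 0 < dX j (γ θ) := by
      intro θ hθ
      have h4 := growth (K := 16 * 4 ^ j) (by positivity) hE hloc hγ hγ' hθ.1
      have h5 : ∫ t in θ₀..θ, ‖γ' t‖ ≤ ∫ t in θ₀..θ₀ + 2 * Real.pi, ‖γ' t‖ := by
        apply intervalIntegral.integral_mono_interval le_rfl hθ.1 hθ.2
        · exact Eventually.of_forall fun t => norm_nonneg _
        · exact hγ'.norm.intervalIntegrable _ _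
      have h6 : ∫ t in θ₀..θ₀ + 2 * Real.pi, ‖γ' t‖ = ∫ t in (0 : ℝ)..0 + 2 * Real.pi, ‖γ' t‖ := by
        have hpn : Function.Periodic (fun t => ‖γ' t‖) (2 * Real.pi) := fun t => by
          show ‖γ' (t + 2 * Real.pi)‖ = ‖γ' t‖
          rw [hγ'p t]
        exact hpn.intervalIntegral_add_eq θ₀ 0
      rw [zero_add] at h6
      rw [h6] at h5
      have h7 : |dX j (γ θ) - dX j (γ θ₀)| ≤ 16 * 4 ^ j * 1 :=
        h4.trans (mul_le_mul_of_nonneg_left (h5.trans hint.le) (by positivity))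
      have h8 := (abs_le.1 h7).1
      have h9 : (0 : ℝ) < 4 ^ j := by positivity
      linarith
    have hpos' : ∀ θ, 0 < dX j (γ θ) := by
      intro θ
      have hγp : Function.Periodic γ (2 * Real.pi) := hp
      obtain ⟨θ', hθ', he⟩ := Function.Periodic.exists_mem_Ico hγp Real.two_pi_pos θ θ₀
      rw [he]
      exact hpos θ' ⟨hθ'.1, hθ'.2.le⟩
    refine hasLog_of_subset (V := SI j ⁻¹' CE (TT j) univ)
      (SI_HL j (CE_HL (TT j) convex_univ isOpen_univ) F (hF.mono ?_) fun x hx => hF0 x ?_) hγc hp ?_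
    · intro x hx
      exact Or.inr ⟨j, hj, CE_subset_RD hx⟩
    · exact Or.inr ⟨j, hj, CE_subset_RD hx⟩
    · intro θ
      have h4 := hpos' θ
      unfold dX at h4
      by_cases h5 : SI j (γ θ) ∈ ball (0 : XM m) 2
      · rw [if_pos h5] at h4
        obtain ⟨h6, h7, h8⟩ := de_pos h4
        rcases hm θ with h9 | ⟨i, hi, h9⟩
        · have := (SI_pos_iff j (γ θ)).2 h9.2
          linarith
        · have h10 := SI_unique h9.1 h5
          rw [h10] at h9
          rcases RD_cases h9 with h11 | h11 | h11 | ⟨-, h11⟩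
          · linarith
          · linarith
          · linarith
          · exact ⟨h5, h6, h11, mem_univ _⟩
      · rw [if_neg h5] at h4
        exact absurd h4 (lt_irrefl _)
  · refine hasLog_of_subset (V := O2c) (exists_log_O2c hF hF0) hγc hp fun θ => ?_
    rcases hm θ with h9 | ⟨i, hi, h9⟩
    · exact Or.inl h9
    · refine Or.inr ⟨i, hi, h9, ?_⟩
      by_contra h10
      push Not at h10
      obtain ⟨h11, h12⟩ := h10
      refine hmid ⟨i, hi, θ, h9.1, h11, lt_of_le_of_ne h12 fun h13 => h9.2 ?_⟩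
      exact ⟨by rw [h11]; norm_num, by rw [h11]; norm_num, h12, Or.inl h13.symm⟩

end Pool.Agent.K6.H31.WC
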